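import Pool.Agent.H351.NH

/-!
Closed walks given by their full vertex list (first vertex = last vertex), and contraction with at
most `n` triangles.
-/

namespace Pool.Agent.H351

variable {V : Type*}

/-- `Cl G w n`: the vertex list `w` is a closed edge path contractible by at most `n` triangles. -/
def Cl (G : SimpleGraph V) : List V → ℕ → Prop
  | [], _ => False
  | a :: l, n => ∃ m ≤ n, NH G a l m

namespace Cl

variable {G : SimpleGraph V}

theorem of_NH {a : V} {l : List V} {n : ℕ} (h : NH G a l n) : Cl G (a :: l) n := ⟨n, le_rfl, h⟩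

theorem mono {w : List V} {m n : ℕ} (h : Cl G w m) (hmn : m ≤ n) : Cl G w n := by
  cases w with
  | nil => exact h
  | cons a l => obtain ⟨k, hk, h⟩ := h; exact ⟨k, by omega, h⟩

theorem congr {w w' : List V} {m : ℕ} (h : Cl G w m) (e : w = w') : Cl G w' m := e ▸ h

theorem triv (a : V) (n : ℕ) : Cl G [a] n := ⟨0, by omega, NH.nil a⟩

theorem concat {a : V} {q l : List V} {n m : ℕ} (h : Cl G (a :: q) n) (h' : Cl G (a :: l) m) :
    Cl G (a :: (q ++ l)) (n + m) := by
  obtain ⟨k, hk, h⟩ := h
  obtain ⟨k', hk', h'⟩ := h'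
  exact ⟨k + k', by omega, h.concat h'⟩

theorem insert {l1 l2 : List V} {x : V} {q : List V} {n m : ℕ} (h : Cl G (l1 ++ x :: l2) n)
    (h' : Cl G (x :: q) m) : Cl G (l1 ++ x :: (q ++ l2)) (n + m) := by
  cases l1 with
  | nil => exact (h'.concat h).mono (by omega)
  | cons a l1' =>
    obtain ⟨k, hk, h⟩ := h
    obtain ⟨k', hk', h'⟩ := h'
    exact ⟨k + k', by omega, h.insert' h'⟩

theorem ends {a : V} {l : List V} {n : ℕ} (h : Cl G (a :: l) n) : l = [] ∨ ∃ l', l = l' ++ [a] := by
  obtain ⟨k, _, h⟩ := h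
  exact h.ends

theorem endsAt {a x : V} {l1 l2 : List V} {n : ℕ} (h : Cl G (a :: (l1 ++ x :: l2)) n) :
    (l2 = [] ∧ x = a) ∨ ∃ l2', l2 = l2' ++ [a] := by
  rcases h.ends with h | ⟨l', h⟩
  · simp at h
  · cases l2 using List.reverseRecOn with
    | nil =>
      left
      have := congrArg (fun l => l.getLast?) h
      simp at this
      exact ⟨rfl, this⟩
    | append_singleton l3 c _ =>
      right
      have := congrArg (fun l => l.getLast?) h
      rw [show l1 ++ x :: (l3 ++ [c]) = (l1 ++ x :: l3) ++ [c] by simp] at this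
      simp only [List.getLast?_append, List.getLast?_singleton] at this
      have hcx : c = a := by simpa using this
      exact ⟨l3, by rw [hcx]⟩

theorem adj {a b : V} {l : List V} {n : ℕ} (h : Cl G (a :: b :: l) n) : G.Adj a b := by
  obtain ⟨k, _, h⟩ := h
  exact h.adj

theorem not_pair {a b : V} {n : ℕ} (h : Cl G [a, b] n) : False := by
  obtain ⟨k, _, h⟩ := h
  exact h.not_single

theorem rotate {a x : V} {l1 l2 : List V} {n : ℕ} (h : Cl G (a :: (l1 ++ x :: l2)) n) :
    Cl G (x :: (l2 ++ (l1 ++ [x]))) n := by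
  obtain ⟨k, hk, h⟩ := h
  exact ⟨k, hk, h.rotate⟩

theorem rotate_back {a x : V} {l1 l2 : List V} {n : ℕ} (h : Cl G (x :: (l2 ++ (l1 ++ [x]))) n)
    (he : (l2 = [] ∧ x = a) ∨ ∃ l2', l2 = l2' ++ [a]) : Cl G (a :: (l1 ++ x :: l2)) n := by
  rcases he with ⟨rfl, rfl⟩ | ⟨l2', rfl⟩
  · simpa using h
  · have := rotate (l1 := l2') (x := a) (l2 := l1 ++ [x]) (by simpa using h)
    simpa using this

theorem shortcut {l1 l2 : List V} {x z y : V} {n : ℕ} (h : Cl G (l1 ++ x :: z :: y :: l2) n)
    (hxy : G.Adj x y) (hxz : G.Adj x z) (hzy : G.Adj z y) : Cl G (l1 ++ x :: y :: l2) (n + 1) := by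
  cases l1 with
  | nil =>
    obtain ⟨k, hk, h⟩ := h
    exact ⟨k + 1, by omega, NH.tri hxy hxz hzy h⟩
  | cons a l1' =>
    obtain ⟨k, hk, h⟩ := h
    exact ⟨k + 1, by omega, NH.shortcut (l1 := l1') h hxz hzy hxy⟩

theorem unspur {l1 l2 : List V} {x y : V} {n : ℕ} (h : Cl G (l1 ++ x :: y :: x :: l2) n) :
    Cl G (l1 ++ x :: l2) n := by
  cases l1 with
  | nil =>
    have h0 : Cl G (x :: ([y] ++ x :: l2)) n := h
    have he := h0.endsAt
    have h1 := h0.rotate
    obtain ⟨k, hk, h1⟩ := h1
    have he' : l2 = [] ∨ ∃ l', l2 = l' ++ [x] := by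
      rcases he with ⟨h, _⟩ | h
      · left; exact h
      · right; exact h
    obtain ⟨m, hm, h2⟩ := NH.unspurAux h1 (l := l2) (y := y) (by simp) he'
    exact ⟨m, by omega, h2⟩
  | cons a l1' =>
    have h0 : Cl G (a :: ((l1' ++ [x, y]) ++ x :: l2)) n := h.congr (by simp)
    have he := h0.endsAt
    have h1 := h0.rotate
    obtain ⟨k, hk, h1⟩ := h1
    obtain ⟨m, hm, h2⟩ := NH.unspurAux h1 (l := l2 ++ (l1' ++ [x])) (y := y) (by simp)
      (Or.inr ⟨l2 ++ l1', by simp⟩)
    have h3 : Cl G (x :: (l2 ++ (l1' ++ [x]))) n := ⟨m, by omega, h2⟩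
    exact (h3.rotate_back he).congr (by simp)

theorem spur {a b : V} (h : G.Adj a b) (n : ℕ) : Cl G [a, b, a] n :=
  ⟨0, by omega, NH.spur h⟩

theorem triangle {a b c : V} (hab : G.Adj a b) (hbc : G.Adj b c) (hac : G.Adj a c) :
    Cl G [a, b, c, a] 1 := by
  have h := spur (G := G) hab 0
  -- a b a -> insert
  have h1 : Cl G [a, c, a] 0 := spur hac 0
  -- a, c, a ; replace first... use NH.tri on [a, b, c, a] with z = c
  refine ⟨1, le_rfl, ?_⟩
  have h2 : NH G a (c :: b :: c :: [a]) 0 := by
    have := (NH.spur hac).insert (l1 := []) (x := c) (l2 := [a]) rfl (NH.spur hbc.symm)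
    simpa using this
  exact NH.tri hab hac hbc.symm h2

theorem untri {l1 l2 : List V} {x y z : V} {n : ℕ} (h : Cl G (l1 ++ x :: y :: l2) n)
    (hxy : G.Adj x y) (hxz : G.Adj x z) (hzy : G.Adj z y) :
    Cl G (l1 ++ x :: z :: y :: l2) (n + 1) := by
  have h1 : Cl G (l1 ++ x :: ([z, y, x] ++ y :: l2)) (n + 1) :=
    h.insert (triangle hxz hzy hxy)
  have h2 : Cl G ((l1 ++ [x, z]) ++ y :: x :: y :: l2) (n + 1) := h1.congr (by simp)
  exact h2.unspur.congr (by simp)

theorem cancel : ∀ (q : List V) {c x : V} {l1 l2 : List V} {m : ℕ},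
    Cl G (l1 ++ x :: (q ++ c :: (q.reverse ++ x :: l2))) m → Cl G (l1 ++ x :: l2) m := by
  intro q
  induction q using List.reverseRecOn with
  | nil => intro c x l1 l2 m h; exact unspur (by simpa using h)
  | append_singleton q3 d ih =>
    intro c x l1 l2 m h
    have h1 : Cl G ((l1 ++ x :: q3) ++ d :: c :: d :: (q3.reverse ++ x :: l2)) m :=
      h.congr (by simp)
    have h2 := h1.unspur
    exact ih (c := d) (h2.congr (by simp))

theorem reverseNH {a : V} {l : List V} {n : ℕ} (h : NH G a l n) : Cl G (a :: l).reverse n := by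
  induction h with
  | nil a => exact triv a 0
  | @back a b p q m n h hp hq ihp ihq =>
    have h1 : Cl G (a :: (p.reverse ++ [b, a])) m := by
      rcases hp.ends with rfl | ⟨p', rfl⟩
      · exact spur h m
      · have h2 : Cl G (b :: (p'.reverse ++ [b])) m := by simpa using ihp
        obtain ⟨k, hk, h2⟩ := h2
        exact ⟨k + 0, by omega, (NH.back h h2 (NH.nil a)).cast (by simp) rfl⟩
    have h3 : Cl G (q.reverse ++ a :: []) n := by simpa using ihq
    exact ((h3.insert h1).mono (by omega)).congr (by simp)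
  | @tri a b z l n hab haz hzb h ih =>
    have h1 : Cl G (l.reverse ++ b :: z :: a :: []) n := by simpa using ih
    exact (h1.shortcut hab.symm hzb.symm haz.symm).congr (by simp)

theorem reverse {w : List V} {n : ℕ} (h : Cl G w n) : Cl G w.reverse n := by
  cases w with
  | nil => exact absurd h (by simp [Cl])
  | cons a l =>
    obtain ⟨k, hk, h⟩ := h
    exact (reverseNH h).mono hk

theorem del {l1 l2 : List V} {x : V} {q : List V} {n m : ℕ} (h : Cl G (l1 ++ x :: (q ++ l2)) n)
    (h' : Cl G (x :: q) m) : Cl G (l1 ++ x :: l2) (n + m) := by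
  rcases h'.ends with rfl | ⟨q', rfl⟩
  · exact (h.congr (by simp)).mono (by omega)
  · have hr : Cl G (x :: (q'.reverse ++ [x])) m := by simpa using h'.reverse
    have h1 : Cl G ((l1 ++ x :: q') ++ x :: l2) n := h.congr (by simp)
    have h2 := h1.insert hr
    exact cancel q' (c := x) (h2.congr (by simp))

theorem mapNH {W : Type*} {H : SimpleGraph W} (f : V → W)
    (hf : ∀ a b, G.Adj a b → H.Adj (f a) (f b)) {a : V} {l : List V} {n : ℕ} (h : NH G a l n) :
    NH H (f a) (l.map f) n := by
  induction h with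
  | nil a => exact NH.nil _
  | @back a b p q m n h hp hq ihp ihq =>
    exact (NH.back (hf _ _ h) ihp ihq).cast (by simp) rfl
  | @tri a b z l n hab haz hzb h ih =>
    exact (NH.tri (hf _ _ hab) (hf _ _ haz) (hf _ _ hzb) (by simpa using ih)).cast (by simp) rfl

theorem map {W : Type*} {H : SimpleGraph W} (f : V → W)
    (hf : ∀ a b, G.Adj a b → H.Adj (f a) (f b)) {w : List V} {n : ℕ} (h : Cl G w n) :
    Cl H (w.map f) n := by
  cases w with
  | nil => exact absurd h (by simp [Cl])
  | cons a l =>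
    obtain ⟨k, hk, h⟩ := h
    exact ⟨k, hk, mapNH f hf h⟩

end Cl

/-- Cyclic closed walks: `Cyc G W n` says that the cyclic vertex list `W` (last vertex adjacent to
the first one) is contractible by at most `n` triangles. -/
def Cyc (G : SimpleGraph V) : List V → ℕ → Prop
  | [], _ => True
  | a :: t, n => Cl G (a :: (t ++ [a])) n

namespace Cyc

variable {G : SimpleGraph V}

theorem mono {w : List V} {m n : ℕ} (h : Cyc G w m) (hmn : m ≤ n) : Cyc G w n := by
  cases w with
  | nil => trivial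
  | cons a l => exact (Cl.mono (show Cl G (a :: (l ++ [a])) m from h) hmn)

theorem congr {w w' : List V} {m : ℕ} (h : Cyc G w m) (e : w = w') : Cyc G w' m := e ▸ h

theorem toCl {a : V} {t : List V} {n : ℕ} (h : Cyc G (a :: t) n) : Cl G (a :: (t ++ [a])) n := h

theorem ofCl {a : V} {t : List V} {n : ℕ} (h : Cl G (a :: (t ++ [a])) n) : Cyc G (a :: t) n := h

theorem rot {X Y : List V} {n : ℕ} (h : Cyc G (X ++ Y) n) : Cyc G (Y ++ X) n := by
  cases X with
  | nil => simpa using h
  | cons x X' =>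
    cases Y with
    | nil => simpa using h
    | cons y Y' =>
      have h1 : Cl G (x :: (X' ++ y :: (Y' ++ [x]))) n := (toCl (by simpa using h)).congr (by simp)
      have h2 := h1.rotate
      exact ofCl (h2.congr (by simp))

theorem not_single {a : V} {n : ℕ} (h : Cyc G [a] n) : False := h.toCl.not_pair

theorem map {W : Type*} {H : SimpleGraph W} (f : V → W)
    (hf : ∀ a b, G.Adj a b → H.Adj (f a) (f b)) {w : List V} {n : ℕ} (h : Cyc G w n) :
    Cyc H (w.map f) n := by
  cases w with
  | nil => trivial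
  | cons a t =>
    have h1 := Cl.map f hf h.toCl
    have h2 : Cl H (f a :: (t.map f ++ [f a])) n := h1.congr (by simp)
    exact ofCl h2

end Cyc

end Pool.Agent.H351
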