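import Pool.Agent.H351.Short

/-!
Fans: a minimal contraction of a closed walk that cannot be split has, at every corner, a fan of
triangles, with the Gauss-Bonnet inequality for the fan angles, and fans at pairwise non-adjacent
vertices can be removed simultaneously.
-/

namespace Pool.Agent.H351

open scoped BigOperators Real

variable {V : Type*}

/-- a corner of a closed walk, with the inner vertices of a fan and its angle -/
structure Ent (V : Type*) where
  v : V
  S : List V
  E : ℝ

section defs

variable (G : SimpleGraph V) (ang : V → V → V → ℝ)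

def Fan (x : V) (d : Ent V) (y : V) : Prop :=
  Ch G (x :: (d.S ++ [y])) ∧ (∀ u ∈ x :: (d.S ++ [y]), G.Adj d.v u) ∧
    plen (ang d.v) (x :: (d.S ++ [y])) = d.E

def hd (D : List (Ent V)) (y : V) : V :=
  match D with
  | [] => y
  | d :: _ => d.v

def lst : V → List (Ent V) → V
  | x, [] => x
  | _, d :: D => lst d.v D

def ok : V → List (Ent V) → V → Prop
  | _, [], _ => True
  | x, d :: D, y => Fan G ang x d (hd D y) ∧ ok d.v D y

def okc : List (Ent V) → Prop
  | [] => True
  | d :: D => ok G ang (lst d.v D) (d :: D) d.v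

noncomputable def dsum (D : List (Ent V)) : ℝ := (D.map (fun d => π - d.E)).sum

def sub (M : List (Ent V × Bool)) : List V :=
  M.flatMap (fun p => if p.2 then p.1.S else [p.1.v])

def cost (M : List (Ent V × Bool)) : ℕ :=
  (M.map (fun p => if p.2 then p.1.S.length + 1 else 0)).sum

def Indep (M : List (Ent V × Bool)) : Prop :=
  M.Pairwise (fun p q => p.2 = true → q.2 = true → ¬ G.Adj p.1.v q.1.v)

def Marks (D : List (Ent V)) (n : ℕ) : Prop :=
  ∀ M : List (Ent V × Bool), M.map Prod.fst = D → Indep G M →
    ∃ m, m + cost M ≤ n ∧ Cyc G (sub M) m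

structure Good (D : List (Ent V)) (W : List V) (n : ℕ) : Prop where
  map : D.map Ent.v = W
  ok : okc G ang D
  sum : 2 * π ≤ dsum D
  marks : Marks G D n

structure Unsplit (W : List V) (n : ℕ) : Prop where
  cyc : Cyc G W n
  min : ∀ m, Cyc G W m → n ≤ m
  ns : ∀ a t, W = a :: t → ∀ X s M Y, a :: (t ++ [a]) = X ++ s :: (M ++ s :: Y) →
    (X ≠ [] ∨ Y ≠ []) → ∀ n1 n2, Cl G (s :: (M ++ [s])) n1 → Cl G (X ++ s :: Y) n2 →
      n < n1 + n2

end defs

variable {G : SimpleGraph V} {ang : V → V → V → ℝ}

@[simp] theorem hd_nil (y : V) : hd ([] : List (Ent V)) y = y := rfl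
@[simp] theorem hd_cons (d : Ent V) (D : List (Ent V)) (y : V) : hd (d :: D) y = d.v := rfl
@[simp] theorem lst_nil (y : V) : lst y ([] : List (Ent V)) = y := rfl
@[simp] theorem lst_cons (d : Ent V) (D : List (Ent V)) (y : V) :
    lst y (d :: D) = lst d.v D := rfl

theorem lst_append : ∀ (A B : List (Ent V)) (x : V), lst x (A ++ B) = lst (lst x A) B := by
  intro A
  induction A with
  | nil => intro B x; rfl
  | cons d A ih => intro B x; simp [ih]

theorem hd_append (A B : List (Ent V)) (y : V) : hd (A ++ B) y = hd A (hd B y) := by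
  cases A <;> rfl

theorem ok_append : ∀ (A B : List (Ent V)) (x y : V),
    ok G ang x (A ++ B) y ↔ ok G ang x A (hd B y) ∧ ok G ang (lst x A) B y := by
  intro A
  induction A with
  | nil => intro B x y; simp [ok]
  | cons d A ih =>
    intro B x y
    simp only [List.cons_append, ok, lst_cons, ih, hd_append]
    tauto

@[simp] theorem sub_nil : sub ([] : List (Ent V × Bool)) = [] := rfl
@[simp] theorem sub_cons_true (d : Ent V) (M : List (Ent V × Bool)) :
    sub ((d, true) :: M) = d.S ++ sub M := by simp [sub]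
@[simp] theorem sub_cons_false (d : Ent V) (M : List (Ent V × Bool)) :
    sub ((d, false) :: M) = d.v :: sub M := by simp [sub]
@[simp] theorem sub_append (M N : List (Ent V × Bool)) : sub (M ++ N) = sub M ++ sub N := by
  simp [sub]
@[simp] theorem cost_nil : cost ([] : List (Ent V × Bool)) = 0 := rfl
@[simp] theorem cost_cons_true (d : Ent V) (M : List (Ent V × Bool)) :
    cost ((d, true) :: M) = d.S.length + 1 + cost M := by simp [cost]
@[simp] theorem cost_cons_false (d : Ent V) (M : List (Ent V × Bool)) :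
    cost ((d, false) :: M) = cost M := by simp [cost]
@[simp] theorem cost_append (M N : List (Ent V × Bool)) : cost (M ++ N) = cost M + cost N := by
  simp [cost]
@[simp] theorem dsum_nil : dsum ([] : List (Ent V)) = 0 := rfl
@[simp] theorem dsum_cons (d : Ent V) (D : List (Ent V)) :
    dsum (d :: D) = (π - d.E) + dsum D := by simp [dsum]
@[simp] theorem dsum_append (C D : List (Ent V)) : dsum (C ++ D) = dsum C + dsum D := by
  simp [dsum]

theorem map_fst_cons {M : List (Ent V × Bool)} {d : Ent V} {D : List (Ent V)}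
    (h : M.map Prod.fst = d :: D) : ∃ b N, M = (d, b) :: N ∧ N.map Prod.fst = D := by
  cases M with
  | nil => simp at h
  | cons p N =>
    simp only [List.map_cons, List.cons.injEq] at h
    exact ⟨p.2, N, by rw [← h.1], h.2⟩

theorem map_fst_append {M : List (Ent V × Bool)} {C D : List (Ent V)}
    (h : M.map Prod.fst = C ++ D) :
    ∃ M1 M2, M = M1 ++ M2 ∧ M1.map Prod.fst = C ∧ M2.map Prod.fst = D := by
  obtain ⟨M1, M2, h1, h2, h3⟩ := List.map_eq_append_iff.1 h
  exact ⟨M1, M2, h1, h2, h3⟩

/-- all corners unmarked -/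
def um (D : List (Ent V)) : List (Ent V × Bool) := D.map (fun d => (d, false))

@[simp] theorem map_um (D : List (Ent V)) : (um D).map Prod.fst = D := by
  simp [um, Function.comp_def]

@[simp] theorem cost_um (D : List (Ent V)) : cost (um D) = 0 := by
  simp [um, cost, Function.comp_def]

@[simp] theorem sub_um (D : List (Ent V)) : sub (um D) = D.map Ent.v := by
  induction D with
  | nil => rfl
  | cons d D ih =>
    have : um (d :: D) = (d, false) :: um D := rfl
    rw [this, sub_cons_false, ih]; rfl

theorem mem_um {D : List (Ent V)} {p : Ent V × Bool} (h : p ∈ um D) : p.2 = false := by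
  simp only [um, List.mem_map] at h
  obtain ⟨d, _, rfl⟩ := h
  rfl

theorem indep_um (D : List (Ent V)) : Indep G (um D) := by
  unfold Indep
  apply List.Pairwise.imp_of_mem (R := fun _ _ => True)
  · intro p q hp hq _ h
    rw [mem_um hp] at h; simp at h
  · exact List.pairwise_of_forall (by simp)

/-- a single marked corner -/
theorem indep_single {A B : List (Ent V)} {d : Ent V} :
    Indep G (um A ++ (d, true) :: um B) := by
  unfold Indep
  rw [List.pairwise_append]
  refine ⟨indep_um A, ?_, ?_⟩
  · rw [List.pairwise_cons]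
    exact ⟨fun p hp _ h => by rw [mem_um hp] at h; simp at h, indep_um B⟩
  · intro p hp q _ h
    rw [mem_um hp] at h; simp at h

/-- replacing a path in a closed walk by another one -/
theorem Cl.replace {l1 l2 P Q : List V} {x y : V} {n m : ℕ}
    (h : Cl G (l1 ++ x :: (P ++ y :: l2)) n) (h' : Cl G (x :: (Q ++ y :: (P.reverse ++ [x]))) m) :
    Cl G (l1 ++ x :: (Q ++ y :: l2)) (n + m) := by
  have h1 : Cl G (l1 ++ x :: ((Q ++ y :: (P.reverse ++ [x])) ++ (P ++ y :: l2))) (n + m) :=
    h.insert h'
  have h2 : Cl G ((l1 ++ x :: Q) ++ y :: (P.reverse ++ x :: (P.reverse.reverse ++ y :: l2)))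
      (n + m) := h1.congr (by simp)
  exact (Cl.cancel P.reverse h2).congr (by simp)

theorem Cyc.toCl' {a : V} {t : List V} {n : ℕ} (h : Cyc G (a :: t) n) :
    Cl G (a :: (t ++ [a])) n := h

/-- substituting an edge by a path around a closed walk -/
theorem subst_edge {l1 l2 R : List V} {w z u : V} {a b : ℕ} (h : Cl G (l1 ++ w :: z :: l2) a)
    (hR : Cl G (z :: (u :: R ++ [z])) b) (hwu : G.Adj w u) (hwz : G.Adj w z) (hzu : G.Adj z u) :
    Cl G (l1 ++ w :: u :: (R ++ z :: l2)) (a + b + 1) := by
  have h1 : Cl G (l1 ++ w :: u :: z :: l2) (a + 1) := h.untri hwz hwu hzu.symm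
  have h2 : Cl G (u :: (R ++ z :: [u])) b := by
    have h3 : Cl G (z :: ([] ++ u :: (R ++ [z]))) b := hR.congr (by simp)
    exact h3.rotate.congr (by simp)
  have h4 : Cl G ((l1 ++ [w]) ++ u :: ((R ++ z :: [u]) ++ z :: l2)) (a + 1 + b) := by
    have h5 : Cl G ((l1 ++ [w]) ++ u :: (z :: l2)) (a + 1) := h1.congr (by simp)
    exact h5.insert h2
  have h6 : Cl G ((l1 ++ w :: u :: R) ++ z :: u :: z :: l2) (a + 1 + b) := h4.congr (by simp)
  exact (h6.unspur.congr (by simp)).mono (by omega)

end Pool.Agent.H351
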