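import Pool.Agent.H351.FanB2

namespace Pool.Agent.H351

open scoped BigOperators Real

variable {V : Type*} {G : SimpleGraph V} {ang : V → V → V → ℝ}

theorem Cl.back {a b : V} {p q : List V} {m n : ℕ} (h : G.Adj a b) (hp : Cl G (b :: p) m)
    (hq : Cl G (a :: q) n) : Cl G (a :: b :: (p ++ a :: q)) (m + n) := by
  obtain ⟨k, hk, hp⟩ := hp
  obtain ⟨k', hk', hq⟩ := hq
  exact ⟨k + k', by omega, NH.back h hp hq⟩

/-- independence only depends on vertices and marks -/
theorem indep_iff {M : List (Ent V × Bool)} : Indep G M ↔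
    (M.map (fun p => (p.1.v, p.2))).Pairwise
      (fun p q => p.2 = true → q.2 = true → ¬ G.Adj p.1 q.1) := by
  rw [List.pairwise_map]
  exact Iff.rfl

theorem indep_sym : ∀ {x y : V × Bool},
    (x.2 = true → y.2 = true → ¬ G.Adj x.1 y.1) →
    (y.2 = true → x.2 = true → ¬ G.Adj y.1 x.1) := by
  intro x y h h1 h2
  exact fun h3 => (h h2 h1) h3.symm

theorem Good.mono {D : List (Ent V)} {W : List V} {n n' : ℕ} (h : Good G ang D W n)
    (hn : n ≤ n') : Good G ang D W n' := by
  obtain ⟨h1, h2, h3, h4⟩ := h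
  refine ⟨h1, h2, h3, fun M hM hI => ?_⟩
  obtain ⟨m, hm, hc⟩ := h4 M hM hI
  exact ⟨m, by omega, hc⟩

theorem Cyc.conc {a : V} {p q : List V} {m n : ℕ} (h : Cyc G (a :: p) m)
    (h' : Cyc G (a :: q) n) : Cyc G (a :: (p ++ a :: q)) (m + n) := by
  have := h.toCl'.concat h'.toCl'
  exact Cyc.ofCl (this.congr (by simp))

theorem Cyc.spur {a b : V} (h : G.Adj a b) : Cyc G [a, b] 0 := Cl.spur h 0

/-- a fan consisting of one triangle -/
theorem Fan.one {x s y : V} (hsx : G.Adj s x) (hsy : G.Adj s y) (hxy : G.Adj x y) :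
    Fan G ang x ⟨s, [], ang s x y⟩ y := by
  refine ⟨by simpa using hxy, ?_, by simp⟩
  intro u hu
  simp at hu
  rcases hu with rfl | rfl
  · exact hsx
  · exact hsy

theorem good_nn (hA : AngSys G ang) {w0 z w1 : V} {R1 R2 : List V} {n1 n2 : ℕ}
    (h01 : G.Adj w0 w1) (h0z : G.Adj w0 z) (hz1 : G.Adj z w1) {D1 D2 : List (Ent V)}
    (hg1 : Good G ang D1 (w0 :: z :: R2) n1) (hg2 : Good G ang D2 (z :: w1 :: R1) n2) :
    ∃ D, Good G ang D (w0 :: w1 :: (R1 ++ z :: R2)) (n1 + n2 + 1) := by
  obtain ⟨hmap, hok, hsum, hmarks⟩ := hg1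
  obtain ⟨kmap, kok, ksum, kmarks⟩ := hg2
  obtain ⟨e0, D1', rfl, he0, hmap1⟩ := map_v_cons hmap
  obtain ⟨ez, DR2, rfl, hez, hmap2⟩ := map_v_cons hmap1
  obtain ⟨fz, D2', rfl, hfz, kmap1⟩ := map_v_cons kmap
  obtain ⟨f1, DR1, rfl, hf1, kmap2⟩ := map_v_cons kmap1
  clear hmap hmap1 kmap kmap1
  simp only [okc, ok, hd_cons, lst_cons] at hok kok
  obtain ⟨u1, u2, u3⟩ := hok
  obtain ⟨v1, v2, v3⟩ := kok
  rw [he0] at u2 u3
  rw [hez] at u1 u3
  rw [hf1] at v1 v3
  rw [hfz] at v2 v3
  refine ⟨⟨w0, e0.S ++ [z], e0.E + ang w0 z w1⟩ :: ⟨w1, z :: f1.S, ang w1 w0 z + f1.E⟩ ::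
    (DR1 ++ ⟨z, fz.S ++ w1 :: w0 :: ez.S, fz.E + ang z w1 w0 + ez.E⟩ :: DR2), ⟨?_, ?_, ?_, ?_⟩⟩
  · simp [kmap2, hmap2]
  · simp only [okc, ok, hd_cons, lst_cons, lst_append, hd_append, ok_append]
    refine ⟨?_, ?_, v3, ?_, u3⟩
    · have := u1.snoc hz1 (by rw [he0]; exact h01)
      rw [he0] at this
      exact this
    · have := v2.cons h0z (by rw [hf1]; exact h01.symm)
      rw [hf1] at this
      exact this
    · have := v1.join u2 (by rw [hez, hfz]) h01.symm
      rw [hfz] at this
      exact this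
  · simp only [dsum_cons, dsum_append] at hsum ksum ⊢
    have h4 := hA.sum w0 z w1 h0z hz1 h01
    have e2 : ang z w0 w1 = ang z w1 w0 := hA.symm _ _ _
    linarith
  · intro M hM hI
    obtain ⟨b0, M1, rfl, hM1⟩ := map_fst_cons hM
    obtain ⟨b1, M2, rfl, hM2⟩ := map_fst_cons hM1
    obtain ⟨MA, MB, rfl, hMA, hMB⟩ := map_fst_append hM2
    obtain ⟨bz, MC, rfl, hMC⟩ := map_fst_cons hMB
    clear hM hM1 hM2 hMB
    rw [indep_iff] at hI
    simp only [List.map_cons, List.map_append] at hI
    have hI1 : Indep G ((e0, b0) :: (ez, bz) :: MC) := by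
      rw [indep_iff]
      simp only [List.map_cons, he0, hez]
      refine hI.sublist ?_
      refine List.Sublist.cons_cons _ (List.Sublist.cons _ ?_)
      exact List.sublist_append_right _ _
    have hI2 : Indep G ((fz, bz) :: (f1, b1) :: MA) := by
      rw [indep_iff]
      simp only [List.map_cons, hfz, hf1]
      have h5 : List.Pairwise (fun p q : V × Bool => p.2 = true → q.2 = true →
          ¬ G.Adj p.1 q.1)
          ((w1, b1) :: (MA.map (fun p => (p.1.v, p.2)) ++ [(z, bz)])) := by
        refine hI.sublist ?_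
        refine List.Sublist.cons _ (List.Sublist.cons_cons _ ?_)
        refine List.Sublist.append (List.Sublist.refl _) ?_
        exact List.Sublist.cons_cons _ (List.nil_sublist _)
      refine h5.perm ?_ (fun h => indep_sym h)
      have := @List.perm_append_comm _ ((w1, b1) :: MA.map (fun p => (p.1.v, p.2))) [(z, bz)]
      simpa using this
    obtain ⟨m1, hm1, hc1⟩ := hmarks _ (by simp [hMC]) hI1
    obtain ⟨m2, hm2, hc2⟩ := kmarks _ (by simp [hMA]) hI2
    have c01 : b0 = true → b1 = true → False := fun h h' => by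
      simp only [List.pairwise_cons, List.mem_cons, forall_eq_or_imp] at hI
      exact (hI.1.1 h h') h01
    have c0z : b0 = true → bz = true → False := fun h h' => by
      simp only [List.pairwise_cons, List.mem_cons, List.mem_append] at hI
      exact (hI.1 (z, bz) (Or.inr (Or.inr (Or.inl rfl))) h h') h0z
    have c1z : b1 = true → bz = true → False := fun h h' => by
      simp only [List.pairwise_cons, List.mem_cons, List.mem_append] at hI
      exact (hI.2.1 (z, bz) (Or.inr (Or.inl rfl)) h h') hz1.symm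
    cases b0 <;> cases b1 <;> cases bz
    · -- FFF
      simp only [cost_cons_false, sub_cons_false, he0, hez, hf1, hfz, cost_append, sub_append]
        at hm1 hc1 hm2 hc2 ⊢
      refine ⟨m1 + m2 + 1, by omega, ?_⟩
      have h6 : Cl G ([] ++ w0 :: z :: (sub MC ++ [w0])) m1 := hc1.toCl'.congr (by simp)
      have h7 : Cl G (z :: (w1 :: sub MA ++ [z])) m2 := hc2.toCl'
      exact Cyc.ofCl ((subst_edge h6 h7 h01 h0z hz1).congr (by simp))
    · -- FFT
      simp only [cost_cons_false, sub_cons_false, cost_cons_true, sub_cons_true, he0, hf1,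
        cost_append, sub_append] at hm1 hc1 hm2 hc2 ⊢
      refine ⟨m1 + m2, by simp; omega, ?_⟩
      have h6 : Cl G (w0 :: (ez.S ++ sub MC ++ [w0])) m1 := hc1.toCl'.congr (by simp)
      have h7 : Cyc G (w1 :: (sub MA ++ fz.S)) m2 := by
        have := hc2.rot
        exact this.congr (by simp)
      have h8 := Cl.back h01 h7.toCl' h6
      exact Cyc.ofCl ((h8.mono (by omega)).congr (by simp))
    · -- FTF
      simp only [cost_cons_false, sub_cons_false, cost_cons_true, sub_cons_true, he0, hez, hfz,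
        cost_append, sub_append] at hm1 hc1 hm2 hc2 ⊢
      refine ⟨m1 + m2, by simp; omega, ?_⟩
      have h6 : Cyc G (z :: (sub MC ++ [w0])) m1 := by
        have := Cyc.rot (X := [w0]) (Y := z :: sub MC) hc1
        exact this.congr (by simp)
      have h7 := hc2.conc h6
      have h8 : Cyc G ((z :: (f1.S ++ sub MA ++ z :: sub MC)) ++ [w0]) (m2 + m1) :=
        h7.congr (by simp)
      exact (h8.rot.mono (by omega)).congr (by simp)
    · exact absurd (c1z rfl rfl) id
    · -- TFF
      simp only [cost_cons_false, sub_cons_false, cost_cons_true, sub_cons_true, hez, hfz, hf1,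
        cost_append, sub_append] at hm1 hc1 hm2 hc2 ⊢
      refine ⟨m1 + m2, by simp; omega, ?_⟩
      have h6 : Cyc G (z :: (sub MC ++ e0.S)) m1 := by
        have := Cyc.rot (X := e0.S) (Y := z :: sub MC) hc1
        exact this.congr (by simp)
      have h7 := hc2.conc h6
      have h8 : Cyc G ((z :: w1 :: (sub MA ++ z :: sub MC)) ++ e0.S) (m2 + m1) :=
        h7.congr (by simp)
      exact (h8.rot.mono (by omega)).congr (by simp)
    · exact absurd (c0z rfl rfl) id
    · exact absurd (c01 rfl rfl) id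
    · exact absurd (c01 rfl rfl) id

theorem good_en (hA : AngSys G ang) {w0 z w1 : V} {R2 : List V} {n1 : ℕ}
    (h01 : G.Adj w0 w1) (h0z : G.Adj w0 z) (hz1 : G.Adj z w1) {D1 : List (Ent V)}
    (hg1 : Good G ang D1 (w0 :: z :: R2) n1) :
    ∃ D, Good G ang D (w0 :: w1 :: z :: R2) (n1 + 1) := by
  obtain ⟨hmap, hok, hsum, hmarks⟩ := hg1
  obtain ⟨e0, D1', rfl, he0, hmap1⟩ := map_v_cons hmap
  obtain ⟨ez, DR2, rfl, hez, hmap2⟩ := map_v_cons hmap1
  clear hmap hmap1
  simp only [okc, ok, hd_cons, lst_cons] at hok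
  obtain ⟨u1, u2, u3⟩ := hok
  rw [he0] at u2 u3
  rw [hez] at u1 u3
  refine ⟨⟨w0, e0.S ++ [z], e0.E + ang w0 z w1⟩ :: ⟨w1, [], ang w1 w0 z⟩ ::
    ⟨z, w0 :: ez.S, ang z w1 w0 + ez.E⟩ :: DR2, ⟨?_, ?_, ?_, ?_⟩⟩
  · simp [hmap2]
  · simp only [okc, ok, hd_cons, lst_cons]
    refine ⟨?_, Fan.one h01.symm hz1.symm h0z, ?_, u3⟩
    · have := u1.snoc hz1 (by rw [he0]; exact h01)
      rw [he0] at this
      exact this
    · have := u2.cons h01.symm (by rw [hez]; exact hz1)
      rw [hez] at this
      exact this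
  · simp only [dsum_cons] at hsum ⊢
    have h4 := hA.sum w0 z w1 h0z hz1 h01
    have e2 : ang z w0 w1 = ang z w1 w0 := hA.symm _ _ _
    linarith
  · intro M hM hI
    obtain ⟨b0, M1, rfl, hM1⟩ := map_fst_cons hM
    obtain ⟨b1, M2, rfl, hM2⟩ := map_fst_cons hM1
    obtain ⟨bz, MC, rfl, hMC⟩ := map_fst_cons hM2
    clear hM hM1 hM2
    rw [indep_iff] at hI
    simp only [List.map_cons] at hI
    have hI1 : Indep G ((e0, b0) :: (ez, bz) :: MC) := by
      rw [indep_iff]
      simp only [List.map_cons, he0, hez]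
      refine hI.sublist ?_
      exact List.Sublist.cons_cons _ (List.Sublist.cons _ (List.Sublist.refl _))
    obtain ⟨m1, hm1, hc1⟩ := hmarks _ (by simp [hMC]) hI1
    have c01 : b0 = true → b1 = true → False := fun h h' => by
      simp only [List.pairwise_cons, List.mem_cons, forall_eq_or_imp] at hI
      exact (hI.1.1 h h') h01
    have c0z : b0 = true → bz = true → False := fun h h' => by
      simp only [List.pairwise_cons, List.mem_cons, forall_eq_or_imp] at hI
      exact (hI.1.2.1 h h') h0z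
    have c1z : b1 = true → bz = true → False := fun h h' => by
      simp only [List.pairwise_cons, List.mem_cons, forall_eq_or_imp] at hI
      exact (hI.2.1.1 h h') hz1.symm
    cases b0 <;> cases b1 <;> cases bz
    · simp only [cost_cons_false, sub_cons_false, he0, hez] at hm1 hc1 ⊢
      refine ⟨m1 + 1, by omega, ?_⟩
      have h6 : Cl G ([] ++ w0 :: z :: (sub MC ++ [w0])) m1 := hc1.toCl'.congr (by simp)
      exact Cyc.ofCl ((h6.untri h0z h01 hz1.symm).congr (by simp))
    · -- z marked
      simp only [cost_cons_false, sub_cons_false, cost_cons_true, sub_cons_true, he0]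
        at hm1 hc1 ⊢
      refine ⟨m1, by simp; omega, ?_⟩
      have h7 := (Cyc.spur h01).conc hc1
      exact (h7.mono (by omega)).congr (by simp)
    · simp only [cost_cons_false, sub_cons_false, cost_cons_true, sub_cons_true, he0, hez]
        at hm1 hc1 ⊢
      exact ⟨m1, by simp; omega, hc1.congr (by simp)⟩
    · exact absurd (c1z rfl rfl) id
    · simp only [cost_cons_false, sub_cons_false, cost_cons_true, sub_cons_true, hez]
        at hm1 hc1 ⊢
      refine ⟨m1, by simp; omega, ?_⟩
      have h6 : Cyc G (z :: (sub MC ++ e0.S)) m1 := by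
        have := Cyc.rot (X := e0.S) (Y := z :: sub MC) hc1
        exact this.congr (by simp)
      have h7 := (Cyc.spur hz1).conc h6
      have h8 : Cyc G ((z :: w1 :: (z :: sub MC)) ++ e0.S) (0 + m1) := h7.congr (by simp)
      exact (h8.rot.mono (by omega)).congr (by simp)
    · exact absurd (c0z rfl rfl) id
    · exact absurd (c01 rfl rfl) id
    · exact absurd (c01 rfl rfl) id

theorem good_ne (hA : AngSys G ang) {w0 z w1 : V} {R1 : List V} {n2 : ℕ}
    (h01 : G.Adj w0 w1) (h0z : G.Adj w0 z) (hz1 : G.Adj z w1) {D2 : List (Ent V)}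
    (hg2 : Good G ang D2 (z :: w1 :: R1) n2) :
    ∃ D, Good G ang D (w0 :: w1 :: (R1 ++ [z])) (n2 + 1) := by
  obtain ⟨kmap, kok, ksum, kmarks⟩ := hg2
  obtain ⟨fz, D2', rfl, hfz, kmap1⟩ := map_v_cons kmap
  obtain ⟨f1, DR1, rfl, hf1, kmap2⟩ := map_v_cons kmap1
  clear kmap kmap1
  simp only [okc, ok, hd_cons, lst_cons] at kok
  obtain ⟨v1, v2, v3⟩ := kok
  rw [hf1] at v1 v3
  rw [hfz] at v2 v3
  refine ⟨⟨w0, [], ang w0 z w1⟩ :: ⟨w1, z :: f1.S, ang w1 w0 z + f1.E⟩ ::
    (DR1 ++ [⟨z, fz.S ++ [w1], fz.E + ang z w1 w0⟩]), ⟨?_, ?_, ?_, ?_⟩⟩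
  · simp [kmap2]
  · simp only [okc, ok, hd_cons, hd_nil, lst_cons, lst_nil, lst_append, hd_append, ok_append]
    refine ⟨Fan.one h0z h01 hz1, ?_, v3, ?_, trivial⟩
    · have := v2.cons h0z (by rw [hf1]; exact h01.symm)
      rw [hf1] at this
      exact this
    · have := v1.snoc h01.symm (by rw [hfz]; exact h0z.symm)
      rw [hfz] at this
      exact this
  · simp only [dsum_cons, dsum_append, dsum_nil] at ksum ⊢
    have h4 := hA.sum w0 z w1 h0z hz1 h01
    have e2 : ang z w0 w1 = ang z w1 w0 := hA.symm _ _ _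
    linarith
  · intro M hM hI
    obtain ⟨b0, M1, rfl, hM1⟩ := map_fst_cons hM
    obtain ⟨b1, M2, rfl, hM2⟩ := map_fst_cons hM1
    obtain ⟨MA, MB, rfl, hMA, hMB⟩ := map_fst_append hM2
    obtain ⟨bz, MC, rfl, hMC⟩ := map_fst_cons hMB
    have hMC' : MC = [] := by simpa using hMC
    subst hMC'
    clear hM hM1 hM2 hMB hMC
    rw [indep_iff] at hI
    simp only [List.map_cons, List.map_append, List.map_nil] at hI
    have hI2 : Indep G ((fz, bz) :: (f1, b1) :: MA) := by
      rw [indep_iff]
      simp only [List.map_cons, hfz, hf1]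
      have h5 : List.Pairwise (fun p q : V × Bool => p.2 = true → q.2 = true →
          ¬ G.Adj p.1 q.1)
          ((w1, b1) :: (MA.map (fun p => (p.1.v, p.2)) ++ [(z, bz)])) := by
        refine hI.sublist ?_
        exact List.Sublist.cons _ (List.Sublist.refl _)
      refine h5.perm ?_ (fun h => indep_sym h)
      have := @List.perm_append_comm _ ((w1, b1) :: MA.map (fun p => (p.1.v, p.2))) [(z, bz)]
      simpa using this
    obtain ⟨m2, hm2, hc2⟩ := kmarks _ (by simp [hMA]) hI2
    have c01 : b0 = true → b1 = true → False := fun h h' => by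
      simp only [List.pairwise_cons, List.mem_cons, forall_eq_or_imp] at hI
      exact (hI.1.1 h h') h01
    have c0z : b0 = true → bz = true → False := fun h h' => by
      simp only [List.pairwise_cons, List.mem_cons, List.mem_append] at hI
      exact (hI.1 (z, bz) (Or.inr (Or.inr (Or.inl rfl))) h h') h0z
    have c1z : b1 = true → bz = true → False := fun h h' => by
      simp only [List.pairwise_cons, List.mem_cons, List.mem_append] at hI
      exact (hI.2.1 (z, bz) (Or.inr (Or.inl rfl)) h h') hz1.symm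
    cases b0 <;> cases b1 <;> cases bz
    · -- FFF
      simp only [cost_cons_false, sub_cons_false, hf1, hfz, cost_append, sub_append, cost_nil,
        sub_nil] at hm2 hc2 ⊢
      refine ⟨m2 + 1, by omega, ?_⟩
      have h6 : Cl G ([] ++ z :: w1 :: (sub MA ++ [z])) m2 := hc2.toCl'.congr (by simp)
      have h7 := h6.untri hz1 h0z.symm h01
      have h8 : Cyc G ([z] ++ (w0 :: w1 :: sub MA)) (m2 + 1) := Cyc.ofCl (h7.congr (by simp))
      exact h8.rot.congr (by simp)
    · -- FFT
      simp only [cost_cons_false, sub_cons_false, cost_cons_true, sub_cons_true, hf1,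
        cost_append, sub_append, cost_nil, sub_nil] at hm2 hc2 ⊢
      refine ⟨m2, by simp; omega, ?_⟩
      have h7 : Cyc G (w1 :: (sub MA ++ fz.S)) m2 := by
        have := hc2.rot
        exact this.congr (by simp)
      have h8 := Cl.back h01 h7.toCl' (Cl.triv w0 0)
      exact Cyc.ofCl ((h8.mono (by omega)).congr (by simp))
    · -- FTF
      simp only [cost_cons_false, sub_cons_false, cost_cons_true, sub_cons_true, hfz,
        cost_append, sub_append, cost_nil, sub_nil] at hm2 hc2 ⊢
      refine ⟨m2, by simp; omega, ?_⟩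
      have h8 := Cl.back h0z hc2.toCl' (Cl.triv w0 0)
      exact Cyc.ofCl ((h8.mono (by omega)).congr (by simp))
    · exact absurd (c1z rfl rfl) id
    · -- TFF
      simp only [cost_cons_false, sub_cons_false, cost_cons_true, sub_cons_true, hfz, hf1,
        cost_append, sub_append, cost_nil, sub_nil] at hm2 hc2 ⊢
      refine ⟨m2, by simp; omega, ?_⟩
      have := Cyc.rot (X := [z]) (Y := w1 :: sub MA) hc2
      exact this.congr (by simp)
    · exact absurd (c0z rfl rfl) id
    · exact absurd (c01 rfl rfl) id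
    · exact absurd (c01 rfl rfl) id

theorem good_ee (hA : AngSys G ang) {w0 z w1 : V}
    (h01 : G.Adj w0 w1) (h0z : G.Adj w0 z) (hz1 : G.Adj z w1) :
    ∃ D, Good G ang D [w0, w1, z] 1 := by
  refine ⟨[⟨w0, [], ang w0 z w1⟩, ⟨w1, [], ang w1 w0 z⟩, ⟨z, [], ang z w1 w0⟩], ⟨?_, ?_, ?_, ?_⟩⟩
  · simp
  · simp only [okc, ok, hd_cons, hd_nil, lst_cons, lst_nil]
    exact ⟨Fan.one h0z h01 hz1, Fan.one h01.symm hz1.symm h0z, Fan.one hz1 h0z.symm h01.symm,
      trivial⟩
  · simp only [dsum_cons, dsum_nil]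
    have h4 := hA.sum w0 z w1 h0z hz1 h01
    have e2 : ang z w0 w1 = ang z w1 w0 := hA.symm _ _ _
    linarith
  · intro M hM hI
    obtain ⟨b0, M1, rfl, hM1⟩ := map_fst_cons hM
    obtain ⟨b1, M2, rfl, hM2⟩ := map_fst_cons hM1
    obtain ⟨bz, MC, rfl, hMC⟩ := map_fst_cons hM2
    have hMC' : MC = [] := by simpa using hMC
    subst hMC'
    rw [indep_iff] at hI
    simp only [List.map_cons] at hI
    have c01 : b0 = true → b1 = true → False := fun h h' => by
      simp only [List.pairwise_cons, List.mem_cons, forall_eq_or_imp] at hI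
      exact (hI.1.1 h h') h01
    have c0z : b0 = true → bz = true → False := fun h h' => by
      simp only [List.pairwise_cons, List.mem_cons, forall_eq_or_imp] at hI
      exact (hI.1.2.1 h h') h0z
    have c1z : b1 = true → bz = true → False := fun h h' => by
      simp only [List.pairwise_cons, List.mem_cons, forall_eq_or_imp] at hI
      exact (hI.2.1.1 h h') hz1.symm
    cases b0 <;> cases b1 <;> cases bz
    · have h : Cyc G [w0, w1, z] 1 := Cyc.ofCl (Cl.triangle h01 hz1.symm h0z)
      exact ⟨1, by simp, by simpa using h⟩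
    · exact ⟨0, by simp, by simpa using Cyc.spur h01⟩
    · exact ⟨0, by simp, by simpa using Cyc.spur h0z⟩
    · exact absurd (c1z rfl rfl) id
    · exact ⟨0, by simp, by simpa using Cyc.spur hz1.symm⟩
    · exact absurd (c0z rfl rfl) id
    · exact absurd (c01 rfl rfl) id
    · exact absurd (c01 rfl rfl) id

end Pool.Agent.H351
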