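import Pool.Agent.H351.Fan

namespace Pool.Agent.H351

open scoped BigOperators Real

variable {V : Type*} {G : SimpleGraph V} {ang : V → V → V → ℝ}

theorem map_v_cons {D : List (Ent V)} {w : V} {W : List V}
    (h : D.map Ent.v = w :: W) : ∃ d D', D = d :: D' ∧ d.v = w ∧ D'.map Ent.v = W := by
  cases D with
  | nil => simp at h
  | cons d D' =>
    simp only [List.map_cons, List.cons.injEq] at h
    exact ⟨d, D', rfl, h.1, h.2⟩

/-- extending a fan at its end -/
theorem Fan.snoc {x : V} {d : Ent V} {y z : V} (h : Fan G ang x d y) (hyz : G.Adj y z)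
    (hz : G.Adj d.v z) :
    Fan G ang x ⟨d.v, d.S ++ [y], d.E + ang d.v y z⟩ z := by
  obtain ⟨h1, h2, h3⟩ := h
  refine ⟨?_, ?_, ?_⟩
  · have : Ch G ((x :: d.S) ++ y :: [z]) := by
      rw [Ch_append]
      exact ⟨by simpa using h1, by simpa using hyz⟩
    simpa using this
  · intro u hu
    simp only [List.mem_cons, List.mem_append, List.append_assoc, List.cons_append,
      List.nil_append, List.not_mem_nil, or_false] at hu h2
    rcases hu with rfl | hu | rfl | rfl
    · exact h2 _ (Or.inl rfl)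
    · exact h2 _ (Or.inr (Or.inl hu))
    · exact h2 _ (Or.inr (Or.inr rfl))
    · exact hz
  · have e : x :: ((d.S ++ [y]) ++ [z]) = (x :: d.S) ++ y :: [z] := by simp
    show plen (ang d.v) (x :: ((d.S ++ [y]) ++ [z])) = _
    rw [e, plen_append, plen_cons2, plen_single]
    have e2 : (x :: d.S) ++ [y] = x :: (d.S ++ [y]) := by simp
    rw [e2, h3]
    ring

/-- extending a fan at its beginning -/
theorem Fan.cons {x : V} {d : Ent V} {y z : V} (h : Fan G ang x d y) (hzx : G.Adj z x)
    (hz : G.Adj d.v z) :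
    Fan G ang z ⟨d.v, x :: d.S, ang d.v z x + d.E⟩ y := by
  obtain ⟨h1, h2, h3⟩ := h
  refine ⟨?_, ?_, ?_⟩
  · simpa using ⟨hzx, h1⟩
  · intro u hu
    simp only [List.cons_append, List.mem_cons] at hu
    rcases hu with rfl | hu
    · exact hz
    · exact h2 u (by simpa using hu)
  · show plen (ang d.v) (z :: ((x :: d.S) ++ [y])) = _
    simp only [List.cons_append, plen_cons2, h3]

/-- joining two fans at the same vertex by a triangle -/
theorem Fan.join {x y p q : V} {d e : Ent V} (h : Fan G ang x d p) (h' : Fan G ang q e y)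
    (hde : e.v = d.v) (hpq : G.Adj p q) :
    Fan G ang x ⟨d.v, d.S ++ p :: q :: e.S, d.E + ang d.v p q + e.E⟩ y := by
  obtain ⟨h1, h2, h3⟩ := h
  obtain ⟨h1', h2', h3'⟩ := h'
  rw [hde] at h2' h3'
  refine ⟨?_, ?_, ?_⟩
  · have : Ch G ((x :: d.S) ++ p :: (q :: (e.S ++ [y]))) := by
      rw [Ch_append]
      exact ⟨by simpa using h1, by simpa using ⟨hpq, h1'⟩⟩
    simpa using this
  · intro u hu
    simp only [List.mem_cons, List.mem_append, List.append_assoc, List.cons_append,
      List.not_mem_nil, or_false] at hu h2 h2'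
    show G.Adj d.v u
    rcases hu with hu | hu | hu | hu | hu | hu
    · exact h2 _ (Or.inl hu)
    · exact h2 _ (Or.inr (Or.inl hu))
    · exact h2 _ (Or.inr (Or.inr hu))
    · exact h2' _ (Or.inl hu)
    · exact h2' _ (Or.inr (Or.inl hu))
    · exact h2' _ (Or.inr (Or.inr hu))
  · have e1 : x :: ((d.S ++ p :: q :: e.S) ++ [y]) = (x :: d.S) ++ p :: (q :: (e.S ++ [y])) := by
      simp
    show plen (ang d.v) (x :: ((d.S ++ p :: q :: e.S) ++ [y])) = _
    rw [e1, plen_append]
    have e2 : (x :: d.S) ++ [p] = x :: (d.S ++ [p]) := by simp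
    rw [e2, h3, plen_cons2, h3']
    ring

theorem good_b2 (hA : AngSys G ang) {w0 z w1 : V} {rest : List V} {n' : ℕ} (hrest : rest ≠ [])
    (h01 : G.Adj w0 w1) (h0z : G.Adj w0 z) (hz1 : G.Adj z w1) {D' : List (Ent V)}
    (hg : Good G ang D' (w0 :: z :: w1 :: rest) n')
    (hmin : ∀ m, Cyc G (w0 :: w1 :: rest) m → n' + 1 ≤ m) :
    ∃ D, Good G ang D (w0 :: w1 :: rest) (n' + 1) := by
  obtain ⟨hmap, hok, hsum, hmarks⟩ := hg
  obtain ⟨e0, D1, rfl, he0, hmap1⟩ := map_v_cons hmap
  obtain ⟨ez, D2, rfl, hez, hmap2⟩ := map_v_cons hmap1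
  obtain ⟨e1, DR, rfl, he1, hmap3⟩ := map_v_cons hmap2
  clear hmap hmap1 hmap2
  have hDR : DR ≠ [] := by rintro rfl; simp at hmap3; exact hrest hmap3
  obtain ⟨dr, DR', rfl⟩ : ∃ dr DR', DR = dr :: DR' := by
    cases DR with
    | nil => exact absurd rfl hDR
    | cons a b => exact ⟨a, b, rfl⟩
  simp only [okc, ok, hd_cons, lst_cons] at hok
  obtain ⟨f0, fz, f1, fr, hok⟩ := hok
  rw [hez] at f0; rw [he1] at fz; rw [he0] at fz; rw [hez] at f1
  -- the angle at z
  have hz2 : 2 * π ≤ ez.E + ang z w1 w0 := by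
    by_contra hlt
    push Not at hlt
    obtain ⟨g1, g2, g3⟩ := fz
    rw [hez] at g2 g3
    -- closed walk in the link of z
    have hC : CCh G (w0 :: (ez.S ++ [w1])) := by
      have : Ch G ((w0 :: ez.S) ++ w1 :: [w0]) := by
        rw [Ch_append]
        exact ⟨by simpa using g1, by simpa using h01.symm⟩
      simpa [CCh] using this
    have hCl : clen (ang z) (w0 :: (ez.S ++ [w1])) = ez.E + ang z w1 w0 := by
      have e1 : clen (ang z) (w0 :: (ez.S ++ [w1])) =
          plen (ang z) ((w0 :: ez.S) ++ w1 :: [w0]) := by simp [clen]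
      rw [e1, plen_append, plen_cons2, plen_single]
      have e2 : (w0 :: ez.S) ++ [w1] = w0 :: (ez.S ++ [w1]) := by simp
      rw [e2, g3]; ring
    have hfill := hA.fill (v := z) _ _ rfl hC (fun x hx => g2 x hx) (by rw [hCl]; exact hlt)
    have hfill' : Cl G (w0 :: (ez.S ++ w1 :: [w0])) ez.S.length := by
      have := hfill.toCl'
      exact (this.congr (by simp)).mono (by simp)
    have hfill2 : Cl G (w0 :: ([] ++ w1 :: (ez.S.reverse ++ [w0]))) ez.S.length :=
      hfill'.reverse.congr (by simp)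
    -- marks with z marked
    obtain ⟨m, hm, hcyc⟩ := hmarks (um [e0] ++ (ez, true) :: um (e1 :: dr :: DR'))
      (by simp) indep_single
    have hs0 : (dr :: DR').map Ent.v = rest := hmap3
    simp only [cost_append, cost_um, cost_cons_true, sub_append, sub_um, sub_cons_true] at hm hcyc
    have hs1 : (e1 :: dr :: DR').map Ent.v = w1 :: rest := by rw [List.map_cons, hs0, he1]
    have hs2 : [e0].map Ent.v = [w0] := by simp [he0]
    rw [hs1, hs2] at hcyc
    have h1 : Cl G ([] ++ w0 :: (ez.S ++ w1 :: (rest ++ [w0]))) m := hcyc.toCl'.congr (by simp)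
    have h2 := h1.replace hfill2
    have h3 : Cyc G (w0 :: w1 :: rest) (m + ez.S.length) := Cyc.ofCl (h2.congr (by simp))
    have := hmin _ h3
    omega
  refine ⟨⟨w0, e0.S ++ [z], e0.E + ang w0 z w1⟩ :: ⟨w1, z :: e1.S, ang w1 w0 z + e1.E⟩ ::
    dr :: DR', ⟨by simpa using hmap3, ?_, ?_, ?_⟩⟩
  · simp only [okc, ok, hd_cons, lst_cons]
    rw [he0] at hok fr
    rw [he1] at fr
    refine ⟨?_, ?_, fr, hok⟩
    · have := f0.snoc hz1 (by rw [he0]; exact h01)
      rw [he0] at this
      exact this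
    · have := f1.cons h0z (by rw [he1]; exact h01.symm)
      rw [he1] at this
      exact this
  · simp only [dsum_cons] at hsum ⊢
    have h4 := hA.sum w0 z w1 h0z hz1 h01
    have e2 : ang z w0 w1 = ang z w1 w0 := hA.symm _ _ _
    linarith
  · intro M hM hI
    obtain ⟨b0, M1, rfl, hM1⟩ := map_fst_cons hM
    obtain ⟨b1, M2, rfl, hM2⟩ := map_fst_cons hM1
    clear hM hM1
    have hI' : Indep G ((e0, b0) :: (ez, false) :: (e1, b1) :: M2) := by
      simp only [Indep, List.pairwise_cons, List.mem_cons, forall_eq_or_imp] at hI ⊢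
      refine ⟨⟨fun _ h => by simp at h, ?_, ?_⟩, ⟨fun h => by simp at h, fun _ _ h => by simp at h⟩,
        ?_, hI.2.2⟩
      · rw [he0, he1]; exact hI.1.1
      · rw [he0]; exact hI.1.2
      · rw [he1]; exact hI.2.1
    obtain ⟨m, hm, hcyc⟩ := hmarks _ (by simp [hM2]) hI'
    have hadj : b0 = true → b1 = true → False := by
      intro h h'
      simp only [Indep, List.pairwise_cons, List.mem_cons, forall_eq_or_imp] at hI
      exact (hI.1.1 h h') h01
    cases b0 <;> cases b1
    · simp only [cost_cons_false, sub_cons_false, he0, hez, he1] at hm hcyc ⊢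
      refine ⟨m + 1, by omega, ?_⟩
      have h1 : Cl G ([] ++ w0 :: z :: w1 :: (sub M2 ++ [w0])) m := hcyc.toCl'.congr (by simp)
      exact Cyc.ofCl ((h1.shortcut h01 h0z hz1).congr (by simp))
    · simp only [cost_cons_false, sub_cons_false, cost_cons_true, sub_cons_true, he0, hez]
        at hm hcyc ⊢
      refine ⟨m, by simp; omega, hcyc.congr (by simp)⟩
    · simp only [cost_cons_false, sub_cons_false, cost_cons_true, sub_cons_true, he1, hez]
        at hm hcyc ⊢
      refine ⟨m, by simp; omega, hcyc.congr (by simp)⟩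
    · exact absurd (hadj rfl rfl) id

end Pool.Agent.H351
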