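import Pool.Agent.H351.FanB1

namespace Pool.Agent.H351

open scoped BigOperators Real

variable {V : Type*} {G : SimpleGraph V} {ang : V → V → V → ℝ}

theorem Unsplit.ns' {w : V} {t : List V} {n : ℕ} (h : Unsplit G (w :: t) n) {X : List V} {s : V}
    {M Y : List V} (e : w :: (t ++ [w]) = X ++ s :: (M ++ s :: Y)) (hXY : X ≠ [] ∨ Y ≠ [])
    {n1 n2 : ℕ} (h1 : Cl G (s :: (M ++ [s])) n1) (h2 : Cl G (X ++ s :: Y) n2) : n < n1 + n2 :=
  h.ns w t rfl X s M Y e hXY n1 n2 h1 h2

theorem fan_theorem (hA : AngSys G ang) : ∀ (n : ℕ) (W : List V), 3 ≤ W.length →
    Unsplit G W n → ∃ D, Good G ang D W n := by
  intro n
  induction n using Nat.strong_induction_on with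
  | _ n IH =>
    intro W hW hU
    match W, hW with
    | w0 :: w1 :: r0 :: rest', _ =>
    generalize hrest : r0 :: rest' = rest at hU ⊢
    have hne : rest ≠ [] := by rw [← hrest]; simp
    clear hrest
    obtain ⟨m, hm, hNH⟩ := hU.cyc.toCl'
    have hmn : m = n := by
      have h1 : Cyc G (w0 :: w1 :: rest) m := Cyc.ofCl (Cl.of_NH hNH)
      have := hU.min m h1
      omega
    subst hmn
    generalize hl : (w1 :: rest) ++ [w0] = l at hNH
    cases hNH with
    | nil a => simp at hl
    | @back _ b p q i j hab hp hq =>
      exfalso
      simp only [List.cons_append, List.cons.injEq] at hl
      obtain ⟨rfl, hl⟩ := hl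
      have hclp := Cl.of_NH hp
      have hclq := Cl.of_NH hq
      rcases hclq.ends with rfl | ⟨q', rfl⟩
      · -- q = []
        have hrp : rest = p := by simpa using hl
        subst hrp
        rcases hclp.ends with rfl | ⟨p', rfl⟩
        · exact hne rfl
        · have := hU.ns' (X := [w0]) (s := w1) (M := p') (Y := [w0]) (by simp) (Or.inl (by simp))
            hclp (Cl.spur hab 0)
          omega
      · have hrp : rest = p ++ w0 :: q' := by
          have : rest ++ [w0] = (p ++ w0 :: q') ++ [w0] := by rw [hl]; simp
          exact List.append_cancel_right this
        subst hrp
        have h1 : Cl G (w0 :: ((w1 :: p) ++ [w0])) (i + 0) := by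
          have := Cl.back hab hclp (Cl.triv w0 0)
          exact this.congr (by simp)
        have := hU.ns' (X := []) (s := w0) (M := w1 :: p) (Y := q' ++ [w0]) (by simp)
            (Or.inr (by simp)) h1 hclq
        omega
    | @tri _ b z l' n' hab haz hzb hNH =>
      simp only [List.cons_append, List.cons.injEq] at hl
      obtain ⟨rfl, rfl⟩ := hl
      have hW' : Cyc G (w0 :: z :: w1 :: rest) n' :=
        Cyc.ofCl ((Cl.of_NH hNH).congr (by simp))
      by_cases hsplit : ∃ R1 R2 n2 n1, rest = R1 ++ z :: R2 ∧ Cl G (z :: (w1 :: R1 ++ [z])) n2 ∧
          Cl G (w0 :: z :: (R2 ++ [w0])) n1 ∧ n1 + n2 ≤ n'
      · obtain ⟨R1, R2, n2, n1, rfl, h2, h1, hsum⟩ := hsplit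
        -- combination
        have comb : ∀ a b, Cyc G (w0 :: z :: R2) a → Cyc G (z :: w1 :: R1) b →
            n' ≤ a + b := by
          intro a b ha hb
          have h3 : Cl G ([] ++ w0 :: z :: (R2 ++ [w0])) a := ha.toCl'.congr (by simp)
          have h4 := subst_edge h3 (u := w1) (R := R1) (hb.toCl'.congr (by simp)) hab haz hzb
          have h5 : Cyc G (w0 :: w1 :: (R1 ++ z :: R2)) (a + b + 1) :=
            Cyc.ofCl (h4.congr (by simp))
          have := hU.min _ h5
          omega
        have c1 : Cyc G (w0 :: z :: R2) n1 := Cyc.ofCl (h1.congr (by simp))
        have c2 : Cyc G (z :: w1 :: R1) n2 := Cyc.ofCl (h2.congr (by simp))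
        have hn' : n1 + n2 = n' := by have := comb _ _ c1 c2; omega
        -- unsplit for the parts
        have U1 : Unsplit G (w0 :: z :: R2) n1 := by
          refine ⟨c1, fun a ha => by have := comb _ _ ha c2; omega, ?_⟩
          intro a t hat X s M Y hXY hne2 m1 m2 hm1 hm2
          simp only [List.cons.injEq] at hat
          obtain ⟨rfl, rfl⟩ := hat
          by_contra hlt
          push Not at hlt
          cases X with
          | nil =>
            simp only [List.nil_append, List.cons.injEq, List.cons_append] at hXY
            obtain ⟨rfl, hXY⟩ := hXY
            cases M with
            | nil =>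
              simp only [List.nil_append, List.cons.injEq] at hXY
              exact haz.ne hXY.1.symm
            | cons x M' =>
              simp only [List.cons_append, List.cons.injEq] at hXY
              obtain ⟨rfl, hXY⟩ := hXY
              have h5 : Cl G ([] ++ w0 :: z :: (M' ++ [w0])) m1 := hm1.congr (by simp)
              have h6 := subst_edge h5 (u := w1) (R := R1) (h2.congr (by simp)) hab haz hzb
              have := hU.ns' (X := []) (s := w0) (M := w1 :: (R1 ++ z :: M')) (Y := Y)
                (by simp [hXY]) (Or.inr (by simpa using hne2)) (h6.congr (by simp)) hm2
              omega
          | cons x X' =>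
            simp only [List.cons_append, List.cons.injEq] at hXY
            obtain ⟨rfl, hXY⟩ := hXY
            cases X' with
            | nil =>
              simp only [List.nil_append, List.cons.injEq] at hXY
              obtain ⟨rfl, hXY⟩ := hXY
              have h5 : Cl G ([] ++ w0 :: z :: Y) m2 := hm2.congr (by simp)
              have h6 := subst_edge h5 (u := w1) (R := R1) (h2.congr (by simp)) hab haz hzb
              have := hU.ns' (X := w0 :: w1 :: R1) (s := z) (M := M) (Y := Y)
                (by simp [hXY]) (Or.inl (by simp)) hm1 (h6.congr (by simp))
              omega
            | cons x' X'' =>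
              simp only [List.cons_append, List.cons.injEq] at hXY
              obtain ⟨rfl, hXY⟩ := hXY
              have h5 : Cl G ([] ++ w0 :: z :: (X'' ++ s :: Y)) m2 := hm2.congr (by simp)
              have h6 := subst_edge h5 (u := w1) (R := R1) (h2.congr (by simp)) hab haz hzb
              have := hU.ns' (X := w0 :: w1 :: (R1 ++ z :: X'')) (s := s) (M := M) (Y := Y)
                (by simp [hXY]) (Or.inl (by simp)) hm1 (h6.congr (by simp))
              omega
        have U2 : Unsplit G (z :: w1 :: R1) n2 := by
          refine ⟨c2, fun a ha => by have := comb _ _ c1 ha; omega, ?_⟩
          intro a t hat X s M Y hXY hne2 m1 m2 hm1 hm2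
          simp only [List.cons.injEq] at hat
          obtain ⟨rfl, rfl⟩ := hat
          by_contra hlt
          push Not at hlt
          have hbase : Cl G ([] ++ w0 :: z :: (R2 ++ [w0])) n1 := h1.congr (by simp)
          cases X with
          | nil =>
            simp only [List.nil_append, List.cons.injEq, List.cons_append] at hXY
            obtain ⟨rfl, hXY⟩ := hXY
            have hY : Y ≠ [] := by simpa using hne2
            cases M with
            | nil =>
              simp only [List.nil_append, List.cons.injEq] at hXY
              exact hzb.ne hXY.1.symm
            | cons x M' =>
              simp only [List.cons_append, List.cons.injEq] at hXY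
              obtain ⟨rfl, hXY⟩ := hXY
              rcases hm2.ends with rfl | ⟨Y', rfl⟩
              · exact hY rfl
              · have hR1 : R1 = M' ++ z :: Y' := by
                  have : R1 ++ [z] = (M' ++ z :: Y') ++ [z] := by rw [hXY]; simp
                  exact List.append_cancel_right this
                subst hR1
                have h6 := subst_edge hbase (u := w1) (R := M') (hm1.congr (by simp)) hab haz hzb
                have := hU.ns' (X := w0 :: w1 :: M') (s := z) (M := Y') (Y := R2 ++ [w0])
                  (by simp) (Or.inl (by simp)) hm2 (h6.congr (by simp))
                omega
          | cons x X' =>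
            simp only [List.cons_append, List.cons.injEq] at hXY
            obtain ⟨rfl, hXY⟩ := hXY
            -- hXY : w1 :: (R1 ++ [z]) = X' ++ s :: (M ++ s :: Y)
            have hclm2 : Cl G (z :: (X' ++ s :: Y)) m2 := hm2
            cases Y using List.reverseRecOn with
            | nil =>
              have hsz : s = z := by
                have := congrArg (fun l => l.getLast?) hXY
                rw [show w1 :: (R1 ++ [z]) = (w1 :: R1) ++ [z] by simp,
                  show X' ++ s :: (M ++ [s]) = (X' ++ s :: M) ++ [s] by simp] at this
                simp only [List.getLast?_append, List.getLast?_singleton] at this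
                simpa using this.symm
              subst hsz
              have hR : w1 :: R1 = X' ++ s :: M := by
                have : (w1 :: R1) ++ [s] = (X' ++ s :: M) ++ [s] := by
                  rw [List.cons_append, hXY]; simp
                exact List.append_cancel_right this
              cases X' with
              | nil =>
                simp only [List.nil_append, List.cons.injEq] at hR
                exact hzb.ne hR.1.symm
              | cons x' X'' =>
                simp only [List.cons_append, List.cons.injEq] at hR
                obtain ⟨rfl, rfl⟩ := hR
                have h6 := subst_edge hbase (u := w1) (R := X'') (hclm2.congr (by simp))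
                  hab haz hzb
                have := hU.ns' (X := w0 :: w1 :: X'') (s := s) (M := M) (Y := R2 ++ [w0])
                  (by simp) (Or.inl (by simp)) hm1 (h6.congr (by simp))
                omega
            | append_singleton Y' y _ =>
              have hyz : y = z := by
                have := congrArg (fun l => l.getLast?) hXY
                rw [show w1 :: (R1 ++ [z]) = (w1 :: R1) ++ [z] by simp,
                  show X' ++ s :: (M ++ s :: (Y' ++ [y])) = (X' ++ s :: (M ++ s :: Y')) ++ [y]
                    by simp] at this
                simp only [List.getLast?_append, List.getLast?_singleton] at this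
                simpa using this.symm
              subst hyz
              have hR : w1 :: R1 = X' ++ s :: (M ++ s :: Y') := by
                have : (w1 :: R1) ++ [y] = (X' ++ s :: (M ++ s :: Y')) ++ [y] := by
                  rw [List.cons_append, hXY]; simp
                exact List.append_cancel_right this
              cases X' with
              | nil =>
                simp only [List.nil_append, List.cons.injEq] at hR
                obtain ⟨rfl, rfl⟩ := hR
                have h6 := subst_edge hbase (u := w1) (R := Y') (hclm2.congr (by simp))
                  hab haz hzb
                have := hU.ns' (X := [w0]) (s := w1) (M := M) (Y := Y' ++ y :: (R2 ++ [w0]))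
                  (by simp) (Or.inl (by simp)) hm1 (h6.congr (by simp))
                omega
              | cons x' X'' =>
                simp only [List.cons_append, List.cons.injEq] at hR
                obtain ⟨rfl, rfl⟩ := hR
                have h6 := subst_edge hbase (u := w1) (R := X'' ++ s :: Y')
                  (hclm2.congr (by simp)) hab haz hzb
                have := hU.ns' (X := w0 :: w1 :: X'') (s := s) (M := M)
                  (Y := Y' ++ y :: (R2 ++ [w0])) (by simp) (Or.inl (by simp)) hm1
                  (h6.congr (by simp))
                omega
        rcases eq_or_ne R1 [] with rfl | hR1 <;> rcases eq_or_ne R2 [] with rfl | hR2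
        · obtain ⟨D, hD⟩ := good_ee hA hab haz hzb
          exact ⟨D, (hD.mono (by omega))⟩
        · obtain ⟨D1, hD1⟩ := IH n1 (by omega) (w0 :: z :: R2) (by
            have := List.length_pos_iff.2 hR2; simp; omega) U1
          obtain ⟨D, hD⟩ := good_en hA hab haz hzb hD1
          exact ⟨D, (hD.mono (by omega))⟩
        · obtain ⟨D2, hD2⟩ := IH n2 (by omega) (z :: w1 :: R1) (by
            have := List.length_pos_iff.2 hR1; simp; omega) U2
          obtain ⟨D, hD⟩ := good_ne hA hab haz hzb hD2
          exact ⟨D, (hD.mono (by omega))⟩
        · obtain ⟨D1, hD1⟩ := IH n1 (by omega) (w0 :: z :: R2) (by
            have := List.length_pos_iff.2 hR2; simp; omega) U1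
          obtain ⟨D2, hD2⟩ := IH n2 (by omega) (z :: w1 :: R1) (by
            have := List.length_pos_iff.2 hR1; simp; omega) U2
          obtain ⟨D, hD⟩ := good_nn hA hab haz hzb hD1 hD2
          exact ⟨D, (hD.mono (by omega))⟩
      · have U' : Unsplit G (w0 :: z :: w1 :: rest) n' := by
          refine ⟨hW', fun a ha => ?_, ?_⟩
          · have h3 : Cl G ([] ++ w0 :: z :: w1 :: (rest ++ [w0])) a := ha.toCl'.congr (by simp)
            have h4 : Cyc G (w0 :: w1 :: rest) (a + 1) :=
              Cyc.ofCl ((h3.shortcut hab haz hzb).congr (by simp))
            have := hU.min _ h4
            omega
          · intro a t hat X s M Y hXY hne2 m1 m2 hm1 hm2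
            simp only [List.cons.injEq] at hat
            obtain ⟨rfl, rfl⟩ := hat
            by_contra hlt
            push Not at hlt
            cases X with
            | nil =>
              simp only [List.nil_append, List.cons.injEq, List.cons_append] at hXY
              obtain ⟨rfl, hXY⟩ := hXY
              cases M with
              | nil =>
                simp only [List.nil_append, List.cons.injEq] at hXY
                exact haz.ne hXY.1.symm
              | cons x M' =>
                simp only [List.cons_append, List.cons.injEq] at hXY
                obtain ⟨rfl, hXY⟩ := hXY
                cases M' with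
                | nil =>
                  simp only [List.nil_append, List.cons.injEq] at hXY
                  exact hab.ne hXY.1.symm
                | cons x' M'' =>
                  simp only [List.cons_append, List.cons.injEq] at hXY
                  obtain ⟨rfl, hXY⟩ := hXY
                  have h5 : Cl G ([] ++ w0 :: z :: w1 :: (M'' ++ [w0])) m1 := hm1.congr (by simp)
                  have h6 := h5.shortcut hab haz hzb
                  have := hU.ns' (X := []) (s := w0) (M := w1 :: M'') (Y := Y)
                    (by simp [hXY]) (Or.inr (by simpa using hne2)) (h6.congr (by simp)) hm2
                  omega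
            | cons x X' =>
              simp only [List.cons_append, List.cons.injEq] at hXY
              obtain ⟨rfl, hXY⟩ := hXY
              cases X' with
              | nil =>
                simp only [List.nil_append, List.cons.injEq] at hXY
                obtain ⟨rfl, hXY⟩ := hXY
                apply hsplit
                cases M with
                | nil =>
                  simp only [List.nil_append, List.cons.injEq] at hXY
                  exact absurd hXY.1.symm hzb.ne
                | cons x' M' =>
                  simp only [List.cons_append, List.cons.injEq] at hXY
                  obtain ⟨rfl, hXY⟩ := hXY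
                  cases Y using List.reverseRecOn with
                  | nil =>
                    exfalso
                    have := congrArg (fun l => l.getLast?) hXY
                    simp only [List.getLast?_append, List.getLast?_singleton] at this
                    exact haz.ne (by simpa using this)
                  | append_singleton Y' y _ =>
                    have hyw : y = w0 := by
                      have := congrArg (fun l => l.getLast?) hXY
                      rw [show M' ++ z :: (Y' ++ [y]) = (M' ++ z :: Y') ++ [y] by simp] at this
                      simp only [List.getLast?_append, List.getLast?_singleton] at this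
                      simpa using this.symm
                    subst hyw
                    have hR : rest = M' ++ z :: Y' := by
                      have : rest ++ [y] = (M' ++ z :: Y') ++ [y] := by rw [hXY]; simp
                      exact List.append_cancel_right this
                    exact ⟨M', Y', m1, m2, hR, hm1.congr (by simp), hm2.congr (by simp),
                      by omega⟩
              | cons x' X'' =>
                simp only [List.cons_append, List.cons.injEq] at hXY
                obtain ⟨rfl, hXY⟩ := hXY
                cases X'' with
                | nil =>
                  simp only [List.nil_append, List.cons.injEq] at hXY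
                  obtain ⟨rfl, hXY⟩ := hXY
                  have h5 : Cl G ([] ++ w0 :: z :: w1 :: Y) m2 := hm2.congr (by simp)
                  have h6 := h5.shortcut hab haz hzb
                  have := hU.ns' (X := [w0]) (s := w1) (M := M) (Y := Y)
                    (by simp [hXY]) (Or.inl (by simp)) hm1 (h6.congr (by simp))
                  omega
                | cons x'' X3 =>
                  simp only [List.cons_append, List.cons.injEq] at hXY
                  obtain ⟨rfl, hXY⟩ := hXY
                  have h5 : Cl G ([] ++ w0 :: z :: w1 :: (X3 ++ s :: Y)) m2 :=
                    hm2.congr (by simp)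
                  have h6 := h5.shortcut hab haz hzb
                  have := hU.ns' (X := w0 :: w1 :: X3) (s := s) (M := M) (Y := Y)
                    (by simp [hXY]) (Or.inl (by simp)) hm1 (h6.congr (by simp))
                  omega
        obtain ⟨D', hD'⟩ := IH n' (by omega) (w0 :: z :: w1 :: rest) (by simp) U'
        exact good_b2 hA hne hab haz hzb hD' (fun a ha => hU.min a ha)

end Pool.Agent.H351
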