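import Pool.Agent.H351.Invol

/-!
The fixed set of an involution that never moves a vertex to a neighbour is connected.
-/

namespace Pool.Agent.H351

open scoped BigOperators Real

variable {V : Type*} {G : SimpleGraph V} {ang : V → V → V → ℝ}

/-- the restriction of a graph to a set of vertices, on the same type -/
def res (G : SimpleGraph V) (F : Set V) : SimpleGraph V where
  Adj a b := G.Adj a b ∧ a ∈ F ∧ b ∈ F
  symm := ⟨fun _ _ h => ⟨h.1.symm, h.2.2, h.2.1⟩⟩
  loopless := ⟨fun _ h => h.1.ne rfl⟩

theorem res_adj {F : Set V} {a b : V} : (res G F).Adj a b ↔ G.Adj a b ∧ a ∈ F ∧ b ∈ F := Iff.rfl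

theorem path_form {L : List V} {x y : V} (h1 : L.head? = some x) (h2 : L.getLast? = some y)
    (hxy : x ≠ y) : ∃ A, L = x :: (A ++ [y]) := by
  cases L with
  | nil => simp at h1
  | cons a L =>
    simp only [List.head?_cons, Option.some.injEq] at h1
    subst h1
    rcases List.eq_nil_or_concat L with rfl | ⟨A, b, rfl⟩
    · simp at h2; exact absurd h2 hxy
    · refine ⟨A, ?_⟩
      rw [List.concat_eq_append] at h2 ⊢
      rw [← List.cons_append, List.getLast?_append] at h2
      have : b = y := by simpa using h2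
      rw [this]

theorem last_path {x y : V} {A : List V} : (x :: (A ++ [y])).getLast? = some y := by
  have : x :: (A ++ [y]) = (x :: A) ++ [y] := rfl
  rw [this, List.getLast?_append]
  simp

theorem head_app {X1 : List V} {s : V} {E F : List V} :
    (X1 ++ s :: E).head? = (X1 ++ s :: F).head? := by
  cases X1 <;> rfl

theorem last_app {X1 Y1 : List V} {s : V} {E : List V} :
    (X1 ++ s :: E).getLast? = (Y1 ++ s :: E).getLast? := by
  rw [List.getLast?_append, List.getLast?_append]
  rcases List.eq_nil_or_concat E with rfl | ⟨A, b, rfl⟩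
  · simp
  · rw [List.concat_eq_append, ← List.cons_append, List.getLast?_append]
    simp

/-- a closed walk as a homotopy of paths -/
theorem Hq_of_closed {X Y : List V} {s : V} {n : ℕ} (h : Cl G (X ++ s :: Y) n) :
    Hq G (X ++ [s]) (Y.reverse ++ [s]) n := by
  cases X with
  | nil =>
    have h' : Cl G (s :: Y) n := h
    rcases h'.ends with rfl | ⟨Y', rfl⟩
    · exact Hq.refl _ _
    · have h2 : Cl G (s :: (Y'.reverse ++ [s])) n := h'.reverse.congr (by simp)
      have := (Hq.loop h2 []).symm
      exact this.congr (by simp) (by simp)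
  | cons x X' =>
    have h' : Cl G (x :: (X' ++ s :: Y)) n := h
    rcases h'.endsAt with ⟨rfl, rfl⟩ | ⟨Y', rfl⟩
    · have h2 : Cl G (s :: (X' ++ [s])) n := h'
      have := (Hq.loop h2 [])
      exact this.congr (by simp) (by simp)
    · have h2 : Cl G (x :: (X' ++ s :: (Y'.reverse.reverse ++ [x]))) n := h'.congr (by simp)
      have := (Hq.of_cl h2).symm
      exact this.congr (by simp) (by simp)

theorem split_upper {A B X M Y : List V} {x y s : V} {n2 : ℕ} (hxy : x ≠ y)
    (e : x :: (A ++ y :: (B.reverse ++ [x])) = X ++ s :: (M ++ s :: Y))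
    (h2 : Cl G (X ++ s :: Y) n2) (hl : X.length + M.length + 1 ≤ A.length + 1) :
    ∃ c, x :: (A ++ [y]) = X ++ s :: (M ++ s :: c) ∧
      Hq G (X ++ s :: c) (x :: (B ++ [y])) n2 := by
  have e1 : (x :: (A ++ [y])) ++ (B.reverse ++ [x]) = (X ++ s :: (M ++ [s])) ++ Y := by
    have : (x :: (A ++ [y])) ++ (B.reverse ++ [x]) = x :: (A ++ y :: (B.reverse ++ [x])) := by simp
    rw [this, e]; simp
  obtain ⟨c, hc1, hc2⟩ : ∃ c, x :: (A ++ [y]) = (X ++ s :: (M ++ [s])) ++ c ∧
      Y = c ++ (B.reverse ++ [x]) := by
    rcases List.append_eq_append_iff.1 e1 with ⟨a, h3, h4⟩ | ⟨a, h3, h4⟩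
    · have := congrArg List.length h3
      simp at this
      have : a.length = 0 := by omega
      rw [List.length_eq_zero_iff] at this
      subst this
      exact ⟨[], by simpa using h3.symm, by simpa using h4.symm⟩
    · exact ⟨a, h3, h4⟩
  have hP : x :: (A ++ [y]) = X ++ s :: (M ++ s :: c) := by rw [hc1]; simp
  refine ⟨c, hP, ?_⟩
  have hh : (X ++ s :: c).head? = some x := by
    rw [head_app (F := M ++ s :: c), ← hP]; rfl
  have hl2 : (X ++ s :: c).getLast? = some y := by
    have h5 : X ++ s :: (M ++ s :: c) = (X ++ s :: M) ++ s :: c := by simp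
    rw [last_app (Y1 := X ++ s :: M), ← h5, ← hP]
    exact last_path
  obtain ⟨A1, hA1⟩ := path_form hh hl2 hxy
  have h3 : Cl G (x :: (A1 ++ y :: (B.reverse ++ [x]))) n2 := by
    refine h2.congr ?_
    rw [hc2]
    have : X ++ s :: (c ++ (B.reverse ++ [x])) = (X ++ s :: c) ++ (B.reverse ++ [x]) := by simp
    rw [this, hA1]; simp
  rw [hA1]
  exact (Hq.of_cl h3).symm

theorem split_cases {A B X M Y : List V} {x y s : V} {n1 n2 : ℕ} (hxy : x ≠ y)
    (hAB : A.length = B.length)
    (e : x :: (A ++ y :: (B.reverse ++ [x])) = X ++ s :: (M ++ s :: Y))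
    (hXY : X ≠ [] ∨ Y ≠ [])
    (h1 : Cl G (s :: (M ++ [s])) n1) (h2 : Cl G (X ++ s :: Y) n2) :
    (∃ X1 t N c, Cl G (t :: (N ++ [t])) n1 ∧ x :: (A ++ [y]) = X1 ++ t :: (N ++ t :: c) ∧
      Hq G (X1 ++ t :: c) (x :: (B ++ [y])) n2) ∨
    (∃ X1 t N c, Cl G (t :: (N ++ [t])) n1 ∧ x :: (B ++ [y]) = X1 ++ t :: (N ++ t :: c) ∧
      Hq G (X1 ++ t :: c) (x :: (A ++ [y])) n2) ∨
    (∃ X1 t E Y1 F, x :: (A ++ [y]) = X1 ++ t :: E ∧ x :: (B ++ [y]) = Y1 ++ t :: F ∧
      E ≠ [] ∧ F ≠ [] ∧ (X1 ≠ [] ∨ Y1 ≠ []) ∧ Hq G (X1 ++ [t]) (Y1 ++ [t]) n2 ∧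
      Hq G (t :: E) (t :: F) n1) := by
  have hlen := congrArg List.length e
  simp only [List.length_cons, List.length_append, List.length_reverse, List.length_nil] at hlen
  rcases Nat.lt_or_ge (A.length + 1) (X.length + M.length + 1) with hj | hj
  · rcases Nat.lt_or_ge X.length (A.length + 1) with hi | hi
    · -- cross
      right; right
      have e1 : (x :: (A ++ [y])) ++ (B.reverse ++ [x]) = (X ++ [s]) ++ (M ++ s :: Y) := by
        have : (x :: (A ++ [y])) ++ (B.reverse ++ [x]) = x :: (A ++ y :: (B.reverse ++ [x])) := by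
          simp
        rw [this, e]; simp
      obtain ⟨c, hc0, hc1, hc2⟩ : ∃ c, c ≠ [] ∧ x :: (A ++ [y]) = (X ++ [s]) ++ c ∧
          M ++ s :: Y = c ++ (B.reverse ++ [x]) := by
        rcases List.append_eq_append_iff.1 e1 with ⟨a, h3, h4⟩ | ⟨a, h3, h4⟩
        · have := congrArg List.length h3
          simp at this
          omega
        · refine ⟨a, ?_, h3, h4⟩
          rintro rfl
          have := congrArg List.length h3
          simp at this
          omega
      obtain ⟨c', rfl⟩ : ∃ c', c = c' ++ [y] := by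
        rcases List.eq_nil_or_concat c with h | ⟨c', b, h⟩
        · exact absurd h hc0
        · rw [List.concat_eq_append] at h
          subst h
          have h3 : (x :: A) ++ [y] = (X ++ [s] ++ c') ++ [b] := by
            have : (x :: A) ++ [y] = x :: (A ++ [y]) := rfl
            rw [this, hc1]; simp
          have := List.append_inj_right' h3 rfl
          simp only [List.cons.injEq, and_true] at this
          exact ⟨c', by rw [this]⟩
      have hlc := congrArg List.length hc1
      simp only [List.length_cons, List.length_append, List.length_nil] at hlc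
      obtain ⟨a, ha1, ha2⟩ : ∃ a, M = (c' ++ [y]) ++ a ∧ a ++ s :: Y = B.reverse ++ [x] := by
        rcases List.append_eq_append_iff.1 hc2 with ⟨a, h3, h4⟩ | ⟨a, h3, h4⟩
        · have := congrArg List.length h3
          simp at this
          have : a.length = 0 := by omega
          rw [List.length_eq_zero_iff] at this
          subst this
          exact ⟨[], by simpa using h3.symm, by simpa using h4⟩
        · exact ⟨a, h3, h4.symm⟩
      subst ha1
      refine ⟨X, s, c' ++ [y], Y.reverse, a.reverse ++ [y], by rw [hc1]; simp, ?_, by simp,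
        by simp, ?_, Hq_of_closed h2, ?_⟩
      · have : x :: (B ++ [y]) = (y :: (B.reverse ++ [x])).reverse := by simp
        rw [this, ← ha2]; simp
      · simpa using hXY
      · have h3 : Cl G (s :: (c' ++ y :: (a.reverse.reverse ++ [s]))) n1 := h1.congr (by simp)
        exact (Hq.of_cl h3).symm
    · -- lower
      right; left
      have e2 : x :: (B ++ y :: (A.reverse ++ [x])) =
          Y.reverse ++ s :: (M.reverse ++ s :: X.reverse) := by
        have := congrArg List.reverse e
        simpa using this
      have h2' : Cl G (Y.reverse ++ s :: X.reverse) n2 := h2.reverse.congr (by simp)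
      have h1' : Cl G (s :: (M.reverse ++ [s])) n1 := h1.reverse.congr (by simp)
      obtain ⟨c, hc1, hc2⟩ := split_upper hxy e2 h2' (by simp; omega)
      exact ⟨_, _, _, _, h1', hc1, hc2⟩
  · left
    obtain ⟨c, hc1, hc2⟩ := split_upper hxy e h2 hj
    exact ⟨_, _, _, _, h1, hc1, hc2⟩

theorem conn_core (hA : AngSys G ang) {z : V → V} (hz : ∀ v, z (z v) = v)
    (hadj : ∀ a b, G.Adj a b → G.Adj (z a) (z b))
    (hang : ∀ v a b, G.Adj v a → G.Adj v b → G.Adj a b → ang (z v) (z a) (z b) = ang v a b)
    (hni : ∀ v, ¬ G.Adj v (z v)) :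
    ∀ n k (P : List V) (x y : V), P.length = k → Ch G P → P.head? = some x →
      P.getLast? = some y → z x = x → z y = y → Hq G P (P.map z) n →
      (res G {v | z v = v}).Reachable x y := by
  intro n
  induction n using Nat.strong_induction_on with
  | _ n IHn =>
  intro k
  induction k using Nat.strong_induction_on with
  | _ k IHk =>
  intro P x y hk hP hx hy zx zy hH
  rcases eq_or_ne x y with rfl | hxy
  · exact SimpleGraph.Reachable.refl _
  obtain ⟨A, rfl⟩ := path_form hx hy hxy
  rcases eq_or_ne A [] with rfl | hA0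
  · refine SimpleGraph.Adj.reachable ?_
    simp only [List.nil_append, Ch_cons2] at hP
    exact ⟨hP.1, zx, zy⟩
  have hmapP : (x :: (A ++ [y])).map z = x :: (A.map z ++ [y]) := by simp [zx, zy]
  have hW : Cyc G (x :: (A ++ y :: (A.map z).reverse)) n := by
    have h1 : Hp G (x :: (A.map z ++ [y])) (x :: (A ++ [y])) n := by
      rw [← hmapP]; exact hH.2
    have h2 := h1.to_cl (by rw [← hmapP]; exact Ch_map hadj hP)
    exact Cyc.ofCl (h2.congr (by simp))
  -- conversely
  have hconv : ∀ {m : ℕ} {A' : List V}, Cyc G (x :: (A' ++ y :: (A'.map z).reverse)) m →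
      Hq G (x :: (A' ++ [y])) ((x :: (A' ++ [y])).map z) m := by
    intro m A' hm
    have h1 : Cl G (x :: (A' ++ y :: ((A'.map z).reverse ++ [x]))) m := hm.toCl'.congr (by simp)
    have h2 := (Hq.of_cl h1).symm
    exact h2.congr rfl (by simp [zx, zy])
  have hzz : ∀ l : List V, (l.map z).map z = l := fun l => by
    simp [List.map_map, Function.comp_def, hz]
  by_cases hmin : ∃ m < n, Cyc G (x :: (A ++ y :: (A.map z).reverse)) m
  · obtain ⟨m, hm, hc⟩ := hmin
    exact IHn m hm _ _ x y rfl hP hx hy zx zy (hconv hc)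
  by_cases hsp : ∃ X s M Y n1 n2, x :: (A ++ y :: ((A.map z).reverse ++ [x])) =
      X ++ s :: (M ++ s :: Y) ∧ (X ≠ [] ∨ Y ≠ []) ∧ Cl G (s :: (M ++ [s])) n1 ∧
      Cl G (X ++ s :: Y) n2 ∧ n1 + n2 ≤ n
  · obtain ⟨X, s, M, Y, n1, n2, e, hXY, h1, h2, h12⟩ := hsp
    have hPz : (x :: (A.map z ++ [y])).map z = x :: (A ++ [y]) := by
      rw [← hmapP, hzz]
    rcases split_cases hxy (by simp) e hXY h1 h2 with ⟨X1, t, N, c, g1, g2, g3⟩ |
      ⟨X1, t, N, c, g1, g2, g3⟩ | ⟨X1, t, E, Y1, F, g1, g2, hE, hF, hXY1, g3, g4⟩
    · -- upper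
      have hP1 : Hq G (x :: (A ++ [y])) (X1 ++ t :: c) n1 := by
        rw [g2]
        have := (Hq.loop g1 c).ctx X1 []
        exact this.congr (by simp) (by simp)
      have h3 : Hq G (x :: (A.map z ++ [y])) ((X1 ++ t :: c).map z) n1 := by
        have := hP1.map hz hadj
        rwa [hmapP] at this
      have h4 := g3.trans h3
      have hch : Ch G (X1 ++ t :: c) := by
        rw [g2, Ch_append] at hP
        have h5 : Ch G ((t :: N) ++ t :: c) := hP.2
        rw [Ch_append] at h5
        rw [Ch_append]
        exact ⟨hP.1, h5.2⟩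
      refine IHk _ ?_ (X1 ++ t :: c) x y rfl hch ?_ ?_ zx zy (h4.mono (by omega))
      · rw [← hk, g2]; simp
      · rw [head_app (F := N ++ t :: c), ← g2]; rfl
      · have h5 : X1 ++ t :: (N ++ t :: c) = (X1 ++ t :: N) ++ t :: c := by simp
        rw [last_app (Y1 := X1 ++ t :: N), ← h5, ← g2]
        exact hy
    · -- lower
      have hch0 : Ch G (x :: (A.map z ++ [y])) := by rw [← hmapP]; exact Ch_map hadj hP
      have hP1 : Hq G (x :: (A.map z ++ [y])) (X1 ++ t :: c) n1 := by
        rw [g2]
        have := (Hq.loop g1 c).ctx X1 []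
        exact this.congr (by simp) (by simp)
      have h3 : Hq G (x :: (A ++ [y])) ((X1 ++ t :: c).map z) n1 := by
        have := hP1.map hz hadj
        rwa [hPz] at this
      have h4 := g3.trans h3
      have hch : Ch G (X1 ++ t :: c) := by
        rw [g2, Ch_append] at hch0
        have h5 : Ch G ((t :: N) ++ t :: c) := hch0.2
        rw [Ch_append] at h5
        rw [Ch_append]
        exact ⟨hch0.1, h5.2⟩
      refine IHk _ ?_ (X1 ++ t :: c) x y rfl hch ?_ ?_ zx zy (h4.mono (by omega))
      · have := congrArg List.length g2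
        simp at this
        rw [← hk]; simp; omega
      · rw [head_app (F := N ++ t :: c), ← g2]; rfl
      · have h5 : X1 ++ t :: (N ++ t :: c) = (X1 ++ t :: N) ++ t :: c := by simp
        rw [last_app (Y1 := X1 ++ t :: N), ← h5, ← g2]
        exact last_path
    · -- cross
      have hch0 : Ch G (x :: (A.map z ++ [y])) := by rw [← hmapP]; exact Ch_map hadj hP
      have hlP := congrArg List.length g1
      have hlQ := congrArg List.length g2
      simp only [List.length_cons, List.length_append, List.length_map, List.length_nil]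
        at hlP hlQ hk
      have hz1 : (X1 ++ t :: E).map z = Y1 ++ t :: F := by rw [← g1, ← g2, hmapP]
      have hz2 : (Y1 ++ t :: F).map z = X1 ++ t :: E := by rw [← hz1, hzz]
      have hlast : (Y1 ++ t :: F).getLast? = some y := by
        rw [← g2]; exact last_path
      have hhead : (Y1 ++ t :: F).head? = some x := by rw [← g2]; rfl
      rcases Nat.lt_trichotomy X1.length Y1.length with hlt | heq | hgt
      · -- P1 = X1 ++ t :: F
        have h3 : Hq G (X1 ++ t :: F) (Y1 ++ t :: F) n2 := by
          have := g3.ctx [] F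
          exact this.congr (by simp) (by simp)
        have h4 : Hq G (X1 ++ t :: E) (X1 ++ t :: F) n1 := by
          have := g4.ctx X1 []
          exact this.congr (by simp) (by simp)
        have h5 := h4.map hz hadj
        rw [hz1] at h5
        have h6 := h3.trans h5
        rw [g1, Ch_append] at hP
        rw [g2, Ch_append] at hch0
        refine IHk _ ?_ (X1 ++ t :: F) x y rfl ?_ ?_ ?_ zx zy (h6.mono (by omega))
        · simp; omega
        · rw [Ch_append]; exact ⟨hP.1, hch0.2⟩
        · rw [head_app (F := E), ← g1]; rfl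
        · rw [last_app (Y1 := Y1)]; exact hlast
      · -- fixed vertex
        obtain ⟨k1, k2⟩ := List.append_inj (by simpa using hz1 : X1.map z ++ z t :: E.map z =
          Y1 ++ t :: F) (by simpa using heq)
        simp only [List.cons.injEq] at k2
        obtain ⟨zt, k2⟩ := k2
        have hX1 : X1 ≠ [] := by
          rintro rfl
          have h9 : Y1 = [] := List.length_eq_zero_iff.1 (by simpa using heq.symm)
          rcases hXY1 with h | h
          · exact h rfl
          · exact h h9
        have hX1l := List.length_pos_iff.2 hX1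
        have hEl := List.length_pos_iff.2 hE
        rw [g1, Ch_append] at hP
        have r1 : (res G {v | z v = v}).Reachable x t := by
          refine IHk _ ?_ (X1 ++ [t]) x t rfl hP.1 ?_ (by simp) zx zt ?_
          · simp; omega
          · rw [head_app (F := E), ← g1]; rfl
          · have : (X1 ++ [t]).map z = Y1 ++ [t] := by simp [k1, zt]
            rw [this]; exact g3.mono (by omega)
        have r2 : (res G {v | z v = v}).Reachable t y := by
          refine IHk _ ?_ (t :: E) t y rfl hP.2 rfl ?_ zt zy ?_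
          · simp; omega
          · have := last_app (X1 := []) (Y1 := X1) (s := t) (E := E)
            rw [List.nil_append] at this
            rw [this, ← g1]; exact last_path
          · have : (t :: E).map z = t :: F := by simp [k2, zt]
            rw [this]; exact g4.mono (by omega)
        exact r1.trans r2
      · -- P1 = Y1 ++ t :: E
        have h3 : Hq G (Y1 ++ t :: E) (X1 ++ t :: E) n2 := by
          have := g3.symm.ctx [] E
          exact this.congr (by simp) (by simp)
        have h4 : Hq G (Y1 ++ t :: F) (Y1 ++ t :: E) n1 := by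
          have := g4.symm.ctx Y1 []
          exact this.congr (by simp) (by simp)
        have h5 := h4.map hz hadj
        rw [hz2] at h5
        have h6 := h3.trans h5
        rw [g1, Ch_append] at hP
        rw [g2, Ch_append] at hch0
        refine IHk _ ?_ (Y1 ++ t :: E) x y rfl ?_ ?_ ?_ zx zy (h6.mono (by omega))
        · simp; omega
        · rw [Ch_append]; exact ⟨hch0.1, hP.2⟩
        · rw [head_app (F := F)]; exact hhead
        · rw [last_app (Y1 := X1), ← g1]; exact last_path
  · -- unsplit
    have hU : Unsplit G (x :: (A ++ y :: (A.map z).reverse)) n := by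
      refine ⟨hW, ?_, ?_⟩
      · intro m hm
        by_contra hlt
        exact hmin ⟨m, by omega, hm⟩
      · intro a t hat X s M Y e hXY n1 n2 h1 h2
        simp only [List.cons.injEq] at hat
        obtain ⟨rfl, rfl⟩ := hat
        by_contra hlt
        exact hsp ⟨X, s, M, Y, n1, n2, by rw [← e]; simp, hXY, h1, h2, by omega⟩
    have hAl := List.length_pos_iff.2 hA0
    obtain ⟨D, hD⟩ := fan_theorem hA n _ (by simp; omega) hU
    obtain ⟨dx, D', rfl, hdx, hD'⟩ := map_v_cons hD.map
    obtain ⟨D1, D2, rfl, hD1, hD2⟩ := List.map_eq_append_iff.1 hD'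
    obtain ⟨dy, D2, rfl, hdy, hD2⟩ := map_v_cons hD2
    have hD2r : D2.reverse.map Ent.v = A.map z := by
      rw [List.map_reverse, hD2, List.reverse_reverse]
    have hDl : D1.length = D2.reverse.length := by
      have h1 := congrArg List.length hD1
      have h2 := congrArg List.length hD2r
      simp only [List.length_map] at h1 h2
      omega
    -- the corners at x and y have positive angles
    have hpos : ∀ (w : V) (d : Ent V) (w' : V), Fan G ang w d w' → 0 ≤ d.E := by
      intro w d w' hf
      obtain ⟨h1, h2, h3⟩ := hf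
      rw [← h3]
      exact plen_nonneg (S := fun u => G.Adj d.v u)
        (fun a b ha hb hab => (hA.pos _ _ _ ha hb hab).le) h1 h2
    have hpos' : ∀ (w : V) (d : Ent V) (w' : V), Fan G ang w d w' → 0 < d.E := by
      intro w d w' hf
      obtain ⟨h1, h2, h3⟩ := hf
      rw [← h3]
      cases hS : d.S with
      | nil =>
        rw [hS] at h1 h2
        simp only [List.nil_append, Ch_cons2, plen_cons2, plen_single, add_zero] at h1 ⊢
        exact hA.pos _ _ _ (h2 _ (by simp)) (h2 _ (by simp)) h1.1
      | cons u S =>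
        rw [hS] at h1 h2
        simp only [List.cons_append, Ch_cons2, plen_cons2] at h1 ⊢
        have h4 := hA.pos _ _ _ (h2 w (by simp)) (h2 u (by simp)) h1.1
        have h5 : 0 ≤ plen (ang d.v) (u :: (S ++ [w'])) :=
          plen_nonneg (S := fun u => G.Adj d.v u)
            (fun a b ha hb hab => (hA.pos _ _ _ ha hb hab).le) h1.2
            (fun v hv => h2 v (by simp only [List.cons_append, List.mem_cons] at hv ⊢; tauto))
        linarith
    have hsum := hD.sum
    simp only [dsum_cons, dsum_append] at hsum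
    have hrev : dsum D2.reverse = dsum D2 := by
      simp only [dsum, List.map_reverse, List.sum_reverse]
    have hok0 : ok G ang (lst dx.v (D1 ++ dy :: D2)) (dx :: (D1 ++ dy :: D2)) dx.v := hD.ok
    have hfx := hpos' _ _ _ hok0.1
    obtain ⟨P1, d, P2, Q1, e, Q2, rfl, hD2eq, hPQ, hde⟩ := pair_exists D1 D2.reverse hDl (by
      rw [hrev]
      have h1 : ok G ang (lst dx.v (D1 ++ dy :: D2)) ((dx :: D1) ++ (dy :: D2)) dx.v := hD.ok
      rw [ok_append] at h1
      have hfy := hpos _ _ _ h1.2.1
      linarith)
    have hD2q : D2 = Q2.reverse ++ e :: Q1.reverse := by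
      have := congrArg List.reverse hD2eq
      simpa using this
    subst hD2q
    -- vertices
    have hv : Q1.map Ent.v = (P1.map Ent.v).map z ∧ e.v = z d.v ∧
        Q2.map Ent.v = (P2.map Ent.v).map z := by
      rw [hD2eq, ← hD1] at hD2r
      simp only [List.map_append, List.map_cons] at hD2r
      obtain ⟨h1, h2⟩ := List.append_inj hD2r (by simp [hPQ])
      simp only [List.cons.injEq] at h2
      exact ⟨h1, h2.1, h2.2⟩
    obtain ⟨hv1, hv2, hv3⟩ := hv
    obtain ⟨W', hg⟩ : ∃ W', Good G ang (e :: (Q1.reverse ++ dx :: P1) ++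
        d :: (P2 ++ dy :: Q2.reverse)) W' n := by
      have h1 : Good G ang ((dx :: (P1 ++ d :: (P2 ++ dy :: Q2.reverse))) ++ (e :: Q1.reverse))
          (x :: (A ++ y :: (A.map z).reverse)) n := by
        have : dx :: (P1 ++ d :: P2 ++ dy :: (Q2.reverse ++ e :: Q1.reverse)) =
          (dx :: (P1 ++ d :: (P2 ++ dy :: Q2.reverse))) ++ (e :: Q1.reverse) := by simp
        rw [← this]; exact hD
      have h2 := h1.rot
      have : (e :: Q1.reverse) ++ (dx :: (P1 ++ d :: (P2 ++ dy :: Q2.reverse))) =
        e :: (Q1.reverse ++ dx :: P1) ++ d :: (P2 ++ dy :: Q2.reverse) := by simp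
      rw [this] at h2
      exact ⟨_, h2⟩
    have hne1 : Q1.reverse ++ dx :: P1 ≠ [] := by simp
    have hne2 : P2 ++ dy :: Q2.reverse ≠ [] := by simp
    -- the fan at d
    have hfd : Fan G ang (lst e.v (Q1.reverse ++ dx :: P1)) d (hd (P2 ++ dy :: Q2.reverse) e.v) := by
      have h2 : ok G ang (lst e.v ((Q1.reverse ++ dx :: P1) ++ d :: (P2 ++ dy :: Q2.reverse)))
        ((e :: (Q1.reverse ++ dx :: P1)) ++ d :: (P2 ++ dy :: Q2.reverse)) e.v := hg.ok
      rw [ok_append] at h2
      exact h2.2.1
    have hT := (hfd.map hadj hang).rev hA.symm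
    rw [← hv2] at hT
    -- ends
    have hLL : ((Q1.reverse ++ dx :: P1).map Ent.v).map z =
        ((Q1.reverse ++ dx :: P1).map Ent.v).reverse := by
      simp only [List.map_append, List.map_reverse, hv1, List.map_cons, hdx, zx, hzz,
        List.reverse_append, List.reverse_cons, List.reverse_reverse]
      simp
    have hRR : ((P2 ++ dy :: Q2.reverse).map Ent.v).map z =
        ((P2 ++ dy :: Q2.reverse).map Ent.v).reverse := by
      simp only [List.map_append, List.map_reverse, hv3, List.map_cons, hdy, zy, hzz,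
        List.reverse_append, List.reverse_cons, List.reverse_reverse]
      simp
    have e1 : z (lst e.v (Q1.reverse ++ dx :: P1)) = hd (Q1.reverse ++ dx :: P1) d.v := by
      rw [lst_eq, hd_eq, ← getLastD_map (z := z), hLL]
      rw [List.getLastD_eq_getLast?, List.getLast?_reverse, List.headD_eq_head?_getD]
      have : ((Q1.reverse ++ dx :: P1).map Ent.v).head? ≠ none := by simp
      obtain ⟨w, hw⟩ := Option.ne_none_iff_exists'.1 this
      rw [hw]; rfl
    have e2 : z (hd (P2 ++ dy :: Q2.reverse) e.v) = lst d.v (P2 ++ dy :: Q2.reverse) := by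
      rw [lst_eq, hd_eq, ← headD_map (z := z), hRR]
      rw [List.getLastD_eq_getLast?, List.headD_eq_head?_getD, List.head?_reverse]
      have : ((P2 ++ dy :: Q2.reverse).map Ent.v).getLast? ≠ none := by simp
      obtain ⟨w, hw⟩ := Option.ne_none_iff_exists'.1 this
      rw [hw]; rfl
    rw [e1, e2] at hT
    obtain ⟨m, hm, hc⟩ := hg.push hA hne1 hne2 (by
      rw [hv2]; exact fun h => hni _ h.symm) hT (by linarith) hA.symm
    simp only [List.length_reverse, List.length_map] at hm
    -- the new path
    have hc2 : Cyc G (x :: ((P1.map Ent.v ++ d.S ++ P2.map Ent.v) ++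
        y :: ((P1.map Ent.v ++ d.S ++ P2.map Ent.v).map z).reverse)) m := by
      have h1 : Cyc G (((d.S.map z).reverse ++ ((P1.map Ent.v).map z).reverse) ++
          (x :: (P1.map Ent.v ++ (d.S ++ (P2.map Ent.v ++ y :: ((P2.map Ent.v).map z).reverse)))))
          m := by
        refine hc.congr ?_
        simp only [List.map_append, List.map_reverse, hv1, hv3, List.map_cons, hdx, hdy]
        simp
      exact h1.rot.congr (by simp)
    have hlA : P1.length + P2.length + 1 = A.length := by
      rw [← hD1]; simp; omega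
    have hch : Ch G (x :: ((P1.map Ent.v ++ d.S ++ P2.map Ent.v) ++ [y])) := by
      have h1 := Cl.ch hc2.toCl'
      have h2 : Ch G ((x :: (P1.map Ent.v ++ d.S ++ P2.map Ent.v)) ++ y ::
        (((P1.map Ent.v ++ d.S ++ P2.map Ent.v).map z).reverse ++ [x])) := by
          simpa using h1
      rw [Ch_append] at h2
      simpa using h2.1
    exact IHn m (by omega) _ _ x y rfl hch rfl last_path zx zy (hconv hc2)

end Pool.Agent.H351
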