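import Pool.Agent.H351.FixConn

/-!
The fixed set of an involution that never moves a vertex to a neighbour is simply connected.
-/

namespace Pool.Agent.H351

open scoped BigOperators Real

variable {V : Type*} {G : SimpleGraph V} {ang : V → V → V → ℝ}

/-- index form of `AngSys.step` -/
theorem AngSys.step' [Inhabited V] (hA : AngSys G ang) {v : V} {C : List V} (hl : 4 ≤ C.length)
    (hC : CCh G C) (hv : ∀ x ∈ C, G.Adj v x) (hlen : clen (ang v) C < 2 * π) :
    ¬ C.Nodup ∨ ∃ i, i < C.length ∧
      G.Adj (C.getD i default) (C.getD ((i + 2) % C.length) default) := by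
  by_contra hcon
  push Not at hcon
  obtain ⟨hnd, hch⟩ := hcon
  obtain ⟨k, hk⟩ : ∃ k, C.length = k + 4 := ⟨C.length - 4, by omega⟩
  have hval : ∀ i : ZMod (k + 4), ZMod.val i < C.length := fun i => by
    rw [hk]; exact ZMod.val_lt i
  let c : ZMod (k + 4) → V := fun i => C.getD (ZMod.val i) default
  have hc1 : ∀ i, c (i + 1) = C.getD ((ZMod.val i + 1) % C.length) default := by
    intro i
    have : ZMod.val (i + 1) = (ZMod.val i + 1) % C.length := by
      rw [ZMod.val_add, hk, ZMod.val_one_eq_one_mod]
      simp
    simp only [c, this]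
  have hc2 : ∀ i, c (i + 2) = C.getD ((ZMod.val i + 2) % C.length) default := by
    intro i
    have h2 : ZMod.val (2 : ZMod (k + 4)) = 2 := by
      have : ((2 : ℕ) : ZMod (k + 4)) = 2 := by norm_cast
      rw [← this, ZMod.val_natCast]
      exact Nat.mod_eq_of_lt (by omega)
    have : ZMod.val (i + 2) = (ZMod.val i + 2) % C.length := by
      rw [ZMod.val_add, hk, h2]
    simp only [c, this]
  have hinj : Function.Injective c := by
    intro i j hij
    have h1 : C.getD (ZMod.val i) default = C.getD (ZMod.val j) default := hij
    rw [List.getD_eq_getElem _ _ (hval i), List.getD_eq_getElem _ _ (hval j)] at h1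
    have h2 := (List.Nodup.getElem_inj_iff hnd).1 h1
    exact ZMod.val_injective _ h2
  have hmem : ∀ i, c i ∈ C := by
    intro i
    have : c i = C[ZMod.val i]'(hval i) := List.getD_eq_getElem _ _ (hval i)
    rw [this]
    exact List.getElem_mem _
  have hbig := hA.large v k c hinj (fun i => hv _ (hmem i))
    (fun i => by rw [hc1]; exact CCh_getD hC (hval i)) (fun i hadj => by
      rw [hc2] at hadj
      exact hch _ (hval i) hadj)
  have hsum : clen (ang v) C = ∑ i, ang v (c i) (c (i + 1)) := by
    rw [clen_getD]
    simp only [hc1]
    rw [hk]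
    exact (Fin.sum_univ_eq_sum_range (fun i => ang v (C.getD i default)
      (C.getD ((i + 1) % (k + 4)) default)) (k + 4)).symm
  linarith

theorem clen_nonneg (hA : AngSys G ang) {v : V} {C : List V} (hC : CCh G C)
    (hv : ∀ x ∈ C, G.Adj v x) : 0 ≤ clen (ang v) C := by
  cases C with
  | nil => simp [clen]
  | cons a t =>
    exact plen_nonneg (S := fun u => G.Adj v u)
      (fun a b ha hb hab => (hA.pos _ _ _ ha hb hab).le) hC (fun x hx => hv x (by
        simp only [List.mem_cons, List.mem_append] at hx ⊢; tauto))

theorem cut_loop (hA : AngSys G ang) {v s : V} {M R : List V} (hC : CCh G (s :: (M ++ s :: R)))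
    (hv : ∀ x ∈ s :: (M ++ s :: R), G.Adj v x) :
    CCh G (s :: R) ∧ (∀ x ∈ s :: R, G.Adj v x) ∧
      clen (ang v) (s :: R) ≤ clen (ang v) (s :: (M ++ s :: R)) := by
  have hCh : Ch G ((s :: M) ++ s :: (R ++ [s])) := by simpa [CCh] using hC
  rw [Ch_append] at hCh
  have h1 : CCh G (s :: M) := by simpa [CCh] using hCh.1
  have h2 : CCh G (s :: R) := by simpa [CCh] using hCh.2
  have hvM : ∀ x ∈ s :: M, G.Adj v x := fun x hx => hv x (by
    simp only [List.mem_cons, List.mem_append] at hx ⊢; tauto)
  have hvR : ∀ x ∈ s :: R, G.Adj v x := fun x hx => hv x (by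
    simp only [List.mem_cons, List.mem_append] at hx ⊢; tauto)
  refine ⟨h2, hvR, ?_⟩
  have hcl : clen (ang v) (s :: (M ++ s :: R)) = clen (ang v) (s :: M) +
      clen (ang v) (s :: R) := by
    have : clen (ang v) (s :: (M ++ s :: R)) = plen (ang v) ((s :: M) ++ s :: (R ++ [s])) := by
      simp [clen]
    rw [this, plen_append]
    simp [clen]
  have := clen_nonneg hA h1 hvM
  linarith

theorem cut_chord (hA : AngSys G ang) {v a b c : V} {R : List V}
    (hC : CCh G (a :: b :: c :: R)) (hac : G.Adj a c)
    (hv : ∀ x ∈ a :: b :: c :: R, G.Adj v x) :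
    CCh G (a :: c :: R) ∧ (∀ x ∈ a :: c :: R, G.Adj v x) ∧
      clen (ang v) (a :: c :: R) ≤ clen (ang v) (a :: b :: c :: R) := by
  simp only [CCh, List.cons_append, Ch_cons2] at hC ⊢
  have hva := hv a (by simp)
  have hvb := hv b (by simp)
  have hvc := hv c (by simp)
  refine ⟨⟨hac, hC.2.2⟩, fun x hx => hv x (by simp only [List.mem_cons] at hx ⊢; tauto), ?_⟩
  have htri := hA.tri v a b c hva hvb hvc hC.1 hC.2.1 hac
  simp only [clen, List.cons_append, plen_cons2]
  linarith

/-- a short doubled cycle in a link meets the fixed set -/
theorem twist (hA : AngSys G ang) {z : V → V} (hz : ∀ v, z (z v) = v)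
    (hadj : ∀ a b, G.Adj a b → G.Adj (z a) (z b)) (hni : ∀ v, ¬ G.Adj v (z v)) {v : V} :
    ∀ k (U : List V), U.length = k → U ≠ [] → CCh G (U ++ U.map z) →
      (∀ x ∈ U ++ U.map z, G.Adj v x) → clen (ang v) (U ++ U.map z) < 2 * π →
      ∃ u ∈ U, z u = u := by
  intro k
  induction k using Nat.strong_induction_on with
  | _ k IH =>
  intro U hk hU0 hC hv hlen
  rcases Nat.lt_or_ge U.length 2 with h2 | h2
  · exfalso
    have : U.length = 1 := by
      have := List.length_pos_iff.2 hU0; omega
    obtain ⟨a, rfl⟩ := List.length_eq_one_iff.1 this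
    simp only [List.map_cons, List.map_nil, List.cons_append, List.nil_append, CCh,
      Ch_cons2] at hC
    exact hni _ hC.1
  · -- transport of fixed vertices
    have back : ∀ U' : List V, (∀ w ∈ U', w ∈ U ∨ z w ∈ U) → (∃ u ∈ U', z u = u) →
        ∃ u ∈ U, z u = u := by
      rintro U' h ⟨u, hu, hzu⟩
      rcases h u hu with h1 | h1
      · exact ⟨u, h1, hzu⟩
      · exact ⟨z u, h1, by rw [hz, hzu]⟩
    have key : ∀ s M R, (U ++ U.map z) ~r (s :: (M ++ s :: R)) → M.length ≤ R.length →
        ∃ u ∈ U, z u = u := by
      intro s M R hrot hMR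
      obtain ⟨U', e, hUl, hU'⟩ := rot_double hz hrot
      have hC' := CCh_isRotated hrot hC
      have hv' := mem_isRotated hrot hv
      have hl' := clen_isRotated (f := ang v) hrot
      rcases double_split e hMR with hs | ⟨R1, hU1, hR⟩
      · apply back U' hU'
        have hlU := congrArg List.length e
        simp at hlU
        cases U' with
        | nil => simp at hlU
        | cons a U0 =>
          simp only [List.cons_append, List.cons.injEq] at e
          exact ⟨a, by simp, by rw [← e.1]; exact hs⟩
      · subst hR
        obtain ⟨c1, c2, c3⟩ := cut_loop hA hC' hv'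
        have hrot2 : (s :: (R1 ++ z s :: (M.map z ++ z s :: R1.map z))) ~r
            (z s :: (M.map z ++ z s :: (R1.map z ++ s :: R1))) := by
          have := List.isRotated_append (l := s :: R1) (l' := z s :: (M.map z ++ z s :: R1.map z))
          simpa using this
        have d1 := CCh_isRotated hrot2 c1
        have d2 := mem_isRotated hrot2 c2
        have d3 := clen_isRotated (f := ang v) hrot2
        obtain ⟨f1, f2, f3⟩ := cut_loop hA d1 d2
        have hrot3 : (z s :: (R1.map z ++ s :: R1)) ~r ((s :: R1) ++ (s :: R1).map z) := by
          have := List.isRotated_append (l := (z s :: R1.map z)) (l' := s :: R1)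
          simpa using this
        have g1 := CCh_isRotated hrot3 f1
        have g2 := mem_isRotated hrot3 f2
        have g3 := clen_isRotated (f := ang v) hrot3
        have hl2 : U.length = M.length + R1.length + 2 := by
          rw [← hUl, hU1]; simp; omega
        obtain ⟨u, hu, hzu⟩ := IH (R1.length + 1) (by omega) (s :: R1) (by simp) (by simp) g1 g2
          (by linarith)
        refine back U' hU' ⟨u, ?_, hzu⟩
        rw [hU1]
        simp only [List.mem_cons, List.mem_append] at hu ⊢
        tauto
    rcases hA.step (by simp; omega) hC hv hlen with ⟨s, M, R, hr⟩ | ⟨a, b, c, R, hr, hac⟩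
    · rcases le_total M.length R.length with h | h
      · exact key s M R hr h
      · exact key s R M (hr.trans (by
          have := List.isRotated_append (l := s :: M) (l' := s :: R)
          simpa using this)) h
    · obtain ⟨U', e, hUl, hU'⟩ := rot_double hz hr
      have hC' := CCh_isRotated hr hC
      have hv' := mem_isRotated hr hv
      have hl' := clen_isRotated (f := ang v) hr
      match U', hUl, hU', e with
      | [], hUl, _, _ => simp at hUl; omega
      | [_], hUl, _, _ => simp at hUl; omega
      | [a', b'], hUl, _, e =>
        exfalso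
        simp only [List.map_cons, List.map_nil, List.cons_append, List.nil_append,
          List.cons.injEq] at e
        obtain ⟨rfl, rfl, rfl, _⟩ := e
        exact hni _ hac
      | a' :: b' :: c' :: R1, hUl, hU', e =>
        simp only [List.map_cons, List.cons_append, List.cons.injEq] at e
        obtain ⟨rfl, rfl, rfl, rfl⟩ := e
        obtain ⟨c1, c2, c3⟩ := cut_chord hA hC' hac hv'
        have hrot2 : (a :: c :: (R1 ++ z a :: z b :: z c :: R1.map z)) ~r
            (z a :: z b :: z c :: (R1.map z ++ a :: c :: R1)) := by
          have := List.isRotated_append (l := a :: c :: R1) (l' := z a :: z b :: z c :: R1.map z)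
          simpa using this
        have d1 := CCh_isRotated hrot2 c1
        have d2 := mem_isRotated hrot2 c2
        have d3 := clen_isRotated (f := ang v) hrot2
        obtain ⟨f1, f2, f3⟩ := cut_chord hA d1 (hadj _ _ hac) d2
        have hrot3 : (z a :: z c :: (R1.map z ++ a :: c :: R1)) ~r
            ((a :: c :: R1) ++ (a :: c :: R1).map z) := by
          have := List.isRotated_append (l := (z a :: z c :: R1.map z)) (l' := a :: c :: R1)
          simpa using this
        have g1 := CCh_isRotated hrot3 f1
        have g2 := mem_isRotated hrot3 f2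
        have g3 := clen_isRotated (f := ang v) hrot3
        simp only [List.length_cons] at hUl
        obtain ⟨u, hu, hzu⟩ := IH (R1.length + 2) (by omega) (a :: c :: R1) (by simp) (by simp)
          g1 g2 (by linarith)
        refine back _ hU' ⟨u, ?_, hzu⟩
        simp only [List.mem_cons] at hu ⊢
        tauto

/-- chords of a mirrored cycle -/
theorem mirror_chord [Inhabited V] {z : V → V}
    (hadj : ∀ a b, G.Adj a b → G.Adj (z a) (z b)) (hz : ∀ v, z (z v) = v)
    (hni : ∀ v, ¬ G.Adj v (z v)) {x y : V} {A : List V} (hA0 : A ≠ []) (zx : z x = x)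
    (zy : z y = y) {i : ℕ} (hi : i < (x :: (A ++ y :: (A.map z).reverse)).length)
    (h : G.Adj ((x :: (A ++ y :: (A.map z).reverse)).getD i default)
      ((x :: (A ++ y :: (A.map z).reverse)).getD
        ((i + 2) % (x :: (A ++ y :: (A.map z).reverse)).length) default)) :
    ∃ j, j + 2 < (x :: (A ++ [y])).length ∧ G.Adj ((x :: (A ++ [y])).getD j default)
      ((x :: (A ++ [y])).getD (j + 2) default) := by
  set C := x :: (A ++ y :: (A.map z).reverse) with hC
  set p := x :: (A ++ [y]) with hp
  have hAl := List.length_pos_iff.2 hA0
  have hN : C.length = 2 * A.length + 2 := by simp [hC]; omega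
  have hpl : p.length = A.length + 2 := by simp [hp]
  have hCp : C = p ++ (A.map z).reverse := by simp [hC, hp]
  have hpz : p.map z = x :: (A.map z ++ [y]) := by simp [hp, zx, zy]
  have hup : ∀ j, j ≤ A.length + 1 → C.getD j default = p.getD j default := by
    intro j hj
    rw [hCp]
    simp only [List.getD_eq_getElem?_getD]
    rw [List.getElem?_append_left (by omega)]
  have hlow : ∀ j, A.length + 1 ≤ j → j ≤ C.length →
      C.getD (j % C.length) default = z (p.getD (C.length - j) default) := by
    intro j hj1 hj2
    have hpzg : ∀ m, m < p.length → z (p.getD m default) = (p.map z).getD m default := by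
      intro m hm
      rw [List.getD_eq_getElem _ _ hm, List.getD_eq_getElem _ _ (by simpa using hm),
        List.getElem_map]
    have e1 : C ++ [x] = (x :: A) ++ (p.map z).reverse := by
      rw [hpz]; simp [hC]
    have e2 : C.getD (j % C.length) default = (C ++ [x]).getD j default := by
      rcases Nat.lt_or_ge j C.length with hlt | hge
      · rw [Nat.mod_eq_of_lt hlt]
        simp only [List.getD_eq_getElem?_getD]
        rw [List.getElem?_append_left hlt]
      · have : j = C.length := by omega
        subst this
        rw [Nat.mod_self]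
        simp only [List.getD_eq_getElem?_getD]
        rw [List.getElem?_append_right (le_refl _), Nat.sub_self]
        simp [hC]
    rw [e2, e1, hpzg _ (by omega)]
    simp only [List.getD_eq_getElem?_getD]
    rw [List.getElem?_append_right (by simpa using hj1),
      List.getElem?_reverse (by rw [List.length_map, hpl, List.length_cons]; omega)]
    congr 2
    rw [List.length_map, hpl, List.length_cons]
    omega
  rcases Nat.lt_or_ge (i + 1) (A.length + 1) with h1 | h1
  · -- i < |A|
    rcases Nat.lt_or_ge (i + 2) C.length with h2 | h2
    · rw [Nat.mod_eq_of_lt h2, hup i (by omega), hup (i + 2) (by omega)] at h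
      exact ⟨i, by omega, h⟩
    · omega
  · rcases Nat.eq_or_lt_of_le h1 with h1 | h1
    · -- i = |A|
      exfalso
      rw [hup i (by omega), hlow (i + 2) (by omega) (by omega)] at h
      have : C.length - (i + 2) = i := by omega
      rw [this] at h
      exact hni _ h
    · -- i > |A|
      rcases Nat.lt_or_ge C.length (i + 2) with h3 | h3
      · -- i + 1 = N
        exfalso
        have h4 : C.length = i + 1 := by omega
        have h5 : (i + 2) % C.length = 1 := by
          rw [h4]
          have : i + 2 = 1 + (i + 1) := by omega
          rw [this, Nat.add_mod_right]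
          exact Nat.mod_eq_of_lt (by omega)
        have h6 := hlow i (by omega) (by omega)
        rw [Nat.mod_eq_of_lt hi] at h6
        rw [h5, h6, hup 1 (by omega)] at h
        have : C.length - i = 1 := by omega
        rw [this] at h
        exact hni _ h.symm
      · have h6 := hlow i (by omega) (by omega)
        rw [Nat.mod_eq_of_lt hi] at h6
        rw [h6, hlow (i + 2) (by omega) h3] at h
        have h7 := hadj _ _ h
        rw [hz, hz] at h7
        refine ⟨C.length - (i + 2), by omega, ?_⟩
        have : C.length - (i + 2) + 2 = C.length - i := by omega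
        rw [this]
        exact h7.symm

end Pool.Agent.H351
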