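import Pool.Agent.H351.FixSC

namespace Pool.Agent.H351

open scoped BigOperators Real

variable {V : Type*} {G : SimpleGraph V} {ang : V → V → V → ℝ}

theorem two_mem {α : Type*} {A : List α} {a b : α} (ha : a ∈ A) (hb : b ∈ A) (hab : a ≠ b) :
    (∃ A1 A2 A3, A = A1 ++ a :: (A2 ++ b :: A3)) ∨ (∃ A1 A2 A3, A = A1 ++ b :: (A2 ++ a :: A3)) := by
  obtain ⟨s, t, rfl⟩ := List.append_of_mem ha
  rcases List.mem_append.1 hb with h | h
  · obtain ⟨s1, s2, rfl⟩ := List.append_of_mem h
    right
    exact ⟨s1, s2, t, by simp⟩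
  · rcases List.mem_cons.1 h with h | h
    · exact absurd h.symm hab
    · obtain ⟨t1, t2, rfl⟩ := List.append_of_mem h
      left
      exact ⟨s, t1, t2, rfl⟩

theorem plen_link_nonneg (hA : AngSys G ang) {s : V} {l : List V} (hl : Ch G l)
    (hs : ∀ u ∈ l, G.Adj s u) : 0 ≤ plen (ang s) l :=
  plen_nonneg (S := fun u => G.Adj s u) (fun _ _ ha hb hab => (hA.pos _ _ _ ha hb hab).le) hl hs

theorem twist_path (hA : AngSys G ang) {z : V → V} (hz : ∀ v, z (z v) = v)
    (hadj : ∀ a b, G.Adj a b → G.Adj (z a) (z b))
    (hang : ∀ v a b, G.Adj v a → G.Adj v b → G.Adj a b → ang (z v) (z a) (z b) = ang v a b)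
    (hni : ∀ v, ¬ G.Adj v (z v)) {s : V} (zs : z s = s) {b : V} {A2 : List V}
    (hch : Ch G ((b :: A2) ++ [z b])) (hs : ∀ u ∈ (b :: A2) ++ [z b], G.Adj s u)
    (hlen : plen (ang s) ((b :: A2) ++ [z b]) < π) : ∃ u ∈ b :: A2, z u = u := by
  have e5 : z b :: (A2.map z ++ [b]) = ((b :: A2) ++ [z b]).map z := by simp [hz]
  have h3 := Ch_map hadj hch
  have hCU : CCh G ((b :: A2) ++ (b :: A2).map z) := by
    have h4 : Ch G ((b :: A2) ++ z b :: (A2.map z ++ [b])) := by
      rw [Ch_append]
      refine ⟨hch, ?_⟩
      rw [e5]; exact h3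
    simpa [CCh] using h4
  have hclU : clen (ang s) ((b :: A2) ++ (b :: A2).map z) =
      plen (ang s) ((b :: A2) ++ [z b]) + plen (ang s) ((b :: A2) ++ [z b]) := by
    have e4 : clen (ang s) ((b :: A2) ++ (b :: A2).map z) =
        plen (ang s) ((b :: A2) ++ z b :: (A2.map z ++ [b])) := by simp [clen]
    rw [e4, plen_append, e5]
    congr 1
    exact plen_map (fun u => G.Adj s u) (fun a b hab ha hb => by
      have := hang s a b ha hb hab
      rwa [zs] at this) _ hch hs
  refine twist hA hz hadj hni (v := s) _ (b :: A2) rfl (by simp) hCU (fun u hu => ?_)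
    (by rw [hclU]; linarith)
  rcases List.mem_append.1 hu with hu | hu
  · exact hs u (List.mem_append_left _ hu)
  · obtain ⟨w, hw, rfl⟩ := List.mem_map.1 hu
    have := hadj _ _ (hs w (List.mem_append_left _ hw))
    rwa [zs] at this

theorem no_swap (hA : AngSys G ang) {z : V → V} (hz : ∀ v, z (z v) = v)
    (hadj : ∀ a b, G.Adj a b → G.Adj (z a) (z b))
    (hang : ∀ v a b, G.Adj v a → G.Adj v b → G.Adj a b → ang (z v) (z a) (z b) = ang v a b)
    (hni : ∀ v, ¬ G.Adj v (z v)) {s x y : V} (zs : z s = s) {A : List V}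
    (hp : Ch G (x :: (A ++ [y]))) (hs : ∀ u ∈ x :: (A ++ [y]), G.Adj s u)
    (hlen : plen (ang s) (x :: (A ++ [y])) < π) (hnofix : ∀ u ∈ A, z u ≠ u) :
    ∀ a ∈ A, z a ∈ A → False := by
  intro a ha hza
  have hne : a ≠ z a := fun h => hnofix a ha h.symm
  have hmain : ∀ b A1 A2 A3, A = A1 ++ b :: (A2 ++ z b :: A3) → False := by
    intro b A1 A2 A3 hAe
    have e2 : x :: (A ++ [y]) = (x :: A1) ++ b :: (A2 ++ z b :: (A3 ++ [y])) := by
      rw [hAe]; simp
    rw [e2] at hp hs hlen
    rw [Ch_append] at hp
    have h2 : Ch G ((b :: A2) ++ z b :: (A3 ++ [y])) := hp.2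
    rw [Ch_append] at h2
    have hp1 := plen_append (f := ang s) (l1 := x :: A1) (l2 := A2 ++ z b :: (A3 ++ [y])) (x := b)
    have hp2 : plen (ang s) (b :: (A2 ++ z b :: (A3 ++ [y]))) =
        plen (ang s) ((b :: A2) ++ [z b]) + plen (ang s) (z b :: (A3 ++ [y])) :=
      plen_append (f := ang s) (l1 := b :: A2) (l2 := A3 ++ [y]) (x := z b)
    have n1 := plen_link_nonneg (s := s) hA hp.1 (fun u hu => hs u (by
      simp only [List.mem_cons, List.mem_append, List.cons_append] at hu ⊢; tauto))
    have n2 := plen_link_nonneg (s := s) hA h2.2 (fun u hu => hs u (by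
      simp only [List.mem_cons, List.mem_append, List.cons_append] at hu ⊢; tauto))
    have hsU : ∀ u ∈ (b :: A2) ++ [z b], G.Adj s u := fun u hu => hs u (by
      simp only [List.mem_cons, List.mem_append, List.cons_append] at hu ⊢; tauto)
    obtain ⟨u, hu, zu⟩ := twist_path hA hz hadj hang hni zs h2.1 hsU (by linarith)
    refine hnofix u ?_ zu
    rw [hAe]
    simp only [List.mem_cons, List.mem_append] at hu ⊢
    tauto
  rcases two_mem ha hza hne with ⟨A1, A2, A3, h⟩ | ⟨A1, A2, A3, h⟩
  · exact hmain a A1 A2 A3 h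
  · exact hmain (z a) A1 A2 A3 (by rw [hz]; exact h)

/-- short paths in the link of a fixed vertex, between fixed vertices, can be moved into the fixed
set -/
theorem short_fixed (hA : AngSys G ang) {z : V → V} (hz : ∀ v, z (z v) = v)
    (hadj : ∀ a b, G.Adj a b → G.Adj (z a) (z b))
    (hang : ∀ v a b, G.Adj v a → G.Adj v b → G.Adj a b → ang (z v) (z a) (z b) = ang v a b)
    (hni : ∀ v, ¬ G.Adj v (z v)) {s : V} (zs : z s = s) :
    ∀ k (p : List V) (x y : V), p.length = k → Ch G p → (∀ u ∈ p, G.Adj s u) →
      plen (ang s) p < π → p.head? = some x → p.getLast? = some y → z x = x → z y = y →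
      ∃ q : List V, Ch G q ∧ (∀ u ∈ q, G.Adj s u ∧ z u = u) ∧ q.head? = some x ∧
        q.getLast? = some y ∧ q.length ≤ p.length ∧ Hq G p q (p.length - q.length) := by
  intro k
  induction k using Nat.strong_induction_on with
  | _ k IH =>
  intro p x y hk hp hs hlen hx hy zx zy
  by_cases hfix : ∃ L1 u L2, p = L1 ++ u :: L2 ∧ L1 ≠ [] ∧ L2 ≠ [] ∧ z u = u
  · -- split at an interior fixed vertex
    obtain ⟨L1, u, L2, rfl, h1, h2, zu⟩ := hfix
    have l1 := List.length_pos_iff.2 h1
    have l2 := List.length_pos_iff.2 h2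
    rw [plen_append] at hlen
    rw [Ch_append] at hp
    have hs1 : ∀ w ∈ L1 ++ [u], G.Adj s w := fun w hw => hs w (by
      simp only [List.mem_append, List.mem_cons, List.not_mem_nil, or_false] at hw ⊢; tauto)
    have hs2 : ∀ w ∈ u :: L2, G.Adj s w := fun w hw => hs w (by
      simp only [List.mem_append, List.mem_cons] at hw ⊢; tauto)
    have n1 := plen_link_nonneg hA hp.1 hs1
    have n2 := plen_link_nonneg hA hp.2 hs2
    simp only [List.length_append, List.length_cons] at hk
    obtain ⟨q1, a1, a2, a3, a4, a5, a6⟩ := IH (L1.length + 1) (by omega) (L1 ++ [u]) x u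
      (by simp) hp.1 hs1 (by linarith) (by rw [head_app (F := L2)]; exact hx) (by simp) zx zu
    obtain ⟨q2, b1, b2, b3, b4, b5, b6⟩ := IH (L2.length + 1) (by omega) (u :: L2) u y
      (by simp) hp.2 hs2 (by linarith) rfl (by
        have := last_app (X1 := []) (Y1 := L1) (s := u) (E := L2)
        rw [List.nil_append] at this
        rw [this]; exact hy) zu zy
    obtain ⟨Q1, rfl⟩ : ∃ Q1, q1 = Q1 ++ [u] := by
      rcases List.eq_nil_or_concat q1 with rfl | ⟨Q, b, rfl⟩
      · simp at a4
      · rw [List.concat_eq_append] at a4 ⊢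
        rw [List.getLast?_append] at a4
        have : b = u := by simpa using a4
        exact ⟨Q, by rw [this]⟩
    obtain ⟨Q2, rfl⟩ : ∃ Q2, q2 = u :: Q2 := by
      cases q2 with
      | nil => simp at b3
      | cons b Q => simp at b3; exact ⟨Q, by rw [b3]⟩
    refine ⟨Q1 ++ u :: Q2, ?_, ?_, ?_, ?_, ?_, ?_⟩
    · rw [Ch_append]; exact ⟨a1, b1⟩
    · intro w hw
      rcases List.mem_append.1 hw with hw | hw
      · exact a2 w (by simp [hw])
      · exact b2 w hw
    · rw [head_app (F := [])]; exact a3
    · have := last_app (X1 := Q1) (Y1 := []) (s := u) (E := Q2)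
      rw [List.nil_append] at this
      rw [this]; exact b4
    · simp only [List.length_append, List.length_cons, List.length_nil] at a5 b5 ⊢
      omega
    · have c1 := a6.ctx [] L2
      have c2 := b6.ctx Q1 []
      have c3 : Hq G (L1 ++ u :: L2) (Q1 ++ u :: L2) ((L1 ++ [u]).length - (Q1 ++ [u]).length) :=
        c1.congr (by simp) (by simp)
      have c4 : Hq G (Q1 ++ u :: L2) (Q1 ++ u :: Q2) ((u :: L2).length - (u :: Q2).length) :=
        c2.congr (by simp) (by simp)
      refine (c3.trans c4).mono ?_
      simp only [List.length_append, List.length_cons, List.length_nil] at a5 b5 ⊢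
      omega
  by_cases hnd : p.Nodup
  swap
  · -- a repeated vertex
    obtain ⟨L1, a, M, R, rfl⟩ := exists_repeat hnd
    have hp0 := hp
    rw [Ch_append] at hp
    have hp2 : Ch G ((a :: M) ++ a :: R) := hp.2
    rw [Ch_append] at hp2
    rw [plen_append] at hlen
    have hlen2 : plen (ang s) (a :: (M ++ a :: R)) = plen (ang s) ((a :: M) ++ a :: R) := rfl
    have hlen3 := plen_append (f := ang s) (l1 := a :: M) (l2 := R) (x := a)
    have hs1 : ∀ w ∈ L1 ++ [a], G.Adj s w := fun w hw => hs w (by
      simp only [List.mem_append, List.mem_cons, List.not_mem_nil, or_false] at hw ⊢; tauto)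
    have hs2 : ∀ w ∈ (a :: M) ++ [a], G.Adj s w := fun w hw => hs w (by
      simp only [List.mem_append, List.mem_cons, List.not_mem_nil, or_false] at hw ⊢; tauto)
    have hs3 : ∀ w ∈ a :: R, G.Adj s w := fun w hw => hs w (by
      simp only [List.mem_append, List.mem_cons] at hw ⊢; tauto)
    have n1 := plen_link_nonneg hA hp.1 hs1
    have n2 := plen_link_nonneg hA hp2.1 hs2
    have n3 := plen_link_nonneg hA hp2.2 hs3
    have hM0 : M ≠ [] := by
      rintro rfl
      simp at hp2
    have lM := List.length_pos_iff.2 hM0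
    have hcc : CCh G (a :: M) := hp2.1
    have hcl : clen (ang s) (a :: M) = plen (ang s) ((a :: M) ++ [a]) := rfl
    have hfill := hA.fill (v := s) _ _ rfl hcc (fun w hw => hs2 w (by
      simp only [List.mem_append, List.mem_cons] at hw ⊢; tauto)) (by
        rw [hcl]; have := Real.pi_pos; linarith)
    have hloop : Hq G (a :: ((M ++ [a]) ++ R)) (a :: R) ((a :: M).length - 2) :=
      Hq.loop hfill.toCl' R
    simp only [List.length_append, List.length_cons] at hk
    have hplen : plen (ang s) (L1 ++ a :: R) < π := by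
      rw [plen_append]; linarith
    obtain ⟨q, a1, a2, a3, a4, a5, a6⟩ := IH (L1.length + (R.length + 1)) (by omega)
      (L1 ++ a :: R) x y (by simp) (by rw [Ch_append]; exact ⟨hp.1, hp2.2⟩) (fun w hw => hs w (by
        simp only [List.mem_append, List.mem_cons] at hw ⊢; tauto)) hplen
      (by rw [head_app (F := M ++ a :: R)]; exact hx) (by
        rw [last_app (Y1 := L1 ++ a :: M)]; simpa using hy) zx zy
    refine ⟨q, a1, a2, a3, a4, ?_, ?_⟩
    · simp only [List.length_append, List.length_cons] at a5 ⊢
      omega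
    · have c1 : Hq G (L1 ++ a :: (M ++ a :: R)) (L1 ++ a :: R) ((a :: M).length - 2) :=
        (hloop.ctx L1 []).congr (by simp) (by simp)
      refine (c1.trans a6).mono ?_
      simp only [List.length_append, List.length_cons] at a5 ⊢
      omega
  -- short cases
  have hcase : (∃ a, p = [a]) ∨ (∃ a b, p = [a, b]) ∨ 3 ≤ p.length := by
    match p, hx with
    | [], hx => simp at hx
    | [a], _ => exact Or.inl ⟨a, rfl⟩
    | [a, b], _ => exact Or.inr (Or.inl ⟨a, b, rfl⟩)
    | a :: b :: c :: l, _ => exact Or.inr (Or.inr (by simp))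
  rcases hcase with ⟨a, rfl⟩ | ⟨a, b, rfl⟩ | h3
  · refine ⟨[a], by simp, ?_, hx, hy, le_rfl, Hq.refl _ _⟩
    intro u hu
    simp only [List.mem_singleton] at hu
    subst hu
    simp at hx
    exact ⟨hs _ (by simp), by rw [hx]; exact zx⟩
  · refine ⟨[a, b], hp, ?_, hx, hy, le_rfl, Hq.refl _ _⟩
    intro u hu
    refine ⟨hs u hu, ?_⟩
    simp at hx hy
    simp only [List.mem_cons, List.not_mem_nil, or_false] at hu
    rcases hu with rfl | rfl
    · rw [hx]; exact zx
    · rw [hy]; exact zy
  · have hxy : x ≠ y := by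
      rintro rfl
      cases p with
      | nil => simp at h3
      | cons a l =>
        simp only [List.head?_cons, Option.some.injEq] at hx
        subst hx
        cases l with
        | nil => simp at h3
        | cons b l =>
          rw [List.getLast?_cons_cons] at hy
          exact (List.nodup_cons.1 hnd).1 (List.mem_of_getLast? hy)
    obtain ⟨A, hpA⟩ := path_form hx hy hxy
    have hA0 : A ≠ [] := by
      rintro rfl
      rw [hpA] at h3
      simp at h3
    have hAl := List.length_pos_iff.2 hA0
    have hnofix : ∀ u ∈ A, z u ≠ u := by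
      intro u hu zu
      obtain ⟨A1, A2, rfl⟩ := List.append_of_mem hu
      exact hfix ⟨x :: A1, u, A2 ++ [y], by rw [hpA]; simp, by simp, by simp, zu⟩
    subst hpA
    have : Inhabited V := ⟨x⟩
    have hzlink : ∀ u, G.Adj s u → G.Adj s (z u) := fun u hu => by
      have := hadj _ _ hu; rwa [zs] at this
    have hmapP : (x :: (A ++ [y])).map z = x :: (A.map z ++ [y]) := by simp [zx, zy]
    have hpm : plen (ang s) (x :: (A.map z ++ [y])) = plen (ang s) (x :: (A ++ [y])) := by
      rw [← hmapP]
      exact plen_map (fun u => G.Adj s u) (fun a b hab ha hb => by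
        have := hang s a b ha hb hab
        rwa [zs] at this) _ hp hs
    have hCh : Ch G (x :: (A.map z ++ [y])) := by rw [← hmapP]; exact Ch_map hadj hp
    have hsm : ∀ u ∈ x :: (A.map z ++ [y]), G.Adj s u := by
      intro u hu
      rw [← hmapP, List.mem_map] at hu
      obtain ⟨w, hw, rfl⟩ := hu
      exact hzlink _ (hs w hw)
    have hC : CCh G (x :: (A ++ y :: (A.map z).reverse)) := by
      have h1 : Ch G ((x :: A) ++ y :: ((A.map z).reverse ++ [x])) := by
        rw [Ch_append]
        refine ⟨by simpa using hp, ?_⟩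
        have := Ch_reverse hCh
        simpa using this
      simpa [CCh] using h1
    have hCl : clen (ang s) (x :: (A ++ y :: (A.map z).reverse)) =
        plen (ang s) (x :: (A ++ [y])) + plen (ang s) (x :: (A ++ [y])) := by
      have e1 : clen (ang s) (x :: (A ++ y :: (A.map z).reverse)) =
          plen (ang s) ((x :: A) ++ y :: ((A.map z).reverse ++ [x])) := by simp [clen]
      rw [e1, plen_append]
      have e2 : y :: ((A.map z).reverse ++ [x]) = (x :: (A.map z ++ [y])).reverse := by simp
      rw [e2, plen_reverse (hA.symm s), hpm]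
      rfl
    have hvC : ∀ u ∈ x :: (A ++ y :: (A.map z).reverse), G.Adj s u := by
      intro u hu
      simp only [List.mem_cons, List.mem_append, List.mem_reverse] at hu
      rcases hu with rfl | hu | rfl | hu
      · exact hs _ (by simp)
      · exact hs _ (by simp [hu])
      · exact hs _ (by simp)
      · exact hsm _ (by simp only [List.mem_cons, List.mem_append]; tauto)
    rcases hA.step' (by simp; omega) hC hvC (by rw [hCl]; linarith) with hrep | ⟨i, hi, hadj2⟩
    · -- a repeated vertex: impossible
      exfalso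
      have hzinj : Function.Injective z := fun a b hab => by
        rw [← hz a, hab, hz]
      have e1 : x :: (A ++ y :: (A.map z).reverse) = (x :: (A ++ [y])) ++ (A.map z).reverse := by
        simp
      rw [e1, List.nodup_append] at hrep
      have hAnd : A.Nodup := by
        have h1 := (List.nodup_cons.1 hnd).2
        exact (List.nodup_append.1 h1).1
      have hxA : x ∉ A := fun h => (List.nodup_cons.1 hnd).1 (by simp [h])
      have hyA : y ∉ A := fun h => by
        have h1 := (List.nodup_cons.1 hnd).2
        exact (List.nodup_append.1 h1).2.2 y h y (by simp) rfl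
      have hzA := no_swap hA hz hadj hang hni zs hp hs hlen hnofix
      apply hrep
      refine ⟨hnd, List.nodup_reverse.2 (hAnd.map hzinj), ?_⟩
      intro u hu w hw huw
      subst huw
      rw [List.mem_reverse, List.mem_map] at hw
      obtain ⟨a, ha, rfl⟩ := hw
      simp only [List.mem_cons, List.mem_append, List.not_mem_nil, or_false] at hu
      rcases hu with hu | hu | hu
      · apply hxA
        have : a = x := by rw [← hz a, hu, zx]
        rwa [← this]
      · exact hzA a ha hu
      · apply hyA
        have : a = y := by rw [← hz a, hu, zy]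
        rwa [← this]
    · -- a chord
      obtain ⟨j, hj, hch⟩ := mirror_chord hadj hz hni hA0 zx zy hi hadj2
      set p := x :: (A ++ [y]) with hpdef
      obtain ⟨L1, a', b', c', L2, hpe', hac⟩ : ∃ L1 a b c L2, p = L1 ++ a :: b :: c :: L2 ∧
          G.Adj a c := by
        refine ⟨p.take j, p[j], p[j+1], p[j+2], p.drop (j+3), ?_, ?_⟩
        · rw [← List.drop_eq_getElem_cons, ← List.drop_eq_getElem_cons,
            ← List.drop_eq_getElem_cons, List.take_append_drop]
        · rw [List.getD_eq_getElem _ _ (by omega), List.getD_eq_getElem _ _ (by omega)] at hch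
          exact hch
      clear_value p
      subst hpe'
      rw [Ch_append] at hp
      have hp2 := hp.2
      simp only [Ch_cons2] at hp2
      rw [plen_append] at hlen
      simp only [plen_cons2] at hlen
      have htri := hA.tri s a' b' c' (hs _ (by simp)) (hs _ (by simp)) (hs _ (by simp))
        hp2.1 hp2.2.1 hac
      simp only [List.length_append, List.length_cons] at hk
      obtain ⟨q, a1, a2, a3, a4, a5, a6⟩ := IH (L1.length + (L2.length + 2)) (by omega)
        (L1 ++ a' :: c' :: L2) x y (by simp) (by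
          rw [Ch_append]; exact ⟨hp.1, hac, hp2.2.2⟩) (fun w hw => hs w (by
          simp only [List.mem_append, List.mem_cons] at hw ⊢; tauto)) (by
          rw [plen_append]; simp only [plen_cons2]; linarith)
        (by rw [head_app (F := b' :: c' :: L2)]; exact hx) (by
          have e1 : L1 ++ a' :: c' :: L2 = (L1 ++ [a']) ++ c' :: L2 := by simp
          have e2 : L1 ++ a' :: b' :: c' :: L2 = (L1 ++ [a', b']) ++ c' :: L2 := by simp
          rw [e1, last_app (Y1 := L1 ++ [a', b']), ← e2]; exact hy) zx zy
      refine ⟨q, a1, a2, a3, a4, ?_, ?_⟩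
      · simp only [List.length_append, List.length_cons] at a5 ⊢
        omega
      · have c1 : Hq G (L1 ++ a' :: b' :: c' :: L2) (L1 ++ a' :: c' :: L2) 1 :=
          ((Hq.tri hp2.1 hp2.2.1 hac).ctx L1 L2).congr (by simp) (by simp)
        refine (c1.trans a6).mono ?_
        simp only [List.length_append, List.length_cons] at a5 ⊢
        omega

end Pool.Agent.H351
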