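import Pool.Agent.H351.FixSC2

namespace Pool.Agent.H351

open scoped BigOperators Real

variable {V : Type*} {G : SimpleGraph V} {ang : V → V → V → ℝ}

theorem exists_small : ∀ (D : List (Ent V)), 0 < dsum D → ∃ P1 d P2, D = P1 ++ d :: P2 ∧ d.E < π := by
  intro D
  induction D with
  | nil => intro h; simp at h
  | cons d D ih =>
    intro h
    by_cases hd : d.E < π
    · exact ⟨[], d, D, rfl, hd⟩
    · rw [dsum_cons] at h
      obtain ⟨P1, d', P2, h1, h2⟩ := ih (by linarith)
      exact ⟨d :: P1, d', P2, by simp [h1], h2⟩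

theorem sc_core (hA : AngSys G ang) {z : V → V} (hz : ∀ v, z (z v) = v)
    (hadj : ∀ a b, G.Adj a b → G.Adj (z a) (z b))
    (hang : ∀ v a b, G.Adj v a → G.Adj v b → G.Adj a b → ang (z v) (z a) (z b) = ang v a b)
    (hni : ∀ v, ¬ G.Adj v (z v)) :
    ∀ n k (W : List V), W.length = k → (∀ v ∈ W, z v = v) → Cyc G W n →
      ∃ m, Cyc (res G {v | z v = v}) W m := by
  intro n
  induction n using Nat.strong_induction_on with
  | _ n IHn =>
  intro k
  induction k using Nat.strong_induction_on with
  | _ k IHk =>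
  intro W hk hfix hW
  by_cases hmin : ∃ m < n, Cyc G W m
  · obtain ⟨m, hm, hc⟩ := hmin
    exact IHn m hm _ W rfl hfix hc
  by_cases hsp : ∃ s M R n1 n2, W ~r (s :: (M ++ s :: R)) ∧ Cl G (s :: (M ++ [s])) n1 ∧
      Cl G (s :: (R ++ [s])) n2 ∧ n1 + n2 ≤ n
  · obtain ⟨s, M, R, n1, n2, hr, h1, h2, h12⟩ := hsp
    have hl := hr.perm.length_eq
    simp only [List.length_cons, List.length_append] at hl
    have hf := mem_isRotated hr (P := fun v => z v = v) hfix
    have hM0 : M.length + 1 < k := by omega
    have hR0 : R.length + 1 < k := by omega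
    obtain ⟨m1, c1⟩ := IHk _ hM0 (s :: M) (by simp) (fun v hv => hf v (by
      simp only [List.mem_cons, List.mem_append] at hv ⊢; tauto))
      (Cyc.mono (Cyc.ofCl h1) (by omega : n1 ≤ n))
    obtain ⟨m2, c2⟩ := IHk _ hR0 (s :: R) (by simp) (fun v hv => hf v (by
      simp only [List.mem_cons, List.mem_append] at hv ⊢; tauto))
      (Cyc.mono (Cyc.ofCl h2) (by omega : n2 ≤ n))
    exact ⟨m1 + m2, (c1.conc c2).isRotated hr.symm⟩
  rcases Nat.lt_or_ge W.length 3 with h3 | h3
  · match W, h3, hfix, hW with
    | [], _, _, _ => exact ⟨0, trivial⟩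
    | [a], _, _, hW => exact absurd hW (fun h => h.not_single)
    | [a, b], _, hfix, hW =>
      have hab : G.Adj a b := Cl.adj hW.toCl'
      exact ⟨0, Cyc.spur ⟨hab, hfix a (by simp), hfix b (by simp)⟩⟩
    | a :: b :: c :: l, h3, _, _ => simp at h3; omega
  · have hU : Unsplit G W n := by
      apply unsplit_of_rot hW
      · intro m hm
        by_contra hlt
        exact hmin ⟨m, by omega, hm⟩
      · intro s M R hr n1 n2 h1 h2
        by_contra hlt
        exact hsp ⟨s, M, R, n1, n2, hr, h1, h2, by omega⟩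
    obtain ⟨D, hD⟩ := fan_theorem hA n W h3 hU
    obtain ⟨P1, d, P2, rfl, hdE⟩ := exists_small D (by
      have := hD.sum; have := Real.pi_pos; linarith)
    have hDm := hD.map
    have hDl : (P1 ++ d :: P2).length = W.length := by rw [← hDm]; simp
    have hrot : W ~r (d.v :: (P2 ++ P1).map Ent.v) := by
      rw [← hDm]
      have := List.isRotated_append (l := P1.map Ent.v) (l' := d.v :: P2.map Ent.v)
      simpa using this
    have hD' : Good G ang (d :: (P2 ++ P1)) (((d :: P2) ++ P1).map Ent.v) n := hD.rot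
    have hfix' := mem_isRotated hrot (P := fun v => z v = v) hfix
    have hDRl : 2 ≤ (P2 ++ P1).length := by
      simp only [List.length_append, List.length_cons] at hDl ⊢
      omega
    have hsp' : ∀ s M R n1 n2, W ~r (s :: (M ++ s :: R)) → Cl G (s :: (M ++ [s])) n1 →
        Cl G (s :: (R ++ [s])) n2 → n < n1 + n2 := by
      intro s M R n1 n2 hr h1 h2
      by_contra hlt
      exact hsp ⟨s, M, R, n1, n2, hr, h1, h2, by omega⟩
    obtain ⟨ey, DR1, hDR1⟩ : ∃ ey DR1, P2 ++ P1 = ey :: DR1 := by
      cases h : P2 ++ P1 with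
      | nil => rw [h] at hDRl; simp at hDRl
      | cons a b => exact ⟨a, b, rfl⟩
    obtain ⟨DM, ex, hDR2⟩ : ∃ DM ex, DR1 = DM ++ [ex] := by
      rcases List.eq_nil_or_concat DR1 with h | ⟨a, b, h⟩
      · rw [hDR1, h] at hDRl; simp at hDRl
      · exact ⟨a, b, by simpa using h⟩
    rw [hDR1, hDR2] at hrot hfix' hD'
    obtain ⟨_, hok, _, hmarks⟩ := hD'
    have hfan : Fan G ang (lst d.v (ey :: (DM ++ [ex]))) d (hd (ey :: (DM ++ [ex])) d.v) := hok.1
    simp only [lst_cons, lst_append, lst_nil, hd_cons] at hfan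
    obtain ⟨f1, f2, f3⟩ := hfan
    obtain ⟨m, hm, hc⟩ := hmarks ((d, true) :: um (ey :: (DM ++ [ex]))) (by simp) (by
      have := @indep_single V G [] (ey :: (DM ++ [ex])) d
      simpa [um] using this)
    simp only [cost_cons_true, cost_um, sub_cons_true, sub_um] at hm hc
    set x := ex.v with hx
    set y := ey.v with hy
    set s := d.v with hs
    set B := DM.map Ent.v with hB
    have hBe : (ey :: (DM ++ [ex])).map Ent.v = y :: (B ++ [x]) := by
      rw [List.map_cons, List.map_append]; rfl
    rw [hBe] at hrot hfix' hc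
    have hrot1 : W ~r (s :: y :: (B ++ [x])) := hrot
    have hfix1 : ∀ v ∈ s :: y :: (B ++ [x]), z v = v := hfix'
    have hc1 : Cl G (x :: (d.S ++ y :: (B ++ [x]))) m := by
      have h1 : Cyc G ((d.S ++ y :: B) ++ [x]) m := hc.congr (by simp)
      exact h1.rot.toCl'.congr (by simp)
    have zs : z s = s := hfix1 s (by simp)
    have zy : z y = y := hfix1 y (by simp)
    have zx : z x = x := hfix1 x (by simp)
    have hxy : x ≠ y := by
      intro hxy
      have hW1 : Cl G ([] ++ y :: s :: y :: (B ++ [y])) n := by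
        have h1 : Cyc G ((s :: y :: B) ++ [x]) n := (hW.isRotated hrot1).congr (by simp)
        rw [hxy] at h1
        exact h1.rot.toCl'.congr (by simp)
      have h2 := hW1.unspur
      have h3 : G.Adj y s := Cl.adj hW1
      have := hsp' y [s] B 0 n (hrot1.trans (by
        rw [hxy]
        have := List.isRotated_append (l := s :: y :: B) (l' := [y])
        simpa using this)) (Cl.spur h3 0) h2
      omega
    obtain ⟨q, q1, q2, q3, q4, q5, q6⟩ := short_fixed hA hz hadj hang hni zs _
      (x :: (d.S ++ [y])) x y rfl f1 f2 (by rw [f3]; exact hdE) rfl last_path zx zy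
    obtain ⟨T, rfl⟩ := path_form q3 q4 hxy
    simp only [List.length_cons, List.length_append, List.length_nil] at q5 q6
    have hnew : Cl G (x :: (T ++ y :: (B ++ [x]))) (m + (d.S.length - T.length)) := by
      have h1 := q6.1 [] (B ++ [x]) m (hc1.congr (by simp))
      exact (h1.congr (by simp)).mono (by omega)
    have hnew' : Cyc G (x :: (T ++ y :: B)) (m + (d.S.length - T.length)) :=
      Cyc.ofCl (hnew.congr (by simp))
    obtain ⟨m', hm'⟩ := IHn _ (by omega) _ _ rfl (fun v hv => by
      simp only [List.mem_cons, List.mem_append] at hv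
      rcases hv with rfl | hv | rfl | hv
      · exact zx
      · exact (q2 v (by simp [hv])).2
      · exact zy
      · exact hfix1 v (by simp [hv])) hnew'
    -- coning off in the fixed set
    have hresT : Ch (res G {v | z v = v}) (x :: (T ++ [y])) := by
      have : ∀ l : List V, Ch G l → (∀ u ∈ l, z u = u) → Ch (res G {v | z v = v}) l := by
        intro l
        induction l with
        | nil => intros; trivial
        | cons a l ih =>
          intro h1 h2
          cases l with
          | nil => trivial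
          | cons b l =>
            simp only [Ch_cons2] at h1 ⊢
            exact ⟨⟨h1.1, h2 a (by simp), h2 b (by simp)⟩,
              ih h1.2 (fun u hu => h2 u (by simp only [List.mem_cons] at hu ⊢; tauto))⟩
      exact this _ q1 (fun u hu => (q2 u hu).2)
    have hcone := Cl.cone (s := s) hresT (fun u hu => ⟨(q2 u hu).1, zs, (q2 u hu).2⟩)
    have hH : Hp (res G {v | z v = v}) (x :: (T ++ [y])) (x :: ([s] ++ [y])) (T.length + 1) := by
      apply Hp.of_cl
      exact hcone.reverse.congr (by simp)
    have h5 : Cl (res G {v | z v = v}) ([] ++ ((x :: (T ++ [y])) ++ (B ++ [x]))) m' :=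
      hm'.toCl'.congr (by simp)
    have h6 := hH [] (B ++ [x]) m' h5
    have h7 : Cyc (res G {v | z v = v}) ([x] ++ (s :: y :: B)) (m' + (T.length + 1)) :=
      Cyc.ofCl (h6.congr (by simp))
    exact ⟨_, (h7.rot.congr (by simp : _ = s :: y :: (B ++ [x]))).isRotated hrot1.symm⟩

end Pool.Agent.H351
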