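import Pool.Agent.H351.Path

/-!
An involution of a simply connected angled flag complex fixes a vertex or swaps the two ends of an
edge.
-/

namespace Pool.Agent.H351

open scoped BigOperators Real

variable {V : Type*} {G : SimpleGraph V} {ang : V → V → V → ℝ}

theorem lst_eq : ∀ (D : List (Ent V)) (x : V), lst x D = (D.map Ent.v).getLastD x := by
  intro D
  induction D with
  | nil => intro x; rfl
  | cons d D ih =>
    intro x
    rw [lst_cons, ih, List.map_cons, List.getLastD_cons]

theorem hd_eq (D : List (Ent V)) (y : V) : hd D y = (D.map Ent.v).headD y := by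
  cases D <;> rfl

theorem getLastD_map {z : V → V} : ∀ (l : List V) (x : V),
    (l.map z).getLastD (z x) = z (l.getLastD x) := by
  intro l
  induction l with
  | nil => intro x; rfl
  | cons a l ih => intro x; rw [List.map_cons, List.getLastD_cons, List.getLastD_cons, ih]

theorem headD_map {z : V → V} (l : List V) (x : V) : (l.map z).headD (z x) = z (l.headD x) := by
  cases l <;> rfl

theorem getLastD_ne {l : List V} (h : l ≠ []) (x y : V) : l.getLastD x = l.getLastD y := by
  cases l with
  | nil => exact absurd rfl h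
  | cons a l => rw [List.getLastD_cons, List.getLastD_cons]

theorem headD_ne {l : List V} (h : l ≠ []) (x y : V) : l.headD x = l.headD y := by
  cases l with
  | nil => exact absurd rfl h
  | cons a l => rfl

theorem plen_map {f : V → V → ℝ} {z : V → V} {h : V → V → ℝ} (P : V → Prop)
    (hf : ∀ a b, G.Adj a b → P a → P b → f (z a) (z b) = h a b) : ∀ (l : List V), Ch G l →
    (∀ u ∈ l, P u) → plen f (l.map z) = plen h l := by
  intro l
  induction l with
  | nil => intros; simp
  | cons a l ih =>
    intro hc hP
    cases l with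
    | nil => simp
    | cons b l =>
      simp only [Ch_cons2] at hc
      have h1 := ih hc.2 (fun u hu => hP u (by simp only [List.mem_cons] at hu ⊢; tauto))
      simp only [List.map_cons, plen_cons2] at h1 ⊢
      rw [h1, hf a b hc.1 (hP a (by simp)) (hP b (by simp))]

theorem Ch_map {z : V → V} (hadj : ∀ a b, G.Adj a b → G.Adj (z a) (z b)) : ∀ {l : List V},
    Ch G l → Ch G (l.map z) := by
  intro l
  induction l with
  | nil => intro _; trivial
  | cons a l ih =>
    intro hc
    cases l with
    | nil => trivial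
    | cons b l =>
      simp only [Ch_cons2] at hc
      exact ⟨hadj _ _ hc.1, ih hc.2⟩

/-- the image of a fan -/
theorem Fan.map {z : V → V} (hadj : ∀ a b, G.Adj a b → G.Adj (z a) (z b))
    (hang : ∀ v a b, G.Adj v a → G.Adj v b → G.Adj a b → ang (z v) (z a) (z b) = ang v a b)
    {x y : V} {d : Ent V} (h : Fan G ang x d y) :
    Fan G ang (z x) ⟨z d.v, d.S.map z, d.E⟩ (z y) := by
  obtain ⟨h1, h2, h3⟩ := h
  have e : z x :: (d.S.map z ++ [z y]) = (x :: (d.S ++ [y])).map z := by simp
  refine ⟨?_, ?_, ?_⟩
  · show Ch G (z x :: (d.S.map z ++ [z y]))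
    rw [e]
    exact Ch_map hadj h1
  · intro u hu
    change u ∈ z x :: (d.S.map z ++ [z y]) at hu
    rw [e, List.mem_map] at hu
    obtain ⟨v, hv, rfl⟩ := hu
    exact hadj _ _ (h2 v hv)
  · show plen (ang (z d.v)) (z x :: (d.S.map z ++ [z y])) = d.E
    rw [e, ← h3]
    exact plen_map (fun u => G.Adj d.v u) (fun a b hab ha hb => hang _ _ _ ha hb hab) _ h1 h2

/-- the reverse of a fan -/
theorem Fan.rev (hsymm : ∀ v a b, ang v a b = ang v b a) {x y : V} {v : V} {S : List V} {E : ℝ}
    (h : Fan G ang x ⟨v, S, E⟩ y) : Fan G ang y ⟨v, S.reverse, E⟩ x := by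
  obtain ⟨h1, h2, h3⟩ := h
  simp only at h1 h2 h3
  have e : y :: (S.reverse ++ [x]) = (x :: (S ++ [y])).reverse := by simp
  refine ⟨?_, ?_, ?_⟩
  · show Ch G (y :: (S.reverse ++ [x]))
    rw [e]; exact Ch_reverse h1
  · intro u hu
    change u ∈ y :: (S.reverse ++ [x]) at hu
    rw [e, List.mem_reverse] at hu
    exact h2 u hu
  · show plen (ang v) (y :: (S.reverse ++ [x])) = E
    rw [e, plen_reverse (hsymm v)]
    exact h3

theorem double_split {z : V → V} {U M R : List V} {s : V}
    (e : s :: (M ++ s :: R) = U ++ U.map z) (hMR : M.length ≤ R.length) :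
    z s = s ∨ ∃ R1, U = s :: (M ++ s :: R1) ∧
      R = R1 ++ z s :: (M.map z ++ z s :: R1.map z) := by
  have hl : M.length + R.length + 2 = U.length + U.length := by
    have := congrArg List.length e
    simp at this
    omega
  rcases Nat.lt_or_ge (M.length + 1) U.length with hlt | hge
  · right
    have h1 : s :: (M ++ s :: R) = (s :: (M ++ [s])) ++ R := by simp
    rw [h1] at e
    obtain ⟨R1, hU⟩ : ∃ R1, U = (s :: (M ++ [s])) ++ R1 := by
      rcases List.append_eq_append_iff.1 e with ⟨a, h2, h3⟩ | ⟨a, h2, h3⟩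
      · exact ⟨a, h2⟩
      · have := congrArg List.length h2
        simp at this
        have : a.length = 0 := by omega
        rw [List.length_eq_zero_iff] at this
        subst this
        exact ⟨[], by rw [h2]; simp⟩
    refine ⟨R1, by rw [hU]; simp, ?_⟩
    rw [hU] at e
    have : R = R1 ++ ((s :: (M ++ [s])) ++ R1).map z := by
      apply List.append_cancel_left (as := s :: (M ++ [s]))
      rw [e]; simp
    rw [this]; simp
  · left
    have hU : M.length + 1 = U.length := by omega
    have h1 : s :: (M ++ s :: R) = (s :: M) ++ (s :: R) := by simp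
    rw [h1] at e
    obtain ⟨h2, h3⟩ := List.append_inj e (by simpa using hU)
    rw [← h2] at h3
    simp only [List.map_cons, List.cons.injEq] at h3
    exact h3.1.symm

/-- an involution without fixed vertices and without flipped edges cannot exist -/
theorem no_free_involution (hA : AngSys G ang) {z : V → V} (hz : ∀ v, z (z v) = v)
    (hadj : ∀ a b, G.Adj a b → G.Adj (z a) (z b))
    (hang : ∀ v a b, G.Adj v a → G.Adj v b → G.Adj a b → ang (z v) (z a) (z b) = ang v a b)
    (hni : ∀ v, ¬ G.Adj v (z v)) (hfree : ∀ a b, G.Adj a b → z a ≠ a) :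
    ∀ n k (A : List V), A.length = k → A ≠ [] → ¬ Cyc G (A ++ A.map z) n := by
  intro n
  induction n using Nat.strong_induction_on with
  | _ n IHn =>
  intro k
  induction k using Nat.strong_induction_on with
  | _ k IHk =>
  intro A hk hA0 hcyc
  have hmin : ∀ m, Cyc G (A ++ A.map z) m → n ≤ m := by
    intro m hm
    by_contra hlt
    exact IHn m (by omega) _ A rfl hA0 hm
  have hlen : 2 ≤ A.length := by
    by_contra hlt
    have : A.length = 1 := by
      have := List.length_pos_iff.2 hA0; omega
    obtain ⟨a, rfl⟩ := List.length_eq_one_iff.1 this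
    have h1 : Cl G [a, z a, a] n := hcyc.toCl
    exact hni a h1.adj
  -- unsplit
  have hU : Unsplit G (A ++ A.map z) n := by
    apply unsplit_of_rot hcyc hmin
    have key : ∀ s M R, (A ++ A.map z) ~r (s :: (M ++ s :: R)) → M.length ≤ R.length →
        ∀ n1 n2, Cl G (s :: (M ++ [s])) n1 → Cl G (s :: (R ++ [s])) n2 → n < n1 + n2 := by
      intro s M R hrot hMR n1 n2 h1 h2
      by_contra hlt
      obtain ⟨U, e, hUl, _⟩ := rot_double hz hrot
      rcases double_split e hMR with hs | ⟨R1, hU1, hR⟩
      · have hadj1 : ∃ b, G.Adj s b := by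
          cases M with
          | nil => exact absurd h1 (fun h => h.not_pair)
          | cons b M' => exact ⟨b, h1.adj⟩
        obtain ⟨b, hb⟩ := hadj1
        exact hfree s b hb hs
      · subst hR
        have h3 : Cl G (z s :: (M.map z ++ [z s])) n1 := by
          have := h1.map z hadj
          exact this.congr (by simp)
        have h4 : Cl G ((s :: R1) ++ z s :: ((M.map z ++ [z s]) ++ (R1.map z ++ [s]))) n2 :=
          h2.congr (by simp)
        have h5 := h4.del h3
        have h6 : Cyc G ((s :: R1) ++ (s :: R1).map z) (n2 + n1) :=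
          Cyc.ofCl (h5.congr (by simp))
        have hlU : A.length = M.length + R1.length + 2 := by
          rw [← hUl, hU1]; simp; omega
        exact IHk (R1.length + 1) (by omega) (s :: R1) (by simp) (by simp)
          (h6.mono (by omega))
    intro s M R hrot n1 n2 h1 h2
    rcases le_total M.length R.length with h | h
    · exact key s M R hrot h n1 n2 h1 h2
    · have := key s R M (hrot.trans (by
        have := List.isRotated_append (l := s :: M) (l' := s :: R)
        simpa using this)) h n2 n1 h2 h1
      omega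
  obtain ⟨D, hD⟩ := fan_theorem hA n _ (by simp; omega) hU
  have hDm := hD.map
  obtain ⟨D1, D2, rfl, hD1, hD2⟩ := List.map_eq_append_iff.1 hDm
  have hsum := hD.sum
  rw [dsum_append] at hsum
  have hDl : D1.length = D2.length := by
    have h1 := congrArg List.length hD1
    have h2 := congrArg List.length hD2
    simp at h1 h2
    omega
  obtain ⟨P1, d, P2, Q1, e, Q2, rfl, rfl, hPQ, hde⟩ := pair_exists D1 D2 hDl
    (by have := Real.pi_pos; linarith)
  -- vertices
  have hv : Q1.map Ent.v = (P1.map Ent.v).map z ∧ e.v = z d.v ∧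
      Q2.map Ent.v = (P2.map Ent.v).map z := by
    rw [← hD1] at hD2
    simp only [List.map_append, List.map_cons] at hD2
    obtain ⟨h1, h2⟩ := List.append_inj hD2 (by simp [hPQ])
    simp only [List.cons.injEq] at h2
    exact ⟨h1, h2.1, h2.2⟩
  obtain ⟨hv1, hv2, hv3⟩ := hv
  obtain ⟨W', hg⟩ : ∃ W', Good G ang (e :: (Q2 ++ P1) ++ d :: (P2 ++ Q1)) W' n := by
    have h1 : Good G ang ((P1 ++ d :: (P2 ++ Q1)) ++ (e :: Q2)) (A ++ A.map z) n := by
      have : (P1 ++ d :: P2) ++ (Q1 ++ e :: Q2) = (P1 ++ d :: (P2 ++ Q1)) ++ (e :: Q2) := by simp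
      rw [← this]; exact hD
    have h2 := h1.rot
    have : (e :: Q2) ++ (P1 ++ d :: (P2 ++ Q1)) = e :: (Q2 ++ P1) ++ d :: (P2 ++ Q1) := by simp
    rw [this] at h2
    exact ⟨_, h2⟩
  have hlA : P1.length + P2.length + 1 = A.length := by
    rw [← hD1]; simp; omega
  have hQ2 : Q2.length = P2.length := by
    have := congrArg List.length hv3; simpa using this
  have hne1 : Q2 ++ P1 ≠ [] := by
    intro h
    have h' := congrArg List.length h
    rw [List.length_append, List.length_nil] at h'
    omega
  have hne2 : P2 ++ Q1 ≠ [] := by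
    intro h
    have h' := congrArg List.length h
    rw [List.length_append, List.length_nil] at h'
    omega
  -- the fan at d
  have hfd : Fan G ang (lst e.v (Q2 ++ P1)) d (hd (P2 ++ Q1) e.v) := by
    have h1 := hg.ok
    have h2 : ok G ang (lst e.v ((Q2 ++ P1) ++ d :: (P2 ++ Q1)))
      ((e :: (Q2 ++ P1)) ++ d :: (P2 ++ Q1)) e.v := h1
    rw [ok_append] at h2
    exact h2.2.1
  have hT := hfd.map hadj hang
  rw [← hv2] at hT
  -- ends
  have hRL : (P2 ++ Q1).map Ent.v = ((Q2 ++ P1).map Ent.v).map z := by
    simp only [List.map_append, hv1, hv3]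
    simp [List.map_map, Function.comp_def, hz]
  have hLR : (Q2 ++ P1).map Ent.v = ((P2 ++ Q1).map Ent.v).map z := by
    rw [hRL]; simp [List.map_map, Function.comp_def, hz]
  have e1 : z (lst e.v (Q2 ++ P1)) = lst d.v (P2 ++ Q1) := by
    rw [lst_eq, lst_eq, hRL, ← getLastD_map (z := z)]
    exact getLastD_ne (by simpa using hne1) _ _
  have e2 : z (hd (P2 ++ Q1) e.v) = hd (Q2 ++ P1) d.v := by
    rw [hd_eq, hd_eq, hLR, ← headD_map (z := z)]
    exact headD_ne (by simpa using hne2) _ _
  rw [e1, e2] at hT
  obtain ⟨m, hm, hc⟩ := hg.push hA hne1 hne2 (by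
    rw [hv2]; exact fun h => hni _ h.symm) hT (by linarith) hA.symm
  simp only [List.length_map] at hm
  -- new doubled list
  have hc2 : Cyc G ((d.S ++ (P2 ++ Q1).map Ent.v) ++
      (d.S ++ (P2 ++ Q1).map Ent.v).map z) m := by
    have h1 : Cyc G ((d.S.map z ++ (Q2 ++ P1).map Ent.v) ++ (d.S ++ (P2 ++ Q1).map Ent.v)) m :=
      hc.congr (by simp)
    have h2 := h1.rot
    rw [hLR] at h2
    exact h2.congr (by simp)
  exact IHn m (by omega) _ _ rfl (by simpa using fun h => by simpa using hne2) hc2

end Pool.Agent.H351
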