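import Pool.Agent.H351.FixSC3

/-!
Metrically systolic complexes: flag complexes with a piecewise Euclidean metric on the 2-skeleton.
-/

namespace Pool.Agent.H351

open scoped BigOperators Real

/-- A flag simplicial complex whose 2-skeleton carries a metric for which each 2-simplex is a
Euclidean triangle: it is given by its 1-skeleton `G` and the lengths of the edges. -/
structure MFlag (V : Type*) where
  G : SimpleGraph V
  len : V → V → ℝ
  len_symm : ∀ a b, len a b = len b a
  len_pos : ∀ a b, G.Adj a b → 0 < len a b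
  len_tri : ∀ a b c, G.Adj a b → G.Adj b c → G.Adj a c → len a c < len a b + len b c

/-- The Euclidean angle at `v` of the triangle `v, a, b` (law of cosines). -/
noncomputable def MFlag.ang {V : Type*} (X : MFlag V) (v a b : V) : ℝ :=
  Real.arccos ((X.len v a ^ 2 + X.len v b ^ 2 - X.len a b ^ 2) / (2 * X.len v a * X.len v b))

/-- Homotopy of edge paths, given by their lists of vertices: insertion and removal of a spur, and
replacing two sides of a triangle by the third one. -/
inductive EHom {V : Type*} (G : SimpleGraph V) : List V → List V → Prop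
  | refl (p : List V) : EHom G p p
  | symm {p q : List V} : EHom G p q → EHom G q p
  | trans {p q r : List V} : EHom G p q → EHom G q r → EHom G p r
  | spur {p q : List V} {a b : V} : G.Adj a b → EHom G (p ++ a :: b :: a :: q) (p ++ a :: q)
  | tri {p q : List V} {a b c : V} : G.Adj a b → G.Adj b c → G.Adj a c →
      EHom G (p ++ a :: b :: c :: q) (p ++ a :: c :: q)

/-- Simple connectivity of a flag complex, in terms of its edge paths. -/
def SimplyConn {V : Type*} (G : SimpleGraph V) : Prop :=
  G.Connected ∧ ∀ (a : V) (w : G.Walk a a), EHom G w.support [a]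

/-- Metrically systolic complexes. -/
structure MFlag.MetricallySystolic {V : Type*} (X : MFlag V) : Prop where
  /-- the complex is simply connected -/
  sc : SimplyConn X.G
  /-- `X` is a metric simplicial complex: the triangle inequality for angles in links -/
  ang_tri : ∀ v a b c, X.G.Adj v a → X.G.Adj v b → X.G.Adj v c → X.G.Adj a b → X.G.Adj b c →
    X.G.Adj a c → X.ang v a c ≤ X.ang v a b + X.ang v b c
  /-- links are `2π`-large: every `2`-full simple cycle (of length `k + 4`) has length `≥ 2π` -/
  large : ∀ (v : V) (k : ℕ) (c : ZMod (k + 4) → V), Function.Injective c →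
    (∀ i, X.G.Adj v (c i)) → (∀ i, X.G.Adj (c i) (c (i + 1))) →
    (∀ i, ¬ X.G.Adj (c i) (c (i + 2))) → 2 * π ≤ ∑ i, X.ang v (c i) (c (i + 1))

/-- three positive numbers satisfying the triangle inequalities are the sides of a triangle -/
theorem exists_triangle {a b c : ℝ} (ha : 0 < a) (hb : 0 < b) (hc : 0 < c) (h1 : a < b + c)
    (h2 : b < a + c) (h3 : c < a + b) :
    ∃ p q r : ℂ, dist q r = a ∧ dist p r = b ∧ dist p q = c := by
  set t := (b ^ 2 + c ^ 2 - a ^ 2) / (2 * b * c) with ht
  have hbc : 0 < 2 * b * c := by positivity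
  have ht1 : t ≤ 1 := by
    rw [ht, div_le_one hbc]
    nlinarith [mul_pos (sub_pos.2 h2) (sub_pos.2 h3)]
  have ht2 : -1 ≤ t := by
    rw [ht, le_div_iff₀ hbc]
    nlinarith [mul_pos (sub_pos.2 h1) (show 0 < a + b + c by positivity)]
  have htt : 0 ≤ 1 - t ^ 2 := by nlinarith
  have hta : 2 * b * c * t = b ^ 2 + c ^ 2 - a ^ 2 := by
    rw [ht]; field_simp
  refine ⟨0, (c : ℂ), ⟨b * t, b * Real.sqrt (1 - t ^ 2)⟩, ?_, ?_, ?_⟩
  · rw [Complex.dist_eq_re_im]
    simp only [Complex.ofReal_re, Complex.ofReal_im]
    rw [Real.sqrt_eq_iff_mul_self_eq (by positivity) ha.le]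
    have := Real.sq_sqrt htt
    nlinarith
  · rw [Complex.dist_eq_re_im]
    simp only [Complex.zero_re, Complex.zero_im]
    rw [Real.sqrt_eq_iff_mul_self_eq (by positivity) hb.le]
    have := Real.sq_sqrt htt
    nlinarith
  · rw [Complex.dist_eq_re_im]
    simp only [Complex.ofReal_re, Complex.ofReal_im, Complex.zero_re, Complex.zero_im]
    rw [Real.sqrt_eq_iff_mul_self_eq (by positivity) hc.le]
    ring

open EuclideanGeometry in
theorem angle_formula (p q r : ℂ) (h1 : 0 < dist p q) (h2 : 0 < dist p r) :
    ∠ q p r = Real.arccos ((dist p q ^ 2 + dist p r ^ 2 - dist q r ^ 2) /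
      (2 * dist p q * dist p r)) := by
  have h := law_cos q p r
  have h3 : Real.cos (∠ q p r) = (dist p q ^ 2 + dist p r ^ 2 - dist q r ^ 2) /
      (2 * dist p q * dist p r) := by
    rw [eq_div_iff (by positivity)]
    rw [dist_comm q p, dist_comm r p] at h
    linarith
  rw [← h3, Real.arccos_cos (angle_nonneg _ _ _) (angle_le_pi _ _ _)]

open EuclideanGeometry in
theorem arccos_sum {a b c : ℝ} (ha : 0 < a) (hb : 0 < b) (hc : 0 < c) (h1 : a < b + c)
    (h2 : b < a + c) (h3 : c < a + b) :
    Real.arccos ((c ^ 2 + b ^ 2 - a ^ 2) / (2 * c * b)) +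
      Real.arccos ((c ^ 2 + a ^ 2 - b ^ 2) / (2 * c * a)) +
      Real.arccos ((b ^ 2 + a ^ 2 - c ^ 2) / (2 * b * a)) = π := by
  obtain ⟨p, q, r, d1, d2, d3⟩ := exists_triangle ha hb hc h1 h2 h3
  have e1 := angle_formula p q r (by rw [d3]; exact hc) (by rw [d2]; exact hb)
  have e2 := angle_formula q p r (by rw [dist_comm, d3]; exact hc) (by rw [d1]; exact ha)
  have e3 := angle_formula r p q (by rw [dist_comm, d2]; exact hb) (by rw [dist_comm, d1]; exact ha)
  rw [d1, d2, d3] at e1
  rw [dist_comm q p, d1, d2, d3] at e2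
  rw [dist_comm r p, dist_comm r q, d1, d2, d3] at e3
  rw [← e1, ← e2, ← e3]
  have hpq : q ≠ p := by
    rintro rfl
    rw [dist_self] at d3
    exact hc.ne d3
  have := angle_add_angle_add_angle_eq_pi r hpq
  -- ∠ p q r + ∠ q r p + ∠ r p q = π
  rw [angle_comm q p r, angle_comm p r q]
  linarith

variable {V : Type*} {X : MFlag V}

theorem MFlag.MetricallySystolic.angSys (hX : X.MetricallySystolic) : AngSys X.G X.ang where
  symm v a b := by
    unfold MFlag.ang
    rw [X.len_symm a b]
    congr 1
    ring
  pos v a b hva hvb hab := by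
    unfold MFlag.ang
    rw [Real.arccos_pos]
    have h1 := X.len_pos _ _ hva
    have h2 := X.len_pos _ _ hvb
    have h3 := X.len_pos _ _ hab
    rw [div_lt_one (by positivity)]
    have h4 := X.len_tri v a b hva hab hvb
    have h5 := X.len_tri v b a hvb hab.symm hva
    rw [X.len_symm b a] at h5
    nlinarith [mul_pos (sub_pos.2 h4) (sub_pos.2 h5)]
  sum a b c hab hbc hac := by
    unfold MFlag.ang
    have h1 := X.len_pos _ _ hab
    have h2 := X.len_pos _ _ hbc
    have h3 := X.len_pos _ _ hac
    have t1 := X.len_tri a b c hab hbc hac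
    have t2 := X.len_tri b a c hab.symm hac hbc
    have t3 := X.len_tri a c b hac hbc.symm hab
    rw [X.len_symm b a] at t2
    rw [X.len_symm c b] at t3
    have := arccos_sum h2 h3 h1 (by linarith) (by linarith) (by linarith)
    rw [X.len_symm b a, X.len_symm c a, X.len_symm c b]
    exact this.le
  tri := hX.ang_tri
  large := hX.large

end Pool.Agent.H351
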