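import Mathlib

/-!
Closed edge paths in a graph (thought of as the 1-skeleton of a flag complex) and the number of
triangles needed to contract them.
-/

namespace Pool.Agent.H351

variable {V : Type*}

/-- `NH G a l n`: the closed edge path `a, l` (starting at `a`, with further vertices `l`, ending at
`a` again) is contractible using `n` triangles. -/
inductive NH (G : SimpleGraph V) : V → List V → ℕ → Prop
  | nil (a : V) : NH G a [] 0
  | back {a b : V} {p q : List V} {m n : ℕ} (h : G.Adj a b) (hp : NH G b p m)
      (hq : NH G a q n) : NH G a (b :: (p ++ a :: q)) (m + n)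
  | tri {a b z : V} {l : List V} {n : ℕ} (hab : G.Adj a b) (haz : G.Adj a z) (hzb : G.Adj z b)
      (h : NH G a (z :: b :: l) n) : NH G a (b :: l) (n + 1)

theorem split3 {α : Type*} {p q l1 l2 : List α} {a x : α} (h : p ++ a :: q = l1 ++ x :: l2) :
    (∃ p2, p = l1 ++ x :: p2 ∧ l2 = p2 ++ a :: q) ∨ (l1 = p ∧ x = a ∧ l2 = q) ∨
    (∃ q1, l1 = p ++ a :: q1 ∧ q = q1 ++ x :: l2) := by
  rw [List.append_eq_append_iff] at h
  rcases h with ⟨c, h1, h2⟩ | ⟨c, h1, h2⟩
  · -- l1 = p ++ c, a :: q = c ++ x :: l2
    cases c with
    | nil =>
      simp only [List.append_nil, List.nil_append, List.cons.injEq] at h1 h2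
      right; left
      exact ⟨h1, h2.1.symm, h2.2.symm⟩
    | cons c0 c' =>
      simp only [List.cons_append, List.cons.injEq] at h2
      right; right
      exact ⟨c', by rw [h1, ← h2.1], h2.2⟩
  · -- p = l1 ++ c, x :: l2 = c ++ a :: q
    cases c with
    | nil =>
      simp only [List.append_nil, List.nil_append, List.cons.injEq] at h1 h2
      right; left
      exact ⟨h1.symm, h2.1, h2.2⟩
    | cons c0 c' =>
      simp only [List.cons_append, List.cons.injEq] at h2
      left
      exact ⟨c', by rw [h1, ← h2.1], h2.2⟩

namespace NH

variable {G : SimpleGraph V}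

theorem ends {a : V} {l : List V} {n : ℕ} (h : NH G a l n) : l = [] ∨ ∃ l', l = l' ++ [a] := by
  induction h with
  | nil a => left; rfl
  | @back a b p q m n h hp hq ihp ihq =>
    right
    rcases ihq with h | ⟨q', h⟩
    · exact ⟨b :: p, by simp [h]⟩
    · exact ⟨b :: (p ++ a :: q'), by simp [h]⟩
  | @tri a b z l n hab haz hzb h ih =>
    right
    rcases ih with h | ⟨l', h⟩
    · simp at h
    · cases l' with
      | nil => simp at h
      | cons c l'' =>
        simp only [List.cons_append, List.cons.injEq] at h
        exact ⟨l'', h.2⟩

theorem cast {a : V} {l l' : List V} {n n' : ℕ} (h : NH G a l n) (hl : l = l') (hn : n = n') :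
    NH G a l' n' := by
  subst hl; subst hn; exact h

theorem concat {a : V} {q : List V} {n : ℕ} (h : NH G a q n) :
    ∀ {l : List V} {m : ℕ}, NH G a l m → NH G a (q ++ l) (n + m) := by
  induction h with
  | nil a => intro l m hl; simpa using hl
  | @back a b p q m n h hp hq ihp ihq =>
    intro l k hl
    have := NH.back h hp (ihq hl)
    exact this.cast (by simp) (by omega)
  | @tri a b z l n hab haz hzb h ih =>
    intro l' k hl
    have := ih hl
    exact (NH.tri hab haz hzb this).cast (by simp) (by omega)

theorem adj {a b : V} {l : List V} {n : ℕ} (h : NH G a (b :: l) n) : G.Adj a b := by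
  cases h with
  | back h _ _ => exact h
  | tri h _ _ _ => exact h

theorem not_single {a b : V} {n : ℕ} (h : NH G a [b] n) : False := by
  have h1 := h.adj
  rcases h.ends with h' | ⟨l', h'⟩
  · simp at h'
  · have := congrArg List.getLast? h'
    simp at this
    exact h1.ne this.symm

/-- a spur -/
theorem spur {a b : V} (h : G.Adj a b) : NH G a [b, a] 0 :=
  (NH.back h (NH.nil b) (NH.nil a)).cast (by simp) (by omega)

theorem insert {a : V} {l : List V} {n : ℕ} (h : NH G a l n) :
    ∀ {l1 : List V} {x : V} {l2 : List V}, l = l1 ++ x :: l2 → ∀ {q : List V} {m : ℕ},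
      NH G x q m → NH G a (l1 ++ x :: (q ++ l2)) (n + m) := by
  induction h with
  | nil a => intro l1 x l2 h; simp at h
  | @back a b p q0 m n h hp hq ihp ihq =>
    intro l1 x l2 hl q k hqk
    cases l1 with
    | nil =>
      simp only [List.nil_append, List.cons.injEq] at hl
      obtain ⟨rfl, rfl⟩ := hl
      exact (NH.back h (hqk.concat hp) hq).cast (by simp) (by omega)
    | cons c l1' =>
      simp only [List.cons_append, List.cons.injEq] at hl
      obtain ⟨rfl, hl⟩ := hl
      rcases split3 hl with ⟨p2, rfl, rfl⟩ | ⟨rfl, rfl, rfl⟩ | ⟨q1, rfl, rfl⟩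
      · exact (NH.back h (ihp rfl hqk) hq).cast (by simp) (by omega)
      · exact (NH.back h hp (hqk.concat hq)).cast (by simp) (by omega)
      · exact (NH.back h hp (ihq rfl hqk)).cast (by simp) (by omega)
  | @tri a b z l n hab haz hzb h ih =>
    intro l1 x l2 hl q k hqk
    cases l1 with
    | nil =>
      simp only [List.nil_append, List.cons.injEq] at hl
      obtain ⟨rfl, rfl⟩ := hl
      have := ih (l1 := [z]) (x := b) (l2 := l) rfl hqk
      exact (NH.tri hab haz hzb this).cast (by simp) (by omega)
    | cons c l1' =>
      simp only [List.cons_append, List.cons.injEq] at hl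
      obtain ⟨rfl, rfl⟩ := hl
      have := ih (l1 := z :: b :: l1') (x := x) (l2 := l2) (by simp) hqk
      exact (NH.tri hab haz hzb this).cast (by simp) (by omega)

theorem insert' {a : V} {l1 : List V} {x : V} {l2 : List V} {n : ℕ}
    (h : NH G a (l1 ++ x :: l2) n) {q : List V} {m : ℕ} (hq : NH G x q m) :
    NH G a (l1 ++ x :: (q ++ l2)) (n + m) := h.insert rfl hq

/-- one step of rotation, for area `n` -/
def Rot (G : SimpleGraph V) (n : ℕ) : Prop :=
  ∀ (a b : V) (l : List V), NH G a (b :: l) n → NH G b (l ++ [b]) n

theorem rotGen {n : ℕ} (hR : Rot G n) : ∀ (l1 : List V) (a x : V) (l2 : List V),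
    NH G a (l1 ++ x :: l2) n → NH G x (l2 ++ (l1 ++ [x])) n := by
  intro l1
  induction l1 with
  | nil => intro a x l2 h; simpa using hR a x l2 (by simpa using h)
  | cons b l1' ih =>
    intro a x l2 h
    have h1 := hR a b (l1' ++ x :: l2) (by simpa using h)
    have h2 := ih b x (l2 ++ [b]) (by simpa using h1)
    simpa using h2

/-- replacing two edges by one across a triangle, given rotations -/
theorem shortcutAux {a : V} {l : List V} {n : ℕ} (h : NH G a l n) :
    (∀ m ≤ n, Rot G m) → ∀ {l1 : List V} {x z y : V} {l2 : List V}, l = l1 ++ x :: z :: y :: l2 →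
      G.Adj x z → G.Adj z y → G.Adj x y → NH G a (l1 ++ x :: y :: l2) (n + 1) := by
  induction h with
  | nil a => intro _ l1 x z y l2 h; simp at h
  | @back a b p q m n h hp hq ihp ihq =>
    intro hR l1 x z y l2 hl hxz hzy hxy
    have hRm : ∀ k ≤ m, Rot G k := fun k hk => hR k (by omega)
    have hRn : ∀ k ≤ n, Rot G k := fun k hk => hR k (by omega)
    cases l1 with
    | nil =>
      simp only [List.nil_append, List.cons.injEq] at hl
      obtain ⟨rfl, hl⟩ := hl
      -- b = x ; p ++ a :: q = z :: y :: l2
      cases p with
      | nil =>
        simp only [List.nil_append, List.cons.injEq] at hl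
        obtain ⟨rfl, rfl⟩ := hl
        -- a = z, q = y :: l2
        have h1 : NH G a (y :: b :: y :: l2) n := by
          have := (hq.insert (l1 := []) (x := y) (l2 := l2) rfl (NH.spur hxy.symm))
          simpa using this
        have hm0 : NH G a (b :: y :: l2) (n + 1) := NH.tri h hzy hxy.symm h1
        -- area m could be positive? p = [] closed path at b with area m
        have hm : NH G b [] m := hp
        have hm' : m = 0 := by
          cases hm
          rfl
        subst hm'
        exact hm0.cast (by simp) (by omega)
      | cons z' p' =>
        simp only [List.cons_append, List.cons.injEq] at hl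
        obtain ⟨rfl, hl⟩ := hl
        cases p' with
        | nil =>
          exfalso
          rcases hp.ends with h' | ⟨l', h'⟩
          · simp at h'
          · cases l' with
            | nil =>
              simp at h'
              exact hxz.ne h'.symm
            | cons c l'' => simp at h'
        | cons y' p'' =>
          simp only [List.cons_append, List.cons.injEq] at hl
          obtain ⟨rfl, rfl⟩ := hl
          have h1 : NH G b (y' :: p'') (m + 1) := NH.tri hxy hxz hzy hp
          exact (NH.back h h1 hq).cast (by simp) (by omega)
    | cons c l1' =>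
      simp only [List.cons_append, List.cons.injEq] at hl
      obtain ⟨rfl, hl⟩ := hl
      rcases split3 hl with ⟨p2, rfl, hl2⟩ | ⟨rfl, rfl, hl2⟩ | ⟨q1, rfl, rfl⟩
      · -- x in p
        cases p2 with
        | nil =>
          -- z = a, q = y :: l2 ; p = l1' ++ [x], x = b
          simp only [List.nil_append, List.cons.injEq] at hl2
          obtain ⟨rfl, rfl⟩ := hl2
          have hxb : x = b := by
            rcases hp.ends with h' | ⟨l', h'⟩
            · simp at h'
            · have := congrArg List.getLast? h'
              simpa using this
          subst hxb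
          have h1 : NH G y (x :: (l1' ++ x :: [y])) (m + 0) := by
            have := NH.back (G := G) hxy.symm hp (NH.nil y)
            exact this.cast (by simp) rfl
          have h2 := hq.insert (l1 := []) (x := y) (l2 := l2) rfl h1
          have h3 : NH G z (y :: x :: (l1' ++ x :: y :: l2)) (m + n) :=
            h2.cast (by simp) (by omega)
          exact (NH.tri h hzy hxy.symm h3).cast (by simp) (by omega)
        | cons z' p3 =>
          simp only [List.cons_append, List.cons.injEq] at hl2
          obtain ⟨rfl, hl2⟩ := hl2
          cases p3 with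
          | nil =>
            -- p = l1' ++ [x, z], z = b; y = a; l2 = q
            simp only [List.nil_append, List.cons.injEq] at hl2
            obtain ⟨rfl, rfl⟩ := hl2
            have hzb : z = b := by
              rcases hp.ends with h' | ⟨l', h'⟩
              · simp at h'
              · have := congrArg List.getLast? h'
                simpa using this
            subst hzb
            have h1 : NH G x ([z] ++ (l1' ++ [x])) m := by
              have := rotGen (hR m (by omega)) l1' z x [z] (by simpa using hp)
              simpa using this
            have h2 : NH G y (x :: (([z] ++ (l1' ++ [x])) ++ y :: l2)) (m + n) :=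
              NH.back hxy.symm h1 hq
            have h3 : NH G y (x :: z :: (l1' ++ x :: y :: l2)) (m + n) := h2.cast (by simp) rfl
            exact (NH.tri h hxy.symm hxz h3).cast (by simp) rfl
          | cons y' p4 =>
            simp only [List.cons_append, List.cons.injEq] at hl2
            obtain ⟨rfl, rfl⟩ := hl2
            have h1 := ihp hRm (l1 := l1') (x := x) (z := z) (y := y) (l2 := p4) (by simp)
              hxz hzy hxy
            exact (NH.back h h1 hq).cast (by simp) (by omega)
      · -- x = a
        have h1 : NH G x (y :: l2) (n + 1) := NH.tri hxy hxz hzy (by rw [hl2]; exact hq)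
        exact (NH.back h hp h1).cast (by simp) (by omega)
      · have h1 := ihq hRn (l1 := q1) (x := x) (z := z) (y := y) (l2 := l2) rfl hxz hzy hxy
        exact (NH.back h hp h1).cast (by simp) (by omega)
  | @tri a b z0 l n hab haz hzb h ih =>
    intro hR l1 x z y l2 hl hxz hzy hxy
    have hRn : ∀ k ≤ n, Rot G k := fun k hk => hR k (by omega)
    cases l1 with
    | nil =>
      simp only [List.nil_append, List.cons.injEq] at hl
      obtain ⟨rfl, rfl⟩ := hl
      have h1 := ih hRn (l1 := [z0]) (x := b) (z := z) (y := y) (l2 := l2) rfl hxz hzy hxy
      exact (NH.tri hab haz hzb h1).cast (by simp) (by omega)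
    | cons c l1' =>
      simp only [List.cons_append, List.cons.injEq] at hl
      obtain ⟨rfl, rfl⟩ := hl
      have h1 := ih hRn (l1 := z0 :: b :: l1') (x := x) (z := z) (y := y) (l2 := l2) (by simp)
        hxz hzy hxy
      exact (NH.tri hab haz hzb h1).cast (by simp) (by omega)

theorem rot_all : ∀ n, Rot G n := by
  intro n
  induction n using Nat.strong_induction_on with
  | _ n IH =>
    intro a b l h
    cases h with
    | @back _ _ p q m k hab hp hq =>
      have h1 : NH G b (a :: (q ++ b :: [])) (k + 0) := NH.back hab.symm hq (NH.nil b)
      exact (hp.concat h1).cast (by simp) (by omega)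
    | @tri _ _ z _ k hab haz hzb h =>
      have h1 := IH k (by omega) a z (b :: l) h
      have h2 := IH k (by omega) z b (l ++ [z]) (by simpa using h1)
      -- l ends with a
      have hl : ∃ l', l = l' ++ [a] := by
        rcases h.ends with h' | ⟨l', h'⟩
        · simp at h'
        · cases l' with
          | nil => simp at h'
          | cons c l'' =>
            simp only [List.cons_append, List.cons.injEq] at h'
            cases l'' with
            | nil =>
              simp at h'
              exact absurd h'.2.1 hab.ne'
            | cons d l3 =>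
              simp only [List.cons_append, List.cons.injEq] at h'
              exact ⟨l3, h'.2.2⟩
      obtain ⟨l', rfl⟩ := hl
      have h3 := shortcutAux h2 (fun m hm => IH m (by omega)) (l1 := l') (x := a) (z := z)
        (y := b) (l2 := []) (by simp) haz hzb hab
      simpa using h3

theorem rotate {a x : V} {l1 l2 : List V} {n : ℕ} (h : NH G a (l1 ++ x :: l2) n) :
    NH G x (l2 ++ (l1 ++ [x])) n := rotGen (rot_all n) l1 a x l2 h

/-- two edges replaced by one across a triangle -/
theorem shortcut {a : V} {l1 : List V} {x z y : V} {l2 : List V} {n : ℕ}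
    (h : NH G a (l1 ++ x :: z :: y :: l2) n) (hxz : G.Adj x z) (hzy : G.Adj z y)
    (hxy : G.Adj x y) : NH G a (l1 ++ x :: y :: l2) (n + 1) :=
  shortcutAux h (fun m _ => rot_all m) rfl hxz hzy hxy

theorem unspurAux {n : ℕ} : ∀ {x : V} {w : List V}, NH G x w n → ∀ {l : List V} {y : V},
    w = l ++ [y, x] → (l = [] ∨ ∃ l', l = l' ++ [x]) → ∃ m ≤ n, NH G x l m := by
  intro x w h
  induction h with
  | nil a => intro l y h; simp at h
  | @back x r p q m n hxr hp hq ihp ihq =>
    intro l y hl hend
    cases l with
    | nil => exact ⟨0, by omega, NH.nil x⟩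
    | cons r' l' =>
      simp only [List.cons_append, List.cons.injEq] at hl
      obtain ⟨rfl, hl⟩ := hl
      -- l' last is x (or l' = [] impossible)
      have hl'end : ∃ l'', l' = l'' ++ [x] := by
        rcases hend with h' | ⟨l0, h'⟩
        · simp at h'
        · cases l0 with
          | nil =>
            simp at h'
            exact absurd h'.1 hxr.ne'
          | cons c l1 =>
            simp only [List.cons_append, List.cons.injEq] at h'
            exact ⟨l1, h'.2⟩
      -- p ++ x :: q = l' ++ [y, x]
      have hl3 : p ++ x :: q = l' ++ y :: [x] := hl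
      rcases split3 hl3 with ⟨p2, rfl, h2⟩ | ⟨rfl, hyx, h2⟩ | ⟨q1, rfl, rfl⟩
      · -- y in p : p = l' ++ y :: p2, [x] = p2 ++ x :: q
        cases p2 with
        | nil =>
          simp at h2
          subst h2
          -- p = l' ++ [y], closed at r so y = r
          have hyr : y = r := by
            rcases hp.ends with h' | ⟨l0, h'⟩
            · simp at h'
            · have := congrArg List.getLast? h'
              simpa using this
          subst hyr
          obtain ⟨l'', rfl⟩ := hl'end
          have h3 := NH.rotate (l1 := l'') (x := x) (l2 := [y]) (a := y) (n := m)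
            (by simpa using hp)
          exact ⟨m, by omega, by simpa using h3⟩
        | cons c p3 => simp at h2
      · -- y = x : contradiction with last edges? l' = p, y = x, [x] = q
        exfalso
        rw [← h2] at hq
        exact hq.not_single
      · obtain ⟨m', hm', hq'⟩ := ihq (l := q1) (y := y) rfl (by
          obtain ⟨l'', hl''⟩ := hl'end
          cases q1 using List.reverseRecOn with
          | nil => left; rfl
          | append_singleton q2 c _ =>
            right
            have := congrArg (fun l => l.getLast?) hl''
            rw [show p ++ x :: (q2 ++ [c]) = (p ++ x :: q2) ++ [c] by simp] at this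
            simp only [List.getLast?_append, List.getLast?_singleton] at this
            have hcx : c = x := by simpa using this
            exact ⟨q2, by rw [hcx]⟩)
        exact ⟨m + m', by omega, (NH.back hxr hp hq').cast (by simp) rfl⟩
  | @tri x r z l0 n hab haz hzb h ih =>
    intro l y hl hend
    cases l with
    | nil => exact ⟨0, by omega, NH.nil x⟩
    | cons r' l' =>
      simp only [List.cons_append, List.cons.injEq] at hl
      obtain ⟨rfl, rfl⟩ := hl
      obtain ⟨m', hm', h'⟩ := ih (l := z :: r :: l') (y := y) (by simp) (by
        right
        rcases hend with h' | ⟨l1, h'⟩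
        · simp at h'
        · exact ⟨z :: l1, by simp [h']⟩)
      exact ⟨m' + 1, by omega, NH.tri hab haz hzb h'⟩

end NH

end Pool.Agent.H351
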