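import Pool.Agent.H351.FanThm

/-!
Homotopies of paths with control of the number of triangles, rotations, and the pushing lemma.
-/

namespace Pool.Agent.H351

open scoped BigOperators Real

variable {V : Type*} {G : SimpleGraph V} {ang : V → V → V → ℝ}

theorem NH_ch {a : V} {l : List V} {n : ℕ} (h : NH G a l n) : Ch G (a :: l) := by
  induction h with
  | nil a => simp
  | @back a b p q m n h hp hq ihp ihq =>
    rw [Ch_cons2]
    refine ⟨h, ?_⟩
    rcases hp.ends with rfl | ⟨p', rfl⟩
    · simpa using ⟨h.symm, ihq⟩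
    · have : Ch G ((b :: p') ++ b :: (a :: q)) := by
        rw [Ch_append]
        exact ⟨by simpa using ihp, by simpa using ⟨h.symm, ihq⟩⟩
      simpa using this
  | @tri a b z l n hab haz hzb h ih =>
    simp only [Ch_cons2] at ih ⊢
    exact ⟨hab, ih.2.2⟩

theorem Cl.ch {w : List V} {n : ℕ} (h : Cl G w n) : Ch G w := by
  cases w with
  | nil => simp
  | cons a l => obtain ⟨k, _, h⟩ := h; exact NH_ch h

theorem Cyc.cch {w : List V} {n : ℕ} (h : Cyc G w n) : CCh G w := by
  cases w with
  | nil => trivial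
  | cons a l => exact Cl.ch h.toCl'

/-- a path followed by its reverse is contractible with no triangles -/
theorem Cl.of_Ch : ∀ {P : List V} {x y : V}, Ch G (x :: (P ++ [y])) →
    Cl G (x :: (P ++ y :: (P.reverse ++ [x]))) 0 := by
  intro P
  induction P with
  | nil => intro x y h; exact Cl.spur (by simpa using h) 0
  | cons a P ih =>
    intro x y h
    simp only [List.cons_append, Ch_cons2] at h
    have h1 := ih h.2
    have h2 : Cl G ([x] ++ a :: [x]) 0 := Cl.spur h.1 0
    exact (h2.insert h1).congr (by simp)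

/-- a path in the link of `s` can be coned off -/
theorem Cl.cone : ∀ {P : List V} {s x y : V}, Ch G (x :: (P ++ [y])) →
    (∀ u ∈ x :: (P ++ [y]), G.Adj s u) → Cl G (x :: (P ++ y :: s :: [x])) (P.length + 1) := by
  intro P
  induction P with
  | nil =>
    intro s x y h hs
    have hx := hs x (by simp)
    have hy := hs y (by simp)
    exact Cl.triangle (by simpa using h) hy.symm hx.symm
  | cons a P ih =>
    intro s x y h hs
    simp only [List.cons_append, Ch_cons2] at h
    have hx := hs x (by simp)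
    have ha := hs a (by simp)
    have h1 := ih (s := s) h.2 (fun u hu => hs u (by
      simp only [List.cons_append, List.mem_cons] at hu ⊢; tauto))
    -- a P y s a, insert in x a s x
    have h2 : Cl G ([x] ++ a :: [s, x]) 1 := Cl.triangle h.1 ha.symm hx.symm
    have h3 := h2.insert h1
    have h4 : Cl G ((x :: a :: (P ++ [y])) ++ s :: a :: s :: [x]) (1 + (P.length + 1)) :=
      h3.congr (by simp)
    exact ((h4.unspur).congr (by simp)).mono (by simp; omega)

/-- `p` can be replaced by `q` in every closed walk at the cost of `n` triangles -/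
def Hp (G : SimpleGraph V) (p q : List V) (n : ℕ) : Prop :=
  ∀ l1 l2 m, Cl G (l1 ++ (p ++ l2)) m → Cl G (l1 ++ (q ++ l2)) (m + n)

/-- symmetric version of `Hp` -/
def Hq (G : SimpleGraph V) (p q : List V) (n : ℕ) : Prop := Hp G p q n ∧ Hp G q p n

theorem Hp.mono {p q : List V} {n m : ℕ} (h : Hp G p q n) (hnm : n ≤ m) : Hp G p q m :=
  fun l1 l2 k hk => (h l1 l2 k hk).mono (by omega)

theorem Hp.trans {p q r : List V} {n m : ℕ} (h : Hp G p q n) (h' : Hp G q r m) :
    Hp G p r (n + m) :=
  fun l1 l2 k hk => (h' l1 l2 _ (h l1 l2 k hk)).mono (by omega)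

theorem Hp.ctx {p q : List V} {n : ℕ} (h : Hp G p q n) (a b : List V) :
    Hp G (a ++ (p ++ b)) (a ++ (q ++ b)) n :=
  fun l1 l2 k hk => (h (l1 ++ a) (b ++ l2) k (hk.congr (by simp))).congr (by simp)

theorem Hp.congr {p q p' q' : List V} {n : ℕ} (h : Hp G p q n) (e : p = p') (e' : q = q') :
    Hp G p' q' n := e ▸ e' ▸ h

theorem Hq.symm {p q : List V} {n : ℕ} (h : Hq G p q n) : Hq G q p n := ⟨h.2, h.1⟩

theorem Hq.refl (p : List V) (n : ℕ) : Hq G p p n :=
  ⟨fun _ _ _ hk => hk.mono (by omega), fun _ _ _ hk => hk.mono (by omega)⟩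

theorem Hq.mono {p q : List V} {n m : ℕ} (h : Hq G p q n) (hnm : n ≤ m) : Hq G p q m :=
  ⟨h.1.mono hnm, h.2.mono hnm⟩

theorem Hq.trans {p q r : List V} {n m : ℕ} (h : Hq G p q n) (h' : Hq G q r m) :
    Hq G p r (n + m) :=
  ⟨h.1.trans h'.1, (h'.2.trans h.2).mono (by omega)⟩

theorem Hq.ctx {p q : List V} {n : ℕ} (h : Hq G p q n) (a b : List V) :
    Hq G (a ++ (p ++ b)) (a ++ (q ++ b)) n := ⟨h.1.ctx a b, h.2.ctx a b⟩

theorem Hq.congr {p q p' q' : List V} {n : ℕ} (h : Hq G p q n) (e : p = p') (e' : q = q') :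
    Hq G p' q' n := e ▸ e' ▸ h

theorem Hp.of_cl {x y : V} {P Q : List V} {n : ℕ}
    (h : Cl G (x :: (Q ++ y :: (P.reverse ++ [x]))) n) :
    Hp G (x :: (P ++ [y])) (x :: (Q ++ [y])) n := by
  intro l1 l2 m hm
  have h1 : Cl G (l1 ++ x :: (P ++ y :: l2)) m := hm.congr (by simp)
  exact (h1.replace h).congr (by simp)

theorem Hq.of_cl {x y : V} {P Q : List V} {n : ℕ}
    (h : Cl G (x :: (Q ++ y :: (P.reverse ++ [x]))) n) :
    Hq G (x :: (P ++ [y])) (x :: (Q ++ [y])) n := by
  refine ⟨Hp.of_cl h, Hp.of_cl ?_⟩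
  exact h.reverse.congr (by simp)

/-- removing a closed subwalk -/
theorem Hq.loop {s : V} {q : List V} {n : ℕ} (h : Cl G (s :: q) n) (r : List V) :
    Hq G (s :: (q ++ r)) (s :: r) n := by
  constructor
  · intro l1 l2 m hm
    have h1 : Cl G (l1 ++ s :: (q ++ (r ++ l2))) m := hm.congr (by simp)
    exact (h1.del h).congr (by simp)
  · intro l1 l2 m hm
    have h1 : Cl G (l1 ++ s :: (r ++ l2)) m := hm.congr (by simp)
    exact (h1.insert h).congr (by simp)

/-- shortcut of a path by a triangle -/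
theorem Hq.tri {a b c : V} (hab : G.Adj a b) (hbc : G.Adj b c) (hac : G.Adj a c) :
    Hq G [a, b, c] [a, c] 1 := by
  constructor
  · intro l1 l2 m hm
    have h1 : Cl G (l1 ++ a :: b :: c :: l2) m := hm.congr (by simp)
    exact (h1.shortcut hac hab hbc).congr (by simp)
  · intro l1 l2 m hm
    have h1 : Cl G (l1 ++ a :: c :: l2) m := hm.congr (by simp)
    exact (h1.untri hac hab hbc).congr (by simp)

theorem Hp.map {z : V → V} (hz : ∀ v, z (z v) = v) (hadj : ∀ a b, G.Adj a b → G.Adj (z a) (z b))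
    {p q : List V} {n : ℕ} (h : Hp G p q n) : Hp G (p.map z) (q.map z) n := by
  intro l1 l2 m hm
  have hzz : ∀ l : List V, (l.map z).map z = l := fun l => by
    simp [List.map_map, Function.comp_def, hz]
  have h1 := hm.map z hadj
  have h2 : Cl G (l1.map z ++ (p ++ l2.map z)) m := h1.congr (by
    simp only [List.map_append, hzz])
  have h3 := (h _ _ _ h2).map z hadj
  exact h3.congr (by simp only [List.map_append, hzz])

theorem Hq.map {z : V → V} (hz : ∀ v, z (z v) = v) (hadj : ∀ a b, G.Adj a b → G.Adj (z a) (z b))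
    {p q : List V} {n : ℕ} (h : Hq G p q n) : Hq G (p.map z) (q.map z) n :=
  ⟨h.1.map hz hadj, h.2.map hz hadj⟩

/-- from a homotopy of paths to a closed walk -/
theorem Hp.to_cl {x y : V} {P Q : List V} {n : ℕ} (h : Hp G (x :: (P ++ [y])) (x :: (Q ++ [y])) n)
    (hP : Ch G (x :: (P ++ [y]))) : Cl G (x :: (Q ++ y :: (P.reverse ++ [x]))) n := by
  have h1 := Cl.of_Ch hP
  have h2 := h [] (P.reverse ++ [x]) 0 (h1.congr (by simp))
  exact (h2.congr (by simp)).mono (by omega)

/-- the splitting condition, in rotated form -/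
theorem unsplit_of_rot {W : List V} {n : ℕ} (hc : Cyc G W n) (hmin : ∀ m, Cyc G W m → n ≤ m)
    (h : ∀ s M R, W ~r (s :: (M ++ s :: R)) → ∀ n1 n2, Cl G (s :: (M ++ [s])) n1 →
      Cl G (s :: (R ++ [s])) n2 → n < n1 + n2) : Unsplit G W n := by
  refine ⟨hc, hmin, ?_⟩
  rintro a t rfl X s M Y e hXY n1 n2 h1 h2
  cases X with
  | nil =>
    simp only [List.nil_append, List.cons.injEq] at e
    obtain ⟨rfl, e⟩ := e
    have hY : Y ≠ [] := by simpa using hXY
    have h2' : Cl G (a :: Y) n2 := h2
    rcases h2'.ends with rfl | ⟨Y', rfl⟩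
    · exact absurd rfl hY
    · have ht : t = M ++ a :: Y' := by
        have : t ++ [a] = (M ++ a :: Y') ++ [a] := by rw [e]; simp
        exact List.append_cancel_right this
      subst ht
      exact h a M Y' (List.IsRotated.refl _) n1 n2 h1 h2'
  | cons x X' =>
    simp only [List.cons_append, List.cons.injEq] at e
    obtain ⟨rfl, e⟩ := e
    have h2' : Cl G (a :: (X' ++ s :: Y)) n2 := h2
    rcases h2'.endsAt with ⟨rfl, rfl⟩ | ⟨Y', rfl⟩
    · have ht : t = X' ++ s :: M := by
        have : t ++ [s] = (X' ++ s :: M) ++ [s] := by rw [e]; simp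
        exact List.append_cancel_right this
      subst ht
      refine h s M X' ?_ n1 n2 h1 (h2'.congr (by simp))
      have := List.isRotated_append (l := s :: X') (l' := s :: M)
      simpa using this
    · have ht : t = X' ++ s :: (M ++ s :: Y') := by
        have : t ++ [a] = (X' ++ s :: (M ++ s :: Y')) ++ [a] := by rw [e]; simp
        exact List.append_cancel_right this
      subst ht
      refine h s M (Y' ++ a :: X') ?_ n1 n2 h1 ?_
      · have := List.isRotated_append (l := a :: X') (l' := s :: (M ++ s :: Y'))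
        simpa using this
      · exact h2'.rotate.congr (by simp)

theorem Good.rot {D1 D2 : List (Ent V)} {W : List V} {n : ℕ} (h : Good G ang (D1 ++ D2) W n) :
    Good G ang (D2 ++ D1) ((D2 ++ D1).map Ent.v) n := by
  obtain ⟨_, hok, hsum, hmarks⟩ := h
  refine ⟨rfl, ?_, ?_, ?_⟩
  · cases D1 with
    | nil => simpa using hok
    | cons d P =>
      cases D2 with
      | nil => simpa using hok
      | cons e Q =>
        simp only [List.cons_append, okc, lst_append, lst_cons] at hok ⊢
        have h1 := (ok_append (G := G) (ang := ang) (d :: P) (e :: Q) (lst e.v Q) d.v).1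
          (by simpa using hok)
        have h2 := (ok_append (G := G) (ang := ang) (e :: Q) (d :: P) (lst d.v P) e.v).2
          ⟨by simpa using h1.2, by simpa using h1.1⟩
        simpa using h2
  · rw [dsum_append] at hsum ⊢
    linarith
  · intro M hM hI
    obtain ⟨M2, M1, rfl, hM2, hM1⟩ := map_fst_append hM
    have hI' : Indep G (M1 ++ M2) := by
      rw [indep_iff] at hI ⊢
      refine hI.perm ?_ (fun h => indep_sym h)
      rw [List.map_append, List.map_append]
      exact List.perm_append_comm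
    obtain ⟨m, hm, hc⟩ := hmarks (M1 ++ M2) (by simp [hM1, hM2]) hI'
    refine ⟨m, ?_, ?_⟩
    · simp only [cost_append] at hm ⊢; omega
    · rw [sub_append] at hc ⊢
      exact hc.rot

/-- The pushing lemma: remove the fan at `d`, and replace the fan at `e` by another one with the
same ends. -/
theorem Good.push (hA : AngSys G ang) {e d : Ent V} {DL DR : List (Ent V)} {W : List V} {n : ℕ}
    (hg : Good G ang (e :: DL ++ d :: DR) W n) (hL : DL ≠ []) (hR : DR ≠ [])
    (hadj : ¬ G.Adj e.v d.v) {T : List V} {ET : ℝ}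
    (hT : Fan G ang (lst d.v DR) ⟨e.v, T, ET⟩ (hd DL d.v)) (hlt : e.E + ET < 2 * π)
    (hsymm : ∀ v a b, ang v a b = ang v b a) :
    ∃ m, m + d.S.length + 2 ≤ n + T.length ∧
      Cyc G (T ++ (DL.map Ent.v ++ (d.S ++ DR.map Ent.v))) m := by
  obtain ⟨_, hok, _, hmarks⟩ := hg
  have hI : Indep G ((e, true) :: um DL ++ (d, true) :: um DR) := by
    rw [List.cons_append]
    refine List.pairwise_cons.2 ⟨?_, indep_single⟩
    intro q hq _ hq2
    rcases List.mem_append.1 hq with hq | hq
    · rw [mem_um hq] at hq2; simp at hq2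
    · rcases List.mem_cons.1 hq with rfl | hq
      · exact hadj
      · rw [mem_um hq] at hq2; simp at hq2
  obtain ⟨m, hm, hc⟩ := hmarks _ (by simp) hI
  simp only [List.cons_append, cost_append, cost_um, cost_cons_true, sub_append, sub_um,
    sub_cons_true] at hm hc
  -- the fan at e
  have hfe : Fan G ang (lst d.v DR) e (hd DL d.v) := by
    have h1 : Pool.Agent.H351.ok G ang (lst e.v (DL ++ d :: DR)) (e :: (DL ++ d :: DR)) e.v := hok
    have h2 : Fan G ang (lst e.v (DL ++ d :: DR)) e (hd (DL ++ d :: DR) e.v) := h1.1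
    rw [lst_append, lst_cons, hd_append, hd_cons] at h2
    exact h2
  obtain ⟨b1, b2, b3⟩ := hT
  obtain ⟨c1, c2, c3⟩ := hfe
  obtain ⟨dl, DL', rfl⟩ : ∃ dl DL', DL = dl :: DL' := List.exists_cons_of_ne_nil hL
  obtain ⟨DR', dr, rfl⟩ : ∃ DR' dr, DR = DR' ++ [dr] := by
    rcases List.eq_nil_or_concat DR with h | ⟨a, b, h⟩
    · exact absurd h hR
    · exact ⟨a, b, by simpa using h⟩
  simp only [hd_cons, lst_append, lst_cons, lst_nil] at b1 b2 b3 c1 c2 c3
  set p := dl.v with hp
  set q := dr.v with hq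
  -- closed walk q S_e p T^r
  have hC : CCh G (q :: (e.S ++ p :: T.reverse)) := by
    have h1 : Ch G ((q :: e.S) ++ p :: (T.reverse ++ [q])) := by
      rw [Ch_append]
      refine ⟨by simpa using c1, ?_⟩
      have := Ch_reverse b1
      simpa using this
    simpa [CCh] using h1
  have hCl : clen (ang e.v) (q :: (e.S ++ p :: T.reverse)) = e.E + ET := by
    have e1 : clen (ang e.v) (q :: (e.S ++ p :: T.reverse)) =
        plen (ang e.v) ((q :: e.S) ++ p :: (T.reverse ++ [q])) := by simp [clen]
    rw [e1, plen_append]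
    have e2 : p :: (T.reverse ++ [q]) = (q :: (T ++ [p])).reverse := by simp
    rw [e2, plen_reverse (hsymm e.v), b3]
    have e3 : (q :: e.S) ++ [p] = q :: (e.S ++ [p]) := by simp
    rw [e3, c3]
  have hfill := hA.fill (v := e.v) _ _ rfl hC (by
    intro x hx
    simp only [List.mem_cons, List.mem_append, List.mem_reverse] at hx
    rcases hx with rfl | hx | rfl | hx
    · exact c2 _ (by simp)
    · exact c2 _ (by simp [hx])
    · exact c2 _ (by simp)
    · exact b2 _ (by simp [hx])) (by rw [hCl]; exact hlt)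
  have hfill' : Cl G (q :: (T ++ p :: (e.S.reverse ++ [q]))) (e.S.length + T.length) := by
    have h1 : Cl G (q :: (e.S ++ p :: (T.reverse ++ [q]))) (e.S.length + T.length) := by
      have := hfill.toCl'
      exact (this.congr (by simp)).mono (by simp)
    exact h1.reverse.congr (by simp)
  have hc1 : Cyc G ([q] ++ (e.S ++ (p :: (DL'.map Ent.v ++ (d.S ++ DR'.map Ent.v))))) m := by
    have h1 : Cyc G ((e.S ++ (p :: (DL'.map Ent.v ++ (d.S ++ DR'.map Ent.v)))) ++ [q]) m :=
      hc.congr (by simp [hp, hq])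
    exact h1.rot
  have hc2 : Cl G ([] ++ q :: (e.S ++ p :: (DL'.map Ent.v ++ (d.S ++ DR'.map Ent.v) ++ [q]))) m :=
    hc1.toCl'.congr (by simp)
  have hc3 := hc2.replace hfill'
  have hc4 : Cyc G ([q] ++ (T ++ p :: (DL'.map Ent.v ++ (d.S ++ DR'.map Ent.v))))
      (m + (e.S.length + T.length)) := Cyc.ofCl (hc3.congr (by simp))
  refine ⟨m + (e.S.length + T.length), by omega, ?_⟩
  exact hc4.rot.congr (by simp [hp, hq])

/-- choosing a good pair of corners -/
theorem pair_exists : ∀ (D1 D2 : List (Ent V)), D1.length = D2.length → 0 < dsum D1 + dsum D2 →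
    ∃ P1 d P2 Q1 e Q2, D1 = P1 ++ d :: P2 ∧ D2 = Q1 ++ e :: Q2 ∧ P1.length = Q1.length ∧
      d.E + e.E < 2 * π := by
  intro D1
  induction D1 with
  | nil =>
    intro D2 h hs
    have : D2 = [] := by
      cases D2 with
      | nil => rfl
      | cons _ _ => simp at h
    subst this
    simp at hs
  | cons d D1 ih =>
    intro D2 h hs
    cases D2 with
    | nil => simp at h
    | cons e D2 =>
      by_cases hde : d.E + e.E < 2 * π
      · exact ⟨[], d, D1, [], e, D2, rfl, rfl, rfl, hde⟩
      · simp only [dsum_cons] at hs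
        obtain ⟨P1, d', P2, Q1, e', Q2, h1, h2, h3, h4⟩ := ih D2 (by simpa using h) (by linarith)
        exact ⟨d :: P1, d', P2, e :: Q1, e', Q2, by simp [h1], by simp [h2], by simp [h3], h4⟩

/-- rotations of a doubled list -/
theorem rot_double {z : V → V} (hz : ∀ v, z (z v) = v) {U L : List V}
    (h : (U ++ U.map z) ~r L) :
    ∃ U', L = U' ++ U'.map z ∧ U'.length = U.length ∧ ∀ v ∈ U', v ∈ U ∨ z v ∈ U := by
  obtain ⟨k, rfl⟩ := h
  induction k with
  | zero => exact ⟨U, by simp, rfl, fun v hv => Or.inl hv⟩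
  | succ k ih =>
    obtain ⟨U', h1, h2, h3⟩ := ih
    rw [← List.rotate_rotate, h1]
    cases U' with
    | nil => exact ⟨[], by simp, h2, by simp⟩
    | cons a U0 =>
      refine ⟨U0 ++ [z a], by simp [hz], by simpa using h2, ?_⟩
      intro v hv
      simp only [List.mem_append, List.mem_singleton] at hv
      rcases hv with hv | rfl
      · exact h3 v (by simp [hv])
      · rw [hz]
        exact (h3 a (by simp)).symm

end Pool.Agent.H351
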