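import Pool.Agent.H351.Cl

/-!
Angled flag complexes: angles, paths and cycles in links, and the filling of short cycles.
-/

namespace Pool.Agent.H351

open scoped BigOperators Real

variable {V : Type*}

/-- consecutive vertices are adjacent -/
def Ch (G : SimpleGraph V) : List V → Prop
  | a :: b :: l => G.Adj a b ∧ Ch G (b :: l)
  | _ => True

/-- the length of a path with respect to the weight `f` of its edges -/
def plen (f : V → V → ℝ) : List V → ℝ
  | a :: b :: l => f a b + plen f (b :: l)
  | _ => 0

@[simp] theorem Ch_nil (G : SimpleGraph V) : Ch G [] := trivial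
@[simp] theorem Ch_single (G : SimpleGraph V) (a : V) : Ch G [a] := trivial
@[simp] theorem Ch_cons2 (G : SimpleGraph V) (a b : V) (l : List V) :
    Ch G (a :: b :: l) ↔ G.Adj a b ∧ Ch G (b :: l) := Iff.rfl
@[simp] theorem plen_nil (f : V → V → ℝ) : plen f [] = 0 := rfl
@[simp] theorem plen_single (f : V → V → ℝ) (a : V) : plen f [a] = 0 := rfl
@[simp] theorem plen_cons2 (f : V → V → ℝ) (a b : V) (l : List V) :
    plen f (a :: b :: l) = f a b + plen f (b :: l) := rfl

theorem Ch_append {G : SimpleGraph V} : ∀ {l1 l2 : List V} {x : V},
    Ch G (l1 ++ x :: l2) ↔ Ch G (l1 ++ [x]) ∧ Ch G (x :: l2) := by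
  intro l1
  induction l1 with
  | nil => intro l2 x; simp
  | cons a l1' ih =>
    intro l2 x
    cases l1' with
    | nil => simp
    | cons b l1'' =>
      have := @ih l2 x
      simp only [List.cons_append, Ch_cons2] at this ⊢
      tauto

theorem plen_append {f : V → V → ℝ} : ∀ {l1 l2 : List V} {x : V},
    plen f (l1 ++ x :: l2) = plen f (l1 ++ [x]) + plen f (x :: l2) := by
  intro l1
  induction l1 with
  | nil => intro l2 x; simp
  | cons a l1' ih =>
    intro l2 x
    cases l1' with
    | nil => simp
    | cons b l1'' =>
      have := @ih l2 x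
      simp only [List.cons_append, plen_cons2] at this ⊢
      linarith

theorem Ch_reverse {G : SimpleGraph V} : ∀ {l : List V}, Ch G l → Ch G l.reverse := by
  intro l
  induction l with
  | nil => simp
  | cons a l' ih =>
    intro h
    cases l' with
    | nil => simp
    | cons b l'' =>
      simp only [Ch_cons2] at h
      have h1 := ih h.2
      simp only [List.reverse_cons, List.append_assoc, List.singleton_append] at h1 ⊢
      rw [Ch_append]
      exact ⟨h1, by simpa using h.1.symm⟩

theorem plen_reverse {f : V → V → ℝ} (hf : ∀ a b, f a b = f b a) :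
    ∀ {l : List V}, plen f l.reverse = plen f l := by
  intro l
  induction l with
  | nil => simp
  | cons a l' ih =>
    cases l' with
    | nil => simp
    | cons b l'' =>
      simp only [List.reverse_cons, List.append_assoc, List.singleton_append, plen_cons2] at ih ⊢
      rw [plen_append, ih, plen_cons2, plen_single, hf b a]
      ring

theorem plen_nonneg {f : V → V → ℝ} {G : SimpleGraph V} {S : V → Prop}
    (hf : ∀ a b, S a → S b → G.Adj a b → 0 ≤ f a b) : ∀ {l : List V}, Ch G l →
    (∀ x ∈ l, S x) → 0 ≤ plen f l := by
  intro l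
  induction l with
  | nil => intros; simp
  | cons a l' ih =>
    intro h hS
    cases l' with
    | nil => simp
    | cons b l'' =>
      simp only [Ch_cons2] at h
      have h1 := ih h.2 (fun x hx => hS x (List.mem_cons_of_mem _ hx))
      have h2 := hf a b (hS a (by simp)) (hS b (by simp)) h.1
      simp only [plen_cons2]
      linarith

/-- cyclic version of `Ch` -/
def CCh (G : SimpleGraph V) : List V → Prop
  | [] => True
  | a :: t => Ch G (a :: (t ++ [a]))

/-- cyclic version of `plen` -/
def clen (f : V → V → ℝ) : List V → ℝ
  | [] => 0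
  | a :: t => plen f (a :: (t ++ [a]))

theorem CCh_rot {G : SimpleGraph V} {X Y : List V} (h : CCh G (X ++ Y)) : CCh G (Y ++ X) := by
  cases X with
  | nil => simpa using h
  | cons x X' =>
    cases Y with
    | nil => simpa using h
    | cons y Y' =>
      simp only [CCh, List.cons_append, List.append_assoc] at h ⊢
      have h1 : Ch G ((x :: X') ++ y :: (Y' ++ [x])) := by simpa using h
      rw [Ch_append] at h1
      have h2 : Ch G ((y :: Y') ++ x :: (X' ++ [y])) := by
        rw [Ch_append]
        exact ⟨by simpa using h1.2, by simpa using h1.1⟩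
      simpa using h2

theorem clen_rot {f : V → V → ℝ} {X Y : List V} : clen f (X ++ Y) = clen f (Y ++ X) := by
  cases X with
  | nil => simp
  | cons x X' =>
    cases Y with
    | nil => simp
    | cons y Y' =>
      simp only [clen, List.cons_append, List.append_assoc]
      have h1 : plen f (x :: (X' ++ y :: (Y' ++ [x]))) =
          plen f ((x :: X') ++ y :: (Y' ++ [x])) := by simp
      have h2 : plen f (y :: (Y' ++ x :: (X' ++ [y]))) =
          plen f ((y :: Y') ++ x :: (X' ++ [y])) := by simp
      rw [h1, h2, plen_append, @plen_append _ f (y :: Y')]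
      simp only [List.cons_append]
      ring

theorem CCh_isRotated {G : SimpleGraph V} {C D : List V} (h : C ~r D) (hC : CCh G C) :
    CCh G D := by
  obtain ⟨n, rfl⟩ := h
  rw [List.rotate_eq_drop_append_take_mod]
  apply CCh_rot
  rwa [List.take_append_drop]

theorem clen_isRotated {f : V → V → ℝ} {C D : List V} (h : C ~r D) : clen f C = clen f D := by
  obtain ⟨n, rfl⟩ := h
  rw [List.rotate_eq_drop_append_take_mod, ← clen_rot, List.take_append_drop]

theorem Cyc.isRotated {G : SimpleGraph V} {C D : List V} {n : ℕ} (h : C ~r D) (hC : Cyc G C n) :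
    Cyc G D n := by
  obtain ⟨k, rfl⟩ := h
  rw [List.rotate_eq_drop_append_take_mod]
  apply Cyc.rot
  rwa [List.take_append_drop]

theorem Ch_iff_getElem {G : SimpleGraph V} : ∀ {l : List V},
    Ch G l ↔ ∀ i (h : i + 1 < l.length), G.Adj l[i] l[i + 1] := by
  intro l
  induction l with
  | nil => simp
  | cons a l' ih =>
    cases l' with
    | nil => simp
    | cons b l'' =>
      simp only [Ch_cons2]
      rw [ih]
      constructor
      · rintro ⟨h0, h⟩ i hi
        cases i with
        | zero => simpa using h0
        | succ i => exact h i (by simpa using hi)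
      · intro h
        refine ⟨by simpa using h 0 (by simp), fun i hi => ?_⟩
        exact h (i + 1) (by simpa using hi)

theorem plen_eq_sum {f : V → V → ℝ} [Inhabited V] : ∀ {l : List V},
    plen f l = ∑ i ∈ Finset.range (l.length - 1), f (l.getD i default) (l.getD (i + 1) default) := by
  intro l
  induction l with
  | nil => simp
  | cons a l' ih =>
    cases l' with
    | nil => simp
    | cons b l'' =>
      simp only [plen_cons2]
      rw [ih]
      simp only [List.length_cons, Nat.add_sub_cancel]
      rw [Finset.sum_range_succ', add_comm]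
      rfl

/-- A flag complex with angles: `ang v a b` is the angle at `v` of the triangle `v, a, b`. -/
structure AngSys (G : SimpleGraph V) (ang : V → V → V → ℝ) : Prop where
  symm : ∀ v a b, ang v a b = ang v b a
  pos : ∀ v a b, G.Adj v a → G.Adj v b → G.Adj a b → 0 < ang v a b
  sum : ∀ a b c, G.Adj a b → G.Adj b c → G.Adj a c → ang a b c + ang b a c + ang c a b ≤ π
  tri : ∀ v a b c, G.Adj v a → G.Adj v b → G.Adj v c → G.Adj a b → G.Adj b c → G.Adj a c →
    ang v a c ≤ ang v a b + ang v b c
  large : ∀ (v : V) (k : ℕ) (c : ZMod (k + 4) → V), Function.Injective c →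
    (∀ i, G.Adj v (c i)) → (∀ i, G.Adj (c i) (c (i + 1))) → (∀ i, ¬ G.Adj (c i) (c (i + 2))) →
    2 * π ≤ ∑ i, ang v (c i) (c (i + 1))

theorem exists_repeat {C : List V} (h : ¬ C.Nodup) :
    ∃ A a M R, C = A ++ a :: (M ++ a :: R) := by
  induction C with
  | nil => simp at h
  | cons a t ih =>
    by_cases ha : a ∈ t
    · obtain ⟨M, R, rfl⟩ := List.append_of_mem ha
      exact ⟨[], a, M, R, rfl⟩
    · have : ¬ t.Nodup := fun ht => h (List.nodup_cons.2 ⟨ha, ht⟩)
      obtain ⟨A, b, M, R, rfl⟩ := ih this
      exact ⟨a :: A, b, M, R, rfl⟩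

theorem getD_cyc1 [Inhabited V] {C : List V} {a : V} {i : ℕ} (hi : i < C.length) :
    (C ++ [a]).getD i default = C.getD i default := by
  simp only [List.getD_eq_getElem?_getD]
  rw [List.getElem?_append_left hi]

theorem getD_cyc2 [Inhabited V] {t : List V} {a : V} {i : ℕ} (hi : i < (a :: t).length) :
    ((a :: t) ++ [a]).getD (i + 1) default =
      (a :: t).getD ((i + 1) % (a :: t).length) default := by
  rcases Nat.lt_or_ge (i + 1) (a :: t).length with h | h
  · rw [Nat.mod_eq_of_lt h, getD_cyc1 h]
  · have h1 : i + 1 = (a :: t).length := by omega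
    rw [h1, Nat.mod_self]
    simp

theorem CCh_getD [Inhabited V] {G : SimpleGraph V} {C : List V} (h : CCh G C) {i : ℕ}
    (hi : i < C.length) : G.Adj (C.getD i default) (C.getD ((i + 1) % C.length) default) := by
  cases C with
  | nil => simp at hi
  | cons a t =>
    rw [← getD_cyc2 hi, ← getD_cyc1 (a := a) hi]
    have h1 : Ch G ((a :: t) ++ [a]) := h
    rw [Ch_iff_getElem] at h1
    have h2 := h1 i (by simp at hi ⊢; omega)
    rw [List.getD_eq_getElem _ _ (by simp at hi ⊢; omega),
      List.getD_eq_getElem _ _ (by simp at hi ⊢; omega)]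
    exact h2

theorem clen_getD [Inhabited V] {f : V → V → ℝ} {C : List V} :
    clen f C = ∑ i ∈ Finset.range C.length,
      f (C.getD i default) (C.getD ((i + 1) % C.length) default) := by
  cases C with
  | nil => simp [clen]
  | cons a t =>
    have h1 : clen f (a :: t) = plen f ((a :: t) ++ [a]) := rfl
    rw [h1, plen_eq_sum]
    have h2 : ((a :: t) ++ [a]).length - 1 = (a :: t).length := by simp
    rw [h2]
    apply Finset.sum_congr rfl
    intro i hi
    rw [Finset.mem_range] at hi
    rw [getD_cyc2 hi, getD_cyc1 hi]

theorem rotate_three [Inhabited V] {C : List V} (hC : 4 ≤ C.length) {j : ℕ} (hj : j < C.length) :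
    ∃ R, C.rotate j = C.getD j default :: C.getD ((j + 1) % C.length) default ::
      C.getD ((j + 2) % C.length) default :: R := by
  have hl : (C.rotate j).length = C.length := List.length_rotate _ _
  have hg : ∀ m (hm : m < C.length), (C.rotate j).getD m default =
      C.getD ((m + j) % C.length) default := by
    intro m hm
    have hpos : 0 < C.length := by omega
    rw [List.getD_eq_getElem _ _ (by omega),
      List.getD_eq_getElem _ _ (Nat.mod_lt _ hpos), List.getElem_rotate]
  match hR : C.rotate j with
  | [] => rw [hR] at hl; simp at hl; omega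
  | [a] => rw [hR] at hl; simp at hl; omega
  | [a, b] => rw [hR] at hl; simp at hl; omega
  | a :: b :: c :: R =>
    refine ⟨R, ?_⟩
    have h0 := hg 0 (by omega)
    have h1 := hg 1 (by omega)
    have h2 := hg 2 (by omega)
    rw [hR] at h0 h1 h2
    rw [Nat.zero_add, Nat.mod_eq_of_lt hj] at h0
    rw [Nat.add_comm 1 j] at h1
    rw [Nat.add_comm 2 j] at h2
    rw [← h0, ← h1, ← h2]
    rfl

variable {G : SimpleGraph V} {ang : V → V → V → ℝ}

theorem AngSys.step (hA : AngSys G ang) {v : V} {C : List V} (hl : 4 ≤ C.length) (hC : CCh G C)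
    (hv : ∀ x ∈ C, G.Adj v x) (hlen : clen (ang v) C < 2 * π) :
    (∃ a M R, C ~r (a :: (M ++ a :: R))) ∨ (∃ a b c R, C ~r (a :: b :: c :: R) ∧ G.Adj a c) := by
  have : Inhabited V := ⟨v⟩
  by_contra hcon
  push Not at hcon
  obtain ⟨hrep, hch⟩ := hcon
  have hnd : C.Nodup := by
    by_contra h
    obtain ⟨A, a, M, R, rfl⟩ := exists_repeat h
    apply hrep a M (R ++ A)
    have := List.isRotated_append (l := A) (l' := a :: (M ++ a :: R))
    simpa using this
  obtain ⟨k, hk⟩ : ∃ k, C.length = k + 4 := ⟨C.length - 4, by omega⟩
  have hval : ∀ i : ZMod (k + 4), ZMod.val i < C.length := fun i => by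
    rw [hk]; exact ZMod.val_lt i
  let c : ZMod (k + 4) → V := fun i => C.getD (ZMod.val i) default
  have hc1 : ∀ i, c (i + 1) = C.getD ((ZMod.val i + 1) % C.length) default := by
    intro i
    have : ZMod.val (i + 1) = (ZMod.val i + 1) % C.length := by
      rw [ZMod.val_add, hk, ZMod.val_one_eq_one_mod]
      simp
    simp only [c, this]
  have hc2 : ∀ i, c (i + 2) = C.getD ((ZMod.val i + 2) % C.length) default := by
    intro i
    have h2 : ZMod.val (2 : ZMod (k + 4)) = 2 := by
      have : ((2 : ℕ) : ZMod (k + 4)) = 2 := by norm_cast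
      rw [← this, ZMod.val_natCast]
      exact Nat.mod_eq_of_lt (by omega)
    have : ZMod.val (i + 2) = (ZMod.val i + 2) % C.length := by
      rw [ZMod.val_add, hk, h2]
    simp only [c, this]
  have hinj : Function.Injective c := by
    intro i j hij
    have h1 : C.getD (ZMod.val i) default = C.getD (ZMod.val j) default := hij
    rw [List.getD_eq_getElem _ _ (hval i), List.getD_eq_getElem _ _ (hval j)] at h1
    have h2 := (List.Nodup.getElem_inj_iff hnd).1 h1
    exact ZMod.val_injective _ h2
  have hmem : ∀ i, c i ∈ C := by
    intro i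
    have : c i = C[ZMod.val i]'(hval i) := List.getD_eq_getElem _ _ (hval i)
    rw [this]
    exact List.getElem_mem _
  have hbig := hA.large v k c hinj (fun i => hv _ (hmem i))
    (fun i => by rw [hc1]; exact CCh_getD hC (hval i)) (fun i hadj => by
      rw [hc2] at hadj
      obtain ⟨R, hR⟩ := rotate_three hl (hval i)
      exact hch _ _ _ R ⟨_, hR⟩ hadj)
  have hsum : clen (ang v) C = ∑ i, ang v (c i) (c (i + 1)) := by
    rw [clen_getD]
    simp only [hc1]
    rw [hk]
    exact (Fin.sum_univ_eq_sum_range (fun i => ang v (C.getD i default)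
      (C.getD ((i + 1) % (k + 4)) default)) (k + 4)).symm
  linarith

theorem CCh.ne_single {a : V} (h : CCh G [a]) : False := by
  simp [CCh] at h

theorem mem_isRotated {C D : List V} (h : C ~r D) {P : V → Prop} (hP : ∀ x ∈ C, P x) :
    ∀ x ∈ D, P x := fun x hx => hP x (h.mem_iff.2 hx)

/-- Short cycles in links are contractible in the complex with few triangles. -/
theorem AngSys.fill (hA : AngSys G ang) {v : V} : ∀ (n : ℕ) (C : List V), C.length = n →
    CCh G C → (∀ x ∈ C, G.Adj v x) → clen (ang v) C < 2 * π → Cyc G C (n - 2) := by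
  have hnn : ∀ a b, G.Adj v a → G.Adj v b → G.Adj a b → 0 ≤ ang v a b :=
    fun a b h1 h2 h3 => (hA.pos v a b h1 h2 h3).le
  intro n
  induction n using Nat.strong_induction_on with
  | _ n IH =>
    intro C hn hC hv hlen
    rcases Nat.lt_or_ge n 4 with h4 | h4
    · match C, hn with
      | [], _ => trivial
      | [a], _ => exact absurd hC (fun h => h.ne_single)
      | [a, b], hn =>
        simp only [CCh, List.cons_append, List.nil_append, Ch_cons2] at hC
        exact (Cl.spur hC.1 _ : Cl G [a, b, a] _)
      | [a, b, c], hn =>
        simp only [CCh, List.cons_append, List.nil_append, Ch_cons2] at hC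
        subst hn
        exact (Cl.triangle hC.1 hC.2.1 hC.2.2.1.symm : Cl G [a, b, c, a] 1)
      | a :: b :: c :: d :: l, hn => simp at hn; omega
    · rcases hA.step (by omega) hC hv hlen with ⟨a, M, R, hr⟩ | ⟨a, b, c, R, hr, hac⟩
      · have hC' := CCh_isRotated hr hC
        have hv' := mem_isRotated hr hv
        have hl' := clen_isRotated (f := ang v) hr
        rw [hl'] at hlen
        have hlen' := hr.perm.length_eq
        simp only [List.length_cons, List.length_append] at hlen'
        -- split
        have hCh : Ch G ((a :: M) ++ a :: (R ++ [a])) := by simpa [CCh] using hC'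
        rw [Ch_append] at hCh
        have h1 : CCh G (a :: M) := by simpa [CCh] using hCh.1
        have h2 : CCh G (a :: R) := by simpa [CCh] using hCh.2
        have hcl : clen (ang v) (a :: (M ++ a :: R)) = clen (ang v) (a :: M) +
            clen (ang v) (a :: R) := by
          have : clen (ang v) (a :: (M ++ a :: R)) = plen (ang v) ((a :: M) ++ a :: (R ++ [a])) := by
            simp [clen]
          rw [this, plen_append]
          simp [clen]
        have hvM : ∀ x ∈ a :: M, G.Adj v x := fun x hx => hv' x (by
          simp only [List.mem_cons, List.mem_append] at hx ⊢; tauto)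
        have hvR : ∀ x ∈ a :: R, G.Adj v x := fun x hx => hv' x (by
          simp only [List.mem_cons, List.mem_append] at hx ⊢; tauto)
        have hM0 : M ≠ [] := by rintro rfl; exact h1.ne_single
        have hR0 : R ≠ [] := by rintro rfl; exact h2.ne_single
        have hMl := List.length_pos_iff.2 hM0
        have hRl := List.length_pos_iff.2 hR0
        have hp1 : 0 ≤ clen (ang v) (a :: M) := plen_nonneg hnn h1 (fun x hx => hvM x (by
          simp only [List.mem_cons, List.mem_append] at hx ⊢; tauto))
        have hp2 : 0 ≤ clen (ang v) (a :: R) := plen_nonneg hnn h2 (fun x hx => hvR x (by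
          simp only [List.mem_cons, List.mem_append] at hx ⊢; tauto))
        have i1 := IH (M.length + 1) (by omega) (a :: M) (by simp) h1 hvM (by linarith)
        have i2 := IH (R.length + 1) (by omega) (a :: R) (by simp) h2 hvR (by linarith)
        have i3 : Cyc G (a :: (M ++ a :: R)) (n - 2) := by
          have := (i1.toCl.concat i2.toCl)
          exact Cyc.ofCl ((this.mono (by omega)).congr (by simp))
        exact i3.isRotated hr.symm
      · have hC' := CCh_isRotated hr hC
        have hv' := mem_isRotated hr hv
        have hl' := clen_isRotated (f := ang v) hr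
        rw [hl'] at hlen
        have hlen' := hr.perm.length_eq
        simp only [List.length_cons] at hlen'
        simp only [CCh, List.cons_append, Ch_cons2] at hC'
        simp only [clen, List.cons_append, plen_cons2] at hlen
        have hva := hv' a (by simp)
        have hvb := hv' b (by simp)
        have hvc := hv' c (by simp)
        have htri := hA.tri v a b c hva hvb hvc hC'.1 hC'.2.1 hac
        have h1 : CCh G (a :: c :: R) := by
          simp only [CCh, List.cons_append, Ch_cons2]
          exact ⟨hac, hC'.2.2⟩
        have h2 : ∀ x ∈ a :: c :: R, G.Adj v x := fun x hx => hv' x (by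
          simp only [List.mem_cons] at hx ⊢; tauto)
        have i1 := IH (R.length + 2) (by omega) (a :: c :: R) (by simp) h1 h2 (by
          simp only [clen, List.cons_append, plen_cons2]; linarith)
        have i2 : Cyc G (a :: b :: c :: R) (n - 2) := by
          have h3 : Cl G ([] ++ a :: c :: (R ++ [a])) (R.length + 2 - 2) := i1.toCl
          have h4 := h3.untri (z := b) hac hC'.1 hC'.2.1
          exact Cyc.ofCl ((h4.mono (by omega)).congr (by simp))
        exact i2.isRotated hr.symm

end Pool.Agent.H351
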