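import Pool.Agent.H351.Metric

/-!
Passing to the fixed set of an involution, and the conclusion for 2-groups.
-/

namespace Pool.Agent.H351

open scoped BigOperators Real

variable {V : Type*} {G : SimpleGraph V} {ang : V → V → V → ℝ}

/-- a full subcomplex which is nonempty, connected and simply connected -/
structure GoodF (G : SimpleGraph V) (F : Set V) : Prop where
  ne : F.Nonempty
  conn : ∀ x ∈ F, ∀ y ∈ F, (res G F).Reachable x y
  sc : ∀ W, CCh (res G F) W → ∃ n, Cyc (res G F) W n

theorem ch_support {x y : V} (w : G.Walk x y) : Ch G w.support := by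
  induction w with
  | nil => simp
  | @cons a b c h w ih =>
    rw [SimpleGraph.Walk.support_cons]
    cases w with
    | nil => simpa using h
    | cons h' w' =>
      rw [SimpleGraph.Walk.support_cons] at ih ⊢
      exact ⟨h, ih⟩

theorem path_of_reachable {x y : V} (h : G.Reachable x y) (hxy : x ≠ y) :
    ∃ A, Ch G (x :: (A ++ [y])) := by
  obtain ⟨w⟩ := h
  have h1 := ch_support w
  have h2 : w.support.head? = some x := by
    cases w <;> simp
  have h3 : w.support.getLast? = some y := by
    rw [List.getLast?_eq_some_getLast (SimpleGraph.Walk.support_ne_nil w),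
      SimpleGraph.Walk.getLast_support]
  obtain ⟨A, hA⟩ := path_form h2 h3 hxy
  rw [hA] at h1
  exact ⟨A, h1⟩

theorem walk_of_ch : ∀ {l : List V} {x y : V}, Ch G (x :: (l ++ [y])) →
    ∃ w : G.Walk x y, w.support = x :: (l ++ [y]) := by
  intro l
  induction l with
  | nil =>
    intro x y h
    have h' : G.Adj x y := by simpa using h
    exact ⟨SimpleGraph.Walk.cons h' SimpleGraph.Walk.nil, by simp⟩
  | cons a l ih =>
    intro x y h
    simp only [List.cons_append, Ch_cons2] at h
    obtain ⟨w, hw⟩ := ih h.2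
    exact ⟨SimpleGraph.Walk.cons h.1 w, by simp [hw]⟩

theorem EHom.cl {p q : List V} (h : EHom G p q) :
    (∀ n, Cl G p n → ∃ m, Cl G q m) ∧ (∀ n, Cl G q n → ∃ m, Cl G p m) := by
  induction h with
  | refl p => exact ⟨fun n h => ⟨n, h⟩, fun n h => ⟨n, h⟩⟩
  | symm _ ih => exact ⟨ih.2, ih.1⟩
  | trans _ _ ih1 ih2 =>
    constructor
    · intro n h
      obtain ⟨m, hm⟩ := ih1.1 n h
      exact ih2.1 m hm
    · intro n h
      obtain ⟨m, hm⟩ := ih2.2 n h
      exact ih1.2 m hm
  | @spur p q a b hab =>
    constructor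
    · intro n h; exact ⟨n, h.unspur⟩
    · intro n h
      have h1 := h.insert (Cl.spur hab 0)
      exact ⟨_, h1.congr (by simp)⟩
  | @tri p q a b c hab hbc hac =>
    constructor
    · intro n h; exact ⟨_, h.shortcut hac hab hbc⟩
    · intro n h; exact ⟨_, h.untri hac hab hbc⟩

theorem SimplyConn.cyc (h : SimplyConn G) : ∀ W, CCh G W → ∃ n, Cyc G W n := by
  intro W hW
  cases W with
  | nil => exact ⟨0, trivial⟩
  | cons a t =>
    obtain ⟨w, hw⟩ := walk_of_ch (G := G) (l := t) (x := a) (y := a) hW
    have h1 := h.2 a w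
    rw [hw] at h1
    obtain ⟨m, hm⟩ := h1.cl.2 0 (Cl.triv a 0)
    exact ⟨m, Cyc.ofCl hm⟩

theorem mem_of_ch_res {F : Set V} : ∀ {l : List V} {a b : V}, Ch (res G F) (a :: b :: l) →
    ∀ u ∈ a :: b :: l, u ∈ F := by
  intro l
  induction l with
  | nil =>
    intro a b h u hu
    simp only [Ch_cons2] at h
    simp only [List.mem_cons, List.not_mem_nil, or_false] at hu
    rcases hu with rfl | rfl
    · exact h.1.2.1
    · exact h.1.2.2
  | cons c l ih =>
    intro a b h u hu
    rw [Ch_cons2] at h
    rcases List.mem_cons.1 hu with rfl | hu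
    · exact h.1.2.1
    · exact ih h.2 u hu

theorem mem_of_cch_res {F : Set V} {W : List V} (h : CCh (res G F) W) : ∀ u ∈ W, u ∈ F := by
  match W, h with
  | [], _ => simp
  | [a], h => exact absurd h (fun h => h.ne_single)
  | a :: b :: t, h =>
    intro u hu
    have h1 : Ch (res G F) (a :: b :: (t ++ [a])) := h
    exact mem_of_ch_res h1 u (by simp only [List.mem_cons, List.mem_append] at hu ⊢; tauto)

theorem Ch.mono {G' : SimpleGraph V} (h : ∀ a b, G.Adj a b → G'.Adj a b) : ∀ {l : List V},
    Ch G l → Ch G' l := by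
  intro l hl
  induction l with
  | nil => trivial
  | cons a l ih =>
    cases l with
    | nil => trivial
    | cons b l => exact ⟨h _ _ hl.1, ih hl.2⟩

theorem CCh.mono {G' : SimpleGraph V} (h : ∀ a b, G.Adj a b → G'.Adj a b) {W : List V}
    (hW : CCh G W) : CCh G' W := by
  cases W with
  | nil => trivial
  | cons a t => exact Ch.mono h (l := a :: (t ++ [a])) hW

theorem Cyc.monoG {G' : SimpleGraph V} (h : ∀ a b, G.Adj a b → G'.Adj a b) {W : List V} {n : ℕ}
    (hW : Cyc G W n) : Cyc G' W n := by
  have := Cyc.map (H := G') id (fun a b hab => h a b hab) hW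
  simpa using this

theorem AngSys.res (hA : AngSys G ang) (F : Set V) : AngSys (res G F) ang where
  symm := hA.symm
  pos v a b h1 h2 h3 := hA.pos v a b h1.1 h2.1 h3.1
  sum a b c h1 h2 h3 := hA.sum a b c h1.1 h2.1 h3.1
  tri v a b c h1 h2 h3 h4 h5 h6 := hA.tri v a b c h1.1 h2.1 h3.1 h4.1 h5.1 h6.1
  large v k c h1 h2 h3 h4 := hA.large v k c h1 (fun i => (h2 i).1) (fun i => (h3 i).1)
    (fun i h => h4 i ⟨h, (h2 i).2.2, (h2 (i + 2)).2.2⟩)

/-- data of an isometry of the full subcomplex `F`, of order two on `F` -/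
structure Inv2 (G : SimpleGraph V) (ang : V → V → V → ℝ) (F : Set V) (z : V → V) : Prop where
  mem : ∀ v ∈ F, z v ∈ F
  inv : ∀ v ∈ F, z (z v) = v
  adj : ∀ a b, a ∈ F → b ∈ F → G.Adj a b → G.Adj (z a) (z b)
  ang : ∀ v a b, v ∈ F → a ∈ F → b ∈ F → G.Adj v a → G.Adj v b → G.Adj a b →
    ang (z v) (z a) (z b) = ang v a b

open Classical in
/-- extension by the identity -/
noncomputable def ext (F : Set V) (z : V → V) (v : V) : V := if v ∈ F then z v else v

theorem ext_mem {F : Set V} {z : V → V} {v : V} (h : v ∈ F) : ext F z v = z v := by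
  simp [ext, h]

theorem ext_not_mem {F : Set V} {z : V → V} {v : V} (h : v ∉ F) : ext F z v = v := by
  simp [ext, h]

theorem Inv2.ext_inv {F : Set V} {z : V → V} (h : Inv2 G ang F z) (v : V) :
    ext F z (ext F z v) = v := by
  by_cases hv : v ∈ F
  · rw [ext_mem hv, ext_mem (h.mem v hv), h.inv v hv]
  · rw [ext_not_mem hv, ext_not_mem hv]

theorem Inv2.ext_adj {F : Set V} {z : V → V} (h : Inv2 G ang F z) (a b : V)
    (hab : (res G F).Adj a b) : (res G F).Adj (ext F z a) (ext F z b) := by
  rw [ext_mem hab.2.1, ext_mem hab.2.2]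
  exact ⟨h.adj a b hab.2.1 hab.2.2 hab.1, h.mem a hab.2.1, h.mem b hab.2.2⟩

theorem Inv2.ext_ang {F : Set V} {z : V → V} (h : Inv2 G ang F z) (v a b : V)
    (h1 : (res G F).Adj v a) (h2 : (res G F).Adj v b) (h3 : (res G F).Adj a b) :
    ang (ext F z v) (ext F z a) (ext F z b) = ang v a b := by
  rw [ext_mem h1.2.1, ext_mem h1.2.2, ext_mem h2.2.2]
  exact h.ang v a b h1.2.1 h1.2.2 h2.2.2 h1.1 h2.1 h3.1

theorem exists_fixed_or_flip (hA : AngSys G ang) {F : Set V} (hF : GoodF G F) {z : V → V}
    (hz : Inv2 G ang F z) : ∃ v ∈ F, z v = v ∨ G.Adj v (z v) := by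
  by_contra hcon
  push Not at hcon
  obtain ⟨x, hx⟩ := hF.ne
  have hne : x ≠ z x := fun h => (hcon x hx).1 h.symm
  obtain ⟨A, hp⟩ := path_of_reachable (hF.conn x hx (z x) (hz.mem x hx)) hne
  have hC : CCh (res G F) ((x :: A) ++ (x :: A).map (ext F z)) := by
    have h1 := Ch_map hz.ext_adj hp
    have h2 : Ch (res G F) ((x :: A) ++ z x :: (A.map (ext F z) ++ [x])) := by
      rw [Ch_append]
      refine ⟨hp, ?_⟩
      have : z x :: (A.map (ext F z) ++ [x]) = (x :: (A ++ [z x])).map (ext F z) := by
        rw [List.map_cons, List.map_append, List.map_cons, List.map_nil, ext_mem hx,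
          ext_mem (hz.mem x hx), hz.inv x hx]
      rw [this]; exact h1
    have h3 : (x :: A) ++ z x :: (A.map (ext F z) ++ [x]) =
        x :: ((A ++ (x :: A).map (ext F z)) ++ [x]) := by
      rw [List.map_cons, ext_mem hx]; simp
    rw [h3] at h2
    exact h2
  obtain ⟨n, hn⟩ := hF.sc _ hC
  refine no_free_involution (hA.res F) hz.ext_inv hz.ext_adj hz.ext_ang ?_ ?_ n _ _ rfl
    (by simp) hn
  · intro v hv
    have h1 := hv.2.1
    rw [ext_mem h1] at hv
    exact (hcon v h1).2 hv.1
  · intro a b hab h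
    rw [ext_mem hab.2.1] at h
    exact (hcon a hab.2.1).1 h

theorem GoodF.step (hA : AngSys G ang) {F : Set V} (hF : GoodF G F) {z : V → V}
    (hz : Inv2 G ang F z) (hni : ∀ v, ¬ G.Adj v (z v)) : GoodF G (F ∩ {v | z v = v}) := by
  have hni' : ∀ v, ¬ (res G F).Adj v (ext F z v) := by
    intro v hv
    have h1 := hv.2.1
    rw [ext_mem h1] at hv
    exact hni v hv.1
  have hle : ∀ a b, (res (res G F) {v | ext F z v = v}).Adj a b →
      (res G (F ∩ {v | z v = v})).Adj a b := by
    intro a b hab
    have ha : a ∈ F := hab.1.2.1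
    have hb : b ∈ F := hab.1.2.2
    have h1 : ext F z a = a := hab.2.1
    have h2 : ext F z b = b := hab.2.2
    rw [ext_mem ha] at h1
    rw [ext_mem hb] at h2
    exact ⟨hab.1.1, ⟨ha, h1⟩, ⟨hb, h2⟩⟩
  refine ⟨?_, ?_, ?_⟩
  · obtain ⟨v, hv, h | h⟩ := exists_fixed_or_flip hA hF hz
    · exact ⟨v, hv, h⟩
    · exact absurd h (hni v)
  · intro x hx y hy
    rcases eq_or_ne x y with rfl | hxy
    · exact SimpleGraph.Reachable.refl _
    obtain ⟨A, hp⟩ := path_of_reachable (hF.conn x hx.1 y hy.1) hxy
    have zx : ext F z x = x := by rw [ext_mem hx.1]; exact hx.2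
    have zy : ext F z y = y := by rw [ext_mem hy.1]; exact hy.2
    have hmapP : (x :: (A ++ [y])).map (ext F z) = x :: (A.map (ext F z) ++ [y]) := by
      simp [zx, zy]
    have hC : CCh (res G F) (x :: (A ++ y :: (A.map (ext F z)).reverse)) := by
      have h1 : Ch (res G F) ((x :: A) ++ y :: ((A.map (ext F z)).reverse ++ [x])) := by
        rw [Ch_append]
        refine ⟨by simpa using hp, ?_⟩
        have := Ch_map hz.ext_adj hp
        rw [hmapP] at this
        have := Ch_reverse this
        simpa using this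
      simpa [CCh] using h1
    obtain ⟨n, hn⟩ := hF.sc _ hC
    have h1 : Cl (res G F) (x :: (A ++ y :: ((A.map (ext F z)).reverse ++ [x]))) n :=
      hn.toCl'.congr (by simp)
    have h2 := (Hq.of_cl h1).symm
    have h3 : Hq (res G F) (x :: (A ++ [y])) ((x :: (A ++ [y])).map (ext F z)) n := by
      rw [hmapP]; exact h2
    have := conn_core (hA.res F) hz.ext_inv hz.ext_adj hz.ext_ang hni' n _ _ x y rfl hp rfl
      last_path zx zy h3
    exact this.mono hle
  · intro W hW
    have hmem := mem_of_cch_res hW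
    have hle2 : ∀ a b, (res G (F ∩ {v | z v = v})).Adj a b → (res G F).Adj a b :=
      fun a b hab => ⟨hab.1, hab.2.1.1, hab.2.2.1⟩
    have hW' : CCh (res G F) W := hW.mono hle2
    obtain ⟨n, hn⟩ := hF.sc W hW'
    obtain ⟨m, hm⟩ := sc_core (hA.res F) hz.ext_inv hz.ext_adj hz.ext_ang hni' n _ W rfl
      (fun v hv => by
        rw [ext_mem (hmem v hv).1]; exact (hmem v hv).2) hn
    exact ⟨m, hm.monoG hle⟩

/-- An action of a group by automorphisms of the complex. -/
structure IsAct (X : MFlag V) (Γ : Type*) [Group Γ] [MulAction Γ V] : Prop where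
  adj : ∀ (g : Γ) (a b : V), X.G.Adj a b → X.G.Adj (g • a) (g • b)
  len : ∀ (g : Γ) (a b : V), X.G.Adj a b → X.len (g • a) (g • b) = X.len a b

/-- The points of the geometric realization, in barycentric coordinates. -/
structure IsPoint (G : SimpleGraph V) (f : V →₀ ℝ) : Prop where
  nonneg : ∀ v, 0 ≤ f v
  sum_one : (f.sum fun _ t => t) = 1
  simplex : ∀ a ∈ f.support, ∀ b ∈ f.support, a ≠ b → G.Adj a b

section group

variable {Γ : Type*} [Group Γ] [MulAction Γ V] {X : MFlag V}

theorem IsAct.angle (h : IsAct X Γ) (g : Γ) {v a b : V} (h1 : X.G.Adj v a) (h2 : X.G.Adj v b)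
    (h3 : X.G.Adj a b) : X.ang (g • v) (g • a) (g • b) = X.ang v a b := by
  unfold MFlag.ang
  rw [h.len g v a h1, h.len g v b h2, h.len g a b h3]

def fixs (V : Type*) [MulAction Γ V] (K : Subgroup Γ) : Set V := {v | ∀ k ∈ K, k • v = v}

theorem inv2_of_normal (h : IsAct X Γ) (K : Subgroup Γ) (z : Γ)
    (hK : ∀ k ∈ K, z⁻¹ * k * z ∈ K) (hz2 : z * z ∈ K) :
    Inv2 X.G X.ang (fixs V K) (fun v => z • v) where
  mem v hv := by
    intro k hk
    show k • z • v = z • v
    have h1 : k • z • v = z • ((z⁻¹ * k * z) • v) := by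
      simp only [← mul_smul]
      congr 1
      group
    rw [h1, hv _ (hK k hk)]
  inv v hv := by
    show z • z • v = v
    rw [← mul_smul]
    exact hv _ hz2
  adj a b _ _ hab := h.adj z a b hab
  ang v a b _ _ _ h1 h2 h3 := h.angle z h1 h2 h3

theorem good_fix (hX : X.MetricallySystolic) (h : IsAct X Γ) [Finite Γ] (H : Subgroup Γ)
    (hni : ∀ g ∈ H, ∀ v, ¬ X.G.Adj v (g • v)) :
    ∀ (m : ℕ) (K : Subgroup Γ), Nat.card K = 2 ^ m → K ≤ H → GoodF X.G (fixs V K) := by
  intro m
  induction m with
  | zero =>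
    intro K hK _
    have hK1 : K = ⊥ := by
      rw [pow_zero, Nat.card_eq_one_iff_unique] at hK
      obtain ⟨h1, _⟩ := hK
      exact (Subgroup.eq_bot_iff_forall _).2 (fun x hx => by
        have := h1.elim ⟨x, hx⟩ ⟨1, K.one_mem⟩
        exact congrArg Subtype.val this)
    subst hK1
    have hall : ∀ v : V, v ∈ fixs V (⊥ : Subgroup Γ) := by
      intro v k hk
      rw [Subgroup.mem_bot] at hk
      rw [hk, one_smul]
    have hle : ∀ a b, X.G.Adj a b → (res X.G (fixs V (⊥ : Subgroup Γ))).Adj a b :=
      fun a b hab => ⟨hab, hall a, hall b⟩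
    have hle' : ∀ a b, (res X.G (fixs V (⊥ : Subgroup Γ))).Adj a b → X.G.Adj a b :=
      fun a b hab => hab.1
    obtain ⟨v⟩ := hX.sc.1.nonempty
    refine ⟨⟨v, hall v⟩, ?_, ?_⟩
    · intro x _ y _
      exact (hX.sc.1.preconnected x y).mono hle
    · intro W hW
      obtain ⟨n, hn⟩ := hX.sc.cyc W (hW.mono hle')
      exact ⟨n, hn.monoG hle⟩
  | succ m ih =>
    intro K hK hKH
    have : Fact (Nat.Prime 2) := ⟨Nat.prime_two⟩
    obtain ⟨K2, hK2⟩ := Sylow.exists_subgroup_card_pow_prime (G := K) 2 (n := m) (by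
      rw [hK]; exact pow_dvd_pow 2 (Nat.le_succ m))
    have hidx : K2.index = 2 := by
      have h1 := K2.card_mul_index
      rw [hK2, hK, pow_succ] at h1
      exact Nat.eq_of_mul_eq_mul_left (by positivity) h1
    have hnorm := Subgroup.normal_of_index_eq_two hidx
    set K1 : Subgroup Γ := K2.map K.subtype with hK1
    have hK1K : K1 ≤ K := by
      rintro x ⟨y, _, rfl⟩
      exact y.2
    have hcard : Nat.card K1 = 2 ^ m := by
      rw [hK1, ← hK2]
      exact Nat.card_congr (K2.equivMapOfInjective K.subtype K.subtype_injective).toEquiv.symm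
    have hG := ih K1 hcard (hK1K.trans hKH)
    obtain ⟨z, hz⟩ : ∃ z : K, z ∉ K2 := by
      by_contra hcon
      push Not at hcon
      have : K2 = ⊤ := (Subgroup.eq_top_iff' K2).2 hcon
      rw [this, Subgroup.index_top] at hidx
      omega
    have hmem : ∀ k : K, k ∈ K2 → (k : Γ) ∈ K1 := fun k hk => ⟨k, hk, rfl⟩
    have hI := inv2_of_normal h K1 (z : Γ) (by
      rintro _ ⟨k, hk, rfl⟩
      have h1 := hnorm.conj_mem k hk z⁻¹
      refine ⟨_, h1, ?_⟩
      simp) (by
      have h1 := Subgroup.mul_self_mem_of_index_two hidx z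
      exact ⟨_, h1, by simp⟩)
    have hstep := hG.step hX.angSys hI (fun v => hni _ (hKH z.2) v)
    have heq : fixs V K1 ∩ {v | (z : Γ) • v = v} = fixs V K := by
      ext v
      constructor
      · rintro ⟨h1, h2⟩ k hk
        by_cases hk2 : (⟨k, hk⟩ : K) ∈ K2
        · exact h1 k (hmem ⟨k, hk⟩ hk2)
        · have h3 : z⁻¹ * ⟨k, hk⟩ ∈ K2 := by
            rw [Subgroup.mul_mem_iff_of_index_two hidx]
            constructor
            · intro h; exact absurd (K2.inv_mem_iff.1 h) hz
            · intro h; exact absurd h hk2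
          have h4 := h1 _ (hmem _ h3)
          have h5 : k • v = (z : Γ) • (((z⁻¹ * ⟨k, hk⟩ : K) : Γ) • v) := by
            rw [← mul_smul]
            congr 1
            simp
          rw [h5, h4]; exact h2
      · intro hv
        exact ⟨fun k hk => hv k (hK1K hk), hv _ z.2⟩
    rw [← heq]
    exact hstep

theorem isPoint_single (v : V) : IsPoint X.G (Finsupp.single v 1) where
  nonneg w := by
    classical
    rw [Finsupp.single_apply]
    split_ifs <;> norm_num
  sum_one := by simp
  simplex a ha b hb hab := by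
    classical
    have h1 := Finsupp.support_single_subset ha
    have h2 := Finsupp.support_single_subset hb
    simp only [Finset.mem_singleton] at h1 h2
    exact absurd (h1.trans h2.symm) hab

theorem isPoint_edge {v w : V} (hvw : X.G.Adj v w) :
    IsPoint X.G (Finsupp.single v (1 / 2) + Finsupp.single w (1 / 2)) where
  nonneg u := by
    classical
    rw [Finsupp.add_apply, Finsupp.single_apply, Finsupp.single_apply]
    split_ifs <;> norm_num
  sum_one := by
    rw [Finsupp.sum_add_index' (by simp) (by simp)]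
    simp
    norm_num
  simplex a ha b hb hab := by
    classical
    have hsub : ∀ c ∈ (Finsupp.single v (1 / 2 : ℝ) + Finsupp.single w (1 / 2 : ℝ)).support,
        c = v ∨ c = w := by
      intro c hc
      have := Finsupp.support_add hc
      rw [Finset.mem_union] at this
      rcases this with h | h
      · left; simpa using Finsupp.support_single_subset h
      · right; simpa using Finsupp.support_single_subset h
    rcases hsub a ha with rfl | rfl <;> rcases hsub b hb with rfl | rfl
    · exact absurd rfl hab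
    · exact hvw
    · exact hvw.symm
    · exact absurd rfl hab

theorem main (hX : X.MetricallySystolic) (h : IsAct X Γ) {n : ℕ} (hcard : Nat.card Γ = 2 ^ n)
    (H : Subgroup Γ) (hidx : H.index ≤ 2) (hni : ∀ g ∈ H, ∀ v, ¬ X.G.Adj v (g • v)) :
    ∃ f : V →₀ ℝ, IsPoint X.G f ∧ ∀ (g : Γ) (v : V), f (g • v) = f v := by
  classical
  have : Finite Γ := Nat.finite_of_card_ne_zero (by rw [hcard]; positivity)
  obtain ⟨m, _, hm⟩ : ∃ m ≤ n, Nat.card H = 2 ^ m := by
    have := H.card_subgroup_dvd_card
    rw [hcard] at this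
    exact (Nat.dvd_prime_pow Nat.prime_two).1 this
  have hG := good_fix hX h H hni m H hm le_rfl
  have hidx0 : H.index ≠ 0 := Subgroup.index_ne_zero_of_finite
  have hcases : H.index = 1 ∨ H.index = 2 := by omega
  rcases hcases with h1 | h2
  · rw [Subgroup.index_eq_one] at h1
    obtain ⟨v, hv⟩ := hG.ne
    refine ⟨Finsupp.single v 1, isPoint_single v, ?_⟩
    intro g w
    have hg : ∀ g : Γ, g • v = v := fun g => hv g (by rw [h1]; trivial)
    rw [Finsupp.single_apply, Finsupp.single_apply]
    congr 1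
    apply propext
    constructor
    · intro e
      have : g⁻¹ • v = w := by rw [e]; simp
      rw [← this, hg]
    · intro e; rw [← e, hg]
  · have hnorm := Subgroup.normal_of_index_eq_two h2
    obtain ⟨z, hz⟩ : ∃ z : Γ, z ∉ H := by
      by_contra hcon
      push Not at hcon
      have : H = ⊤ := (Subgroup.eq_top_iff' H).2 hcon
      rw [this, Subgroup.index_top] at h2
      omega
    have hI := inv2_of_normal h H z (fun k hk => by
      have := hnorm.conj_mem k hk z⁻¹
      simpa using this) (Subgroup.mul_self_mem_of_index_two h2 z)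
    obtain ⟨v, hv, hv2⟩ := exists_fixed_or_flip hX.angSys hG hI
    have hz2 : z • z • v = v := hI.inv v hv
    have horb : ∀ g : Γ, (g • v = v ∧ g • z • v = z • v) ∨ (g • v = z • v ∧ g • z • v = v) := by
      intro g
      by_cases hg : g ∈ H
      · left
        exact ⟨hv g hg, hI.mem v hv g hg⟩
      · right
        have h3 : z⁻¹ * g ∈ H := by
          rw [Subgroup.mul_mem_iff_of_index_two h2]
          constructor
          · intro h; exact absurd (H.inv_mem_iff.1 h) hz
          · intro h; exact absurd h hg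
        have e1 : ∀ u : V, g • u = z • ((z⁻¹ * g) • u) := fun u => by
          rw [← mul_smul]; congr 1; group
        constructor
        · rw [e1, hv _ h3]
        · rw [e1, hI.mem v hv _ h3]; exact hz2
    have hzv := hI.mem v hv
    rcases hv2 with hv2 | hv2
    · have hv2' : z • v = v := hv2
      have hg : ∀ g : Γ, g • v = v := fun g => by
        rcases horb g with h3 | h3
        · exact h3.1
        · rw [h3.1]; exact hv2'
      refine ⟨Finsupp.single v 1, isPoint_single v, ?_⟩
      intro g w
      rw [Finsupp.single_apply, Finsupp.single_apply]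
      congr 1
      apply propext
      constructor
      · intro e
        have : g⁻¹ • v = w := by rw [e]; simp
        rw [← this, hg]
      · intro e; rw [← e, hg]
    · have hv2' : X.G.Adj v (z • v) := hv2
      refine ⟨Finsupp.single v (1 / 2) + Finsupp.single (z • v) (1 / 2), isPoint_edge hv2', ?_⟩
      intro g w
      simp only [Finsupp.add_apply, Finsupp.single_apply]
      have key : ∀ u w : V, (u = g • w) ↔ (g⁻¹ • u = w) := fun u w => by
        constructor
        · intro e; rw [e]; simp
        · intro e; rw [← e]; simp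
      rw [if_congr (key v w) rfl rfl, if_congr (key (z • v) w) rfl rfl]
      rcases horb g⁻¹ with ⟨h3, h4⟩ | ⟨h3, h4⟩
      · rw [h3, h4]
      · rw [h3, h4]; ring

end group

end Pool.Agent.H351
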